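import Mathlib

set_option autoImplicit false

namespace Pool.Agent.Lib.MP_ca8614_al

theorem size_ineq (r : ℕ) (hr : 3 ≤ r) : 2 * (r + 1) ^ 6 < (r ^ 4 - 1) * r ^ 3 * ((r ^ 2 - 1) * r) := by
  obtain ⟨t, rfl⟩ := Nat.exists_eq_add_of_le hr
  have h1 : (t + 4) ^ 3 + 1 ≤ (3 + t) ^ 4 := by nlinarith [sq_nonneg t, Nat.zero_le t, Nat.zero_le (t^2), Nat.zero_le (t^3), Nat.zero_le (t^4)]
  have h2 : (t + 4) ^ 3 ≤ (3 + t) ^ 4 - 1 := by omega
  have h3 : 3 ≤ (3 + t) ^ 2 - 1 := by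
    have : 4 ≤ (3 + t) ^ 2 := by nlinarith
    omega
  have h4 : (t + 4) ^ 3 ≤ (3 + t) ^ 4 := by omega
  have h5 : ((3 + t) ^ 4 - 1) * (3 + t) ^ 3 * (((3 + t) ^ 2 - 1) * (3 + t)) =
    ((3 + t) ^ 4 - 1) * (3 + t) ^ 4 * ((3 + t) ^ 2 - 1) := by ring
  rw [h5]
  have h6 : (t + 4) ^ 3 * (t + 4) ^ 3 * 3 ≤ ((3 + t) ^ 4 - 1) * (3 + t) ^ 4 * ((3 + t) ^ 2 - 1) :=
    Nat.mul_le_mul (Nat.mul_le_mul h2 h4) h3
  have h7 : 0 < (t + 4) ^ 3 * (t + 4) ^ 3 := by positivity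
  have h8 : 2 * (3 + t + 1) ^ 6 = 2 * ((t + 4) ^ 3 * (t + 4) ^ 3) := by ring
  rw [h8]
  omega

theorem q_factor (q : ℕ) : (q ^ 4 - 1) * (q ^ 4 - q) * (q ^ 4 - q ^ 2) * (q ^ 4 - q ^ 3) =
    q ^ 6 * ((q ^ 4 - 1) * (q ^ 3 - 1) * (q ^ 2 - 1)) * (q - 1) := by
  have h1 : q ^ 4 - q = q * (q ^ 3 - 1) := by rw [Nat.mul_sub]; congr 1 <;> ring
  have h2 : q ^ 4 - q ^ 2 = q ^ 2 * (q ^ 2 - 1) := by rw [Nat.mul_sub]; congr 1 <;> ring
  have h3 : q ^ 4 - q ^ 3 = q ^ 3 * (q - 1) := by rw [Nat.mul_sub]; congr 1 <;> ring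
  rw [h1, h2, h3]
  ring

theorem cop_sub_one {p q k : ℕ} (hp : p.Prime) (hpq : p ∣ q) (hk : k ≠ 0) (hq : 0 < q) :
    ¬ p ∣ q ^ k - 1 := by
  intro h
  have h1 : p ∣ q ^ k := dvd_pow hpq hk
  have h2 : 1 ≤ q ^ k := Nat.one_le_pow _ _ hq
  have h3 : p ∣ q ^ k - (q ^ k - 1) := Nat.dvd_sub h1 h
  have h4 : q ^ k - (q ^ k - 1) = 1 := by omega
  rw [h4] at h3
  exact hp.one_lt.ne' (Nat.dvd_one.1 h3)

theorem dvd_of_three {p n a b c : ℕ} (hp : p.Prime)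
    (hab : ¬ (p ∣ a ∧ p ∣ b)) (hac : ¬ (p ∣ a ∧ p ∣ c)) (hbc : ¬ (p ∣ b ∧ p ∣ c))
    (h : p ^ n ∣ a * b * c) : p ^ n ∣ a ∨ p ^ n ∣ b ∨ p ^ n ∣ c := by
  by_cases ha : p ∣ a
  · have hb : ¬ p ∣ b := fun hb => hab ⟨ha, hb⟩
    have hc : ¬ p ∣ c := fun hc => hac ⟨ha, hc⟩
    left
    have h1 : (p ^ n).Coprime c := Nat.Coprime.pow_left n ((hp.coprime_iff_not_dvd).2 hc)
    have h2 : (p ^ n).Coprime b := Nat.Coprime.pow_left n ((hp.coprime_iff_not_dvd).2 hb)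
    exact h2.dvd_of_dvd_mul_right (h1.dvd_of_dvd_mul_right h)
  · have h1 : (p ^ n).Coprime a := Nat.Coprime.pow_left n ((hp.coprime_iff_not_dvd).2 ha)
    rw [mul_assoc] at h
    have h2 := h1.dvd_of_dvd_mul_left h
    right
    by_cases hb : p ∣ b
    · have hc : ¬ p ∣ c := fun hc => hbc ⟨hb, hc⟩
      left
      exact (Nat.Coprime.pow_left n ((hp.coprime_iff_not_dvd).2 hc)).dvd_of_dvd_mul_right h2
    · right
      exact (Nat.Coprime.pow_left n ((hp.coprime_iff_not_dvd).2 hb)).dvd_of_dvd_mul_left h2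

theorem arith (p s c d M z z' q r : ℕ) (hp : p.Prime) (hs : s.Prime) (hp2 : p ≠ 2) (hs2 : s ≠ 2)
    (hz : z ∣ 4) (hz' : z' ∣ 2)
    (hq : q = p ^ 2 ^ c) (hr : r = s ^ 2 ^ d)
    (h1 : M * z * (q - 1) =
      (q ^ 4 - 1) * (q ^ 4 - q) * (q ^ 4 - q ^ 2) * (q ^ 4 - q ^ 3))
    (h2 : M * z' = (r ^ 4 - 1) * r ^ 3 * ((r ^ 2 - 1) * r)) : False := by
  have hp3 : 3 ≤ p := by
    have := hp.two_le
    omega
  have hs3 : 3 ≤ s := by
    have := hs.two_le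
    omega
  have hpq : p ∣ q := by rw [hq]; exact dvd_pow_self _ (by positivity)
  have hsr : s ∣ r := by rw [hr]; exact dvd_pow_self _ (by positivity)
  have hq0 : 0 < q := by rw [hq]; positivity
  have hr0 : 0 < r := by rw [hr]; positivity
  have hq3 : 3 ≤ q := hp3.trans (Nat.le_of_dvd hq0 hpq)
  have hr3 : 3 ≤ r := hs3.trans (Nat.le_of_dvd hr0 hsr)
  rw [q_factor q] at h1
  have h1' : M * z = q ^ 6 * ((q ^ 4 - 1) * (q ^ 3 - 1) * (q ^ 2 - 1)) :=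
    Nat.eq_of_mul_eq_mul_right (by omega) h1
  set A := (q ^ 4 - 1) * (q ^ 3 - 1) * (q ^ 2 - 1) with hA
  set B := (r ^ 4 - 1) * (r ^ 2 - 1) with hB
  have h2' : M * z' = r ^ 4 * B := by rw [h2, hB]; ring
  have key : q ^ 6 * (A * z') = r ^ 4 * (B * z) := by
    calc q ^ 6 * (A * z') = (M * z) * z' := by rw [h1']; ring
      _ = (M * z') * z := by ring
      _ = r ^ 4 * (B * z) := by rw [h2']; ring
  have pz : ¬ p ∣ z := by
    intro h
    have h3 : p ∣ 2 ^ 2 := h.trans hz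
    have h4 := hp.dvd_of_dvd_pow h3
    have := Nat.le_of_dvd (by norm_num) h4
    omega
  have pz' : ¬ p ∣ z' := by
    intro h
    have h4 := h.trans hz'
    have := Nat.le_of_dvd (by norm_num) h4
    omega
  have pA : ¬ p ∣ A := by
    intro h
    rcases (hp.dvd_mul).1 h with h | h
    · rcases (hp.dvd_mul).1 h with h | h
      · exact cop_sub_one hp hpq (by norm_num) hq0 h
      · exact cop_sub_one hp hpq (by norm_num) hq0 h
    · exact cop_sub_one hp hpq (by norm_num) hq0 h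
  have sB : ¬ s ∣ B := by
    intro h
    rcases (hs.dvd_mul).1 h with h | h
    · exact cop_sub_one hs hsr (by norm_num) hr0 h
    · exact cop_sub_one hs hsr (by norm_num) hr0 h
  have hq6 : q ^ 6 = p ^ (2 ^ c * 6) := by rw [hq, ← pow_mul]
  have hr4 : r ^ 4 = s ^ (2 ^ d * 4) := by rw [hr, ← pow_mul]
  by_cases hsp : s = p
  · subst hsp
    have c1 : s ^ (2 ^ c * 6) ∣ s ^ (2 ^ d * 4) := by
      have h3 : s ^ (2 ^ c * 6) ∣ r ^ 4 * (B * z) := by rw [← key, hq6]; exact dvd_mul_right _ _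
      rw [hr4] at h3
      refine Nat.Coprime.dvd_of_dvd_mul_right (Nat.Coprime.pow_left _ ?_) h3
      rw [hs.coprime_iff_not_dvd]
      intro h
      rcases (hs.dvd_mul).1 h with h | h
      · exact sB h
      · exact pz h
    have c2 : s ^ (2 ^ d * 4) ∣ s ^ (2 ^ c * 6) := by
      have h3 : s ^ (2 ^ d * 4) ∣ q ^ 6 * (A * z') := by rw [key, hr4]; exact dvd_mul_right _ _
      rw [hq6] at h3
      refine Nat.Coprime.dvd_of_dvd_mul_right (Nat.Coprime.pow_left _ ?_) h3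
      rw [hs.coprime_iff_not_dvd]
      intro h
      rcases (hs.dvd_mul).1 h with h | h
      · exact pA h
      · exact pz' h
    have c3 := (Nat.pow_dvd_pow_iff_le_right hs.one_lt).1 c1
    have c4 := (Nat.pow_dvd_pow_iff_le_right hs.one_lt).1 c2
    have c5 : 2 ^ c * 6 = 2 ^ d * 4 := le_antisymm c3 c4
    have c6 : 3 ∣ 2 ^ d * 4 := ⟨2 ^ c * 2, by rw [← c5]; ring⟩
    have c7 : 3 ∣ 2 ^ (d + 2) := by rw [pow_add]; exact c6
    have c8 := Nat.prime_three.dvd_of_dvd_pow c7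
    omega
  · -- `p` does not divide `r`
    have pr : ¬ p ∣ r := by
      rw [hr]
      intro h
      have := (Nat.prime_dvd_prime_iff_eq hp hs).1 (hp.dvd_of_dvd_pow h)
      exact hsp this.symm
    have d1 : p ^ (2 ^ c * 6) ∣ B := by
      have h3 : p ^ (2 ^ c * 6) ∣ r ^ 4 * (B * z) := by rw [← key, hq6]; exact dvd_mul_right _ _
      have h4 : p ^ (2 ^ c * 6) ∣ B * z := by
        refine Nat.Coprime.dvd_of_dvd_mul_left (Nat.Coprime.pow_left _ ?_) h3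
        rw [hp.coprime_iff_not_dvd]
        exact fun h => pr (hp.dvd_of_dvd_pow h)
      refine Nat.Coprime.dvd_of_dvd_mul_right (Nat.Coprime.pow_left _ ?_) h4
      rw [hp.coprime_iff_not_dvd]
      exact pz
    obtain ⟨t, rfl⟩ : ∃ t, r = t + 1 := ⟨r - 1, by omega⟩
    have hBf : B = t ^ 2 * (t + 2) ^ 2 * ((t + 1) ^ 2 + 1) := by
      have e1 : (t + 1) ^ 4 - 1 = t * (t + 2) * ((t + 1) ^ 2 + 1) := by
        apply Nat.sub_eq_of_eq_add; ring
      have e2 : (t + 1) ^ 2 - 1 = t * (t + 2) := by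
        apply Nat.sub_eq_of_eq_add; ring
      rw [hB, e1, e2]; ring
    rw [hBf] at d1
    have hcop : p ^ (2 ^ c * 6) ∣ t ^ 2 ∨ p ^ (2 ^ c * 6) ∣ (t + 2) ^ 2 ∨
        p ^ (2 ^ c * 6) ∣ (t + 1) ^ 2 + 1 := by
      have n2 : ¬ p ∣ 2 := by
        intro h
        have := Nat.le_of_dvd (by norm_num) h
        omega
      apply dvd_of_three hp _ _ _ d1
      · rintro ⟨ha, hb⟩
        have ha := hp.dvd_of_dvd_pow ha
        have hb := hp.dvd_of_dvd_pow hb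
        exact n2 ((Nat.dvd_add_right ha).1 hb)
      · rintro ⟨ha, hb⟩
        have ha := hp.dvd_of_dvd_pow ha
        have e : (t + 1) ^ 2 + 1 = t * (t + 2) + 2 := by ring
        rw [e] at hb
        exact n2 ((Nat.dvd_add_right (ha.mul_right _)).1 hb)
      · rintro ⟨ha, hb⟩
        have ha := hp.dvd_of_dvd_pow ha
        have e : (t + 1) ^ 2 + 1 = t * (t + 2) + 2 := by ring
        rw [e] at hb
        exact n2 ((Nat.dvd_add_right (ha.mul_left _)).1 hb)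
    have hle : q ^ 6 ≤ (t + 2) ^ 2 := by
      rw [hq6]
      rcases hcop with h | h | h
      · exact (Nat.le_of_dvd (by have : 0 < t := by omega
                                 positivity) h).trans (Nat.pow_le_pow_left (by omega) 2)
      · exact Nat.le_of_dvd (by positivity) h
      · refine (Nat.le_of_dvd (by positivity) h).trans ?_
        nlinarith
    have hq3' : q ^ 3 ≤ t + 2 := by
      have : (q ^ 3) ^ 2 ≤ (t + 2) ^ 2 := by rw [← pow_mul]; exact hle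
      exact (Nat.pow_le_pow_iff_left (by norm_num)).1 this
    have hz0 : 0 < z := Nat.pos_of_dvd_of_pos hz (by norm_num)
    have hM : M ≤ q ^ 18 := by
      have h3 : M ≤ M * z := Nat.le_mul_of_pos_right _ hz0
      rw [h1'] at h3
      refine h3.trans ?_
      have h4 : A ≤ q ^ 4 * q ^ 3 * q ^ 2 :=
        Nat.mul_le_mul (Nat.mul_le_mul (Nat.sub_le _ _) (Nat.sub_le _ _)) (Nat.sub_le _ _)
      calc q ^ 6 * A ≤ q ^ 6 * (q ^ 4 * q ^ 3 * q ^ 2) := Nat.mul_le_mul_left _ h4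
        _ = q ^ 15 := by ring
        _ ≤ q ^ 18 := Nat.pow_le_pow_right hq0 (by norm_num)
    have hz'2 : z' ≤ 2 := Nat.le_of_dvd (by norm_num) hz'
    have h5 : M * z' ≤ 2 * (t + 2) ^ 6 := by
      calc M * z' ≤ q ^ 18 * 2 := Nat.mul_le_mul hM hz'2
        _ = (q ^ 3) ^ 6 * 2 := by ring
        _ ≤ (t + 2) ^ 6 * 2 := Nat.mul_le_mul_right _ (Nat.pow_le_pow_left hq3' 6)
        _ = 2 * (t + 2) ^ 6 := by ring
    have h6 := size_ineq (t + 1) hr3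
    rw [← h2] at h6
    have h7 : (t + 1 + 1) = t + 2 := by ring
    rw [h7] at h6
    omega

end Pool.Agent.Lib.MP_ca8614_al
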