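import Pool.Agent.Lib.MP_ca8614_al.Conj

set_option autoImplicit false

open Matrix

namespace Pool.Agent.Lib.MP_ca8614_al

section CharP

variable {F : Type*} [Field F] (p : ℕ) [hp : Fact p.Prime] [CharP F p]

include hp in
theorem eq_one_of_pow_char {x : F} (h : x ^ p = 1) : x = 1 := by
  have h1 : (x - 1) ^ p = 0 := by rw [sub_pow_char, h, one_pow, sub_self]
  have h2 : x - 1 = 0 := by
    have := pow_eq_zero_iff (hp.out.ne_zero) |>.1 h1
    exact this
  exact sub_eq_zero.1 h2

variable {n : Type*} [DecidableEq n] [Fintype n] [Nonempty n]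

include hp in
theorem sub_one_pow_char {A : Matrix n n F} (h : A ^ p = 1) : (A - 1) ^ p = 0 := by
  rw [sub_pow_char_of_commute p (Commute.one_right A), h, one_pow, sub_self]

end CharP

section Two

variable {F : Type*} [Field F]

theorem sq_eq_zero_of_nilpotent {N : Matrix (Fin 2) (Fin 2) F} (h : IsNilpotent N) :
    N 1 1 = - N 0 0 ∧ N 0 0 * N 0 0 + N 0 1 * N 1 0 = 0 := by
  have h1 : N.trace = 0 := (Matrix.isNilpotent_trace_of_isNilpotent h).eq_zero
  have h2 : N.det = 0 := by
    obtain ⟨k, hk⟩ := h
    have : N.det ^ k = 0 := by rw [← Matrix.det_pow, hk]; simp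
    exact (show IsNilpotent N.det from ⟨k, this⟩).eq_zero
  rw [Matrix.trace_fin_two] at h1
  rw [Matrix.det_fin_two] at h2
  refine ⟨by linear_combination h1, ?_⟩
  have h3 : N 1 1 = - N 0 0 := by linear_combination h1
  rw [h3] at h2
  linear_combination -h2

/-- upper unitriangular elements -/
def up (a : F) : SpecialLinearGroup (Fin 2) F := ⟨!![1, a; 0, 1], by simp [Matrix.det_fin_two]⟩

/-- lower unitriangular elements -/
def lo (a : F) : SpecialLinearGroup (Fin 2) F := ⟨!![1, 0; a, 1], by simp [Matrix.det_fin_two]⟩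

theorem up_val (a : F) : (up a).1 = !![1, a; 0, 1] := rfl
theorem lo_val (a : F) : (lo a).1 = !![1, 0; a, 1] := rfl

theorem up_add (a b : F) : up (a + b) = up a * up b := by
  apply Subtype.ext
  show _ = (up a).1 * (up b).1
  rw [up_val, up_val, up_val]
  simp [add_comm]

theorem lo_add (a b : F) : lo (a + b) = lo a * lo b := by
  apply Subtype.ext
  show _ = (lo a).1 * (lo b).1
  rw [lo_val, lo_val, lo_val]
  simp

theorem up_zero : up (0 : F) = 1 := by
  apply Subtype.ext
  show _ = (1 : Matrix (Fin 2) (Fin 2) F)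
  rw [up_val, Matrix.one_fin_two]

theorem lo_zero : lo (0 : F) = 1 := by
  apply Subtype.ext
  show _ = (1 : Matrix (Fin 2) (Fin 2) F)
  rw [lo_val, Matrix.one_fin_two]

theorem up_injective {a b : F} (h : up a = up b) : a = b := by
  have := congrFun (congrFun (congrArg Subtype.val h) 0) 1
  simpa [up_val] using this

theorem lo_injective {a b : F} (h : lo a = lo b) : a = b := by
  have := congrFun (congrFun (congrArg Subtype.val h) 1) 0
  simpa [lo_val] using this

theorem up_pow (a : F) (n : ℕ) : up a ^ n = up (n * a) := by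
  induction n with
  | zero => simp [up_zero]
  | succ n ih => rw [pow_succ, ih, ← up_add]; congr 1; push_cast; ring

theorem lo_pow (a : F) (n : ℕ) : lo a ^ n = lo (n * a) := by
  induction n with
  | zero => simp [lo_zero]
  | succ n ih => rw [pow_succ, ih, ← lo_add]; congr 1; push_cast; ring

/-- Every element of `SL(2, F)` satisfies a multiplicatively closed property that holds for the
unitriangular elements. -/
theorem SL2_induction (P : SpecialLinearGroup (Fin 2) F → Prop)
    (hup : ∀ a, P (up a)) (hlo : ∀ a, P (lo a)) (hmul : ∀ A B, P A → P B → P (A * B))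
    (A : SpecialLinearGroup (Fin 2) F) : P A := by
  refine Matrix.SL2.transvection_induction P ?_ hmul A
  intro i j h c
  fin_cases i
  · obtain rfl : j = 1 := by fin_cases j <;> tauto
    have : SpecialLinearGroup.transvection h c = up c := by
      apply Subtype.ext
      rw [SpecialLinearGroup.transvection_coe, up_val]
      refine Matrix.ext fun i j => ?_
      fin_cases i <;> fin_cases j <;> simp
    rw [this]; exact hup c
  · obtain rfl : j = 0 := by fin_cases j <;> tauto
    have : SpecialLinearGroup.transvection h c = lo c := by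
      apply Subtype.ext
      rw [SpecialLinearGroup.transvection_coe, lo_val]
      refine Matrix.ext fun i j => ?_
      fin_cases i <;> fin_cases j <;> simp
    rw [this]; exact hlo c

/-- A nontrivial element of order dividing `p` is conjugate to `up 1`. -/
theorem exists_conj_up (p : ℕ) [hp : Fact p.Prime] [CharP F p]
    {A : SpecialLinearGroup (Fin 2) F} (hA : A ^ p = 1) (hA1 : A ≠ 1) :
    ∃ g : Matrix (Fin 2) (Fin 2) F, g.det ≠ 0 ∧ A.1 * g = g * (up 1).1 := by
  have hA' : A.1 ^ p = 1 := congrArg Subtype.val hA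
  have hnil : IsNilpotent (A.1 - 1) := ⟨p, sub_one_pow_char p hA'⟩
  obtain ⟨h1, h2⟩ := sq_eq_zero_of_nilpotent hnil
  simp only [Matrix.sub_apply, Matrix.one_apply_eq, Fin.isValue, ne_eq, zero_ne_one,
    not_false_eq_true, Matrix.one_apply_ne, sub_zero, one_ne_zero] at h1 h2
  set a := A.1 0 0 - 1 with ha
  set b := A.1 0 1 with hb
  set c := A.1 1 0 with hc
  have hAe : A.1 = !![1 + a, b; c, 1 - a] := by
    refine Matrix.ext fun i j => ?_
    fin_cases i <;> fin_cases j
    · simp [ha]
    · simp [hb]
    · simp [hc]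
    · simp; linear_combination h1
  by_cases hc0 : c = 0
  · rw [hc0, mul_zero, add_zero] at h2
    have ha0 : a = 0 := mul_self_eq_zero.1 h2
    have hb0 : b ≠ 0 := by
      intro hb0
      apply hA1
      apply Subtype.ext
      rw [hAe, ha0, hb0, hc0]
      show _ = (1 : Matrix (Fin 2) (Fin 2) F)
      rw [Matrix.one_fin_two]; simp
    refine ⟨!![b, 0; 0, 1], by simp [Matrix.det_fin_two, hb0], ?_⟩
    rw [hAe, ha0, hc0, up_val]
    simp
  · refine ⟨!![a, 1; c, 0], by simp [Matrix.det_fin_two, hc0], ?_⟩
    rw [hAe, up_val]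
    refine Matrix.ext fun i j => ?_
    fin_cases i <;> fin_cases j
    · simp; linear_combination h2
    · simp [add_comm]
    · simp; ring
    · simp

/-- Elements of order dividing `p` commuting with `up 1` are upper unitriangular. -/
theorem eq_up_of_commute (p : ℕ) [hp : Fact p.Prime] [CharP F p]
    {A : SpecialLinearGroup (Fin 2) F} (hA : A ^ p = 1) (hc : A * up 1 = up 1 * A) :
    A = up (A.1 0 1) := by
  have hA' : A.1 ^ p = 1 := congrArg Subtype.val hA
  have hnil : IsNilpotent (A.1 - 1) := ⟨p, sub_one_pow_char p hA'⟩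
  obtain ⟨h1, h2⟩ := sq_eq_zero_of_nilpotent hnil
  simp only [Matrix.sub_apply, Matrix.one_apply_eq, Fin.isValue, ne_eq, zero_ne_one,
    not_false_eq_true, Matrix.one_apply_ne, sub_zero, one_ne_zero] at h1 h2
  have hc' : A.1 * (up 1).1 = (up 1).1 * A.1 := congrArg Subtype.val hc
  have e00 := congrFun (congrFun hc' 0) 0
  have h10 : A.1 1 0 = 0 := by
    simpa [up_val, Matrix.mul_apply, Fin.sum_univ_two] using e00
  rw [h10, mul_zero, add_zero] at h2
  have ha0 : A.1 0 0 = 1 := sub_eq_zero.1 (mul_self_eq_zero.1 h2)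
  have h11 : A.1 1 1 = 1 := by linear_combination h1 - ha0
  apply Subtype.ext
  rw [up_val]
  refine Matrix.ext fun i j => ?_
  fin_cases i <;> fin_cases j
  · simpa using ha0
  · simp
  · simpa using h10
  · simpa using h11

end Two

end Pool.Agent.Lib.MP_ca8614_al
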