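import Pool.Agent.Lib.MP_ca8614_al.AutSL2

set_option autoImplicit false

open Matrix

namespace Pool.Agent.Lib.MP_ca8614_al

section

variable {n : Type*} [DecidableEq n] [Fintype n] {F : Type*} [Field F]

theorem conjSL_mul_apply (g h : GL n F) (A : SpecialLinearGroup n F) :
    conjSL (g * h) A = conjSL g (conjSL h A) := by
  apply Subtype.ext
  show (g * h).1 * A.1 * (g * h)⁻¹.1 = g.1 * (h.1 * A.1 * h⁻¹.1) * g⁻¹.1
  rw [_root_.mul_inv_rev]
  show (g.1 * h.1) * A.1 * (h⁻¹.1 * g⁻¹.1) = _
  simp only [Matrix.mul_assoc]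

theorem conjSL_inv_conjSL (g : GL n F) (A : SpecialLinearGroup n F) :
    conjSL g⁻¹ (conjSL g A) = A := by
  rw [← conjSL_mul_apply, inv_mul_cancel]
  apply Subtype.ext
  show (1 : GL n F).1 * A.1 * (1 : GL n F)⁻¹.1 = A.1
  simp

end

section Two

variable {F : Type*} [Field F]

/-- An element of `SL` seen in `GL`. -/
noncomputable def slGL {n : Type*} [DecidableEq n] [Fintype n] (A : SpecialLinearGroup n F) :
    GL n F := toGL A.1 (by rw [A.2]; exact one_ne_zero)

theorem conjSL_slGL {n : Type*} [DecidableEq n] [Fintype n] (A B : SpecialLinearGroup n F) :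
    conjSL (slGL A) B = A * B * A⁻¹ := by
  rw [conjSL_eq_iff]
  show A.1 * B.1 = (A * B * A⁻¹).1 * A.1
  have : (A * B * A⁻¹) * A = A * B := by group
  exact (congrArg Subtype.val this).symm

/-- The diagonal elements. -/
def dg (a : F) (ha : a ≠ 0) : SpecialLinearGroup (Fin 2) F :=
  ⟨!![a, 0; 0, a⁻¹], by simp [Matrix.det_fin_two, ha]⟩

theorem dg_mul_up (a : F) (ha : a ≠ 0) (b : F) : dg a ha * up b = up (a ^ 2 * b) * dg a ha := by
  apply Subtype.ext
  show !![a, 0; 0, a⁻¹] * !![1, b; 0, 1] = !![1, a ^ 2 * b; 0, 1] * !![a, 0; 0, a⁻¹]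
  refine Matrix.ext fun i j => ?_
  fin_cases i <;> fin_cases j <;> simp
  field_simp

theorem dg_mul_lo (a : F) (ha : a ≠ 0) (b : F) :
    dg a ha * lo b = lo ((a⁻¹) ^ 2 * b) * dg a ha := by
  apply Subtype.ext
  show !![a, 0; 0, a⁻¹] * !![1, 0; b, 1] = !![1, 0; (a⁻¹) ^ 2 * b, 1] * !![a, 0; 0, a⁻¹]
  refine Matrix.ext fun i j => ?_
  fin_cases i <;> fin_cases j <;> simp
  field_simp

theorem braid_SL2 : up (1 : F) * lo (-1) * up 1 = lo (-1) * up 1 * lo (-1) := by
  apply Subtype.ext
  show !![1, 1; 0, 1] * !![1, 0; -1, 1] * !![1, 1; 0, 1] =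
    !![1, 0; -1, 1] * !![1, 1; 0, 1] * !![1, 0; -1, (1 : F)]
  refine Matrix.ext fun i j => ?_
  fin_cases i <;> fin_cases j <;> simp

theorem braid_mul_up (a : F) :
    (up (1 : F) * lo (-1) * up 1) * up a = lo (-a) * (up (1 : F) * lo (-1) * up 1) := by
  apply Subtype.ext
  show (!![1, 1; 0, 1] * !![1, 0; -1, 1] * !![1, 1; 0, 1]) * !![1, a; 0, 1] =
    !![1, 0; -a, 1] * (!![1, 1; 0, 1] * !![1, 0; -1, 1] * !![1, 1; 0, (1 : F)])
  refine Matrix.ext fun i j => ?_
  fin_cases i <;> fin_cases j <;> simp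

theorem lo_ne_commute {a : F} (ha : a ≠ 0) : lo a * up 1 ≠ up 1 * lo a := by
  intro h
  have h1 : !![1, 0; a, 1] * !![1, 1; 0, 1] = !![1, 1; 0, 1] * !![1, 0; a, (1 : F)] :=
    congrArg Subtype.val h
  have := congrFun (congrFun h1 0) 0
  simp at this
  exact ha this

theorem autSL2_aux (p : ℕ) [hp : Fact p.Prime] [CharP F p] (hp2 : p ≠ 2) [Finite F]
    (θ : SpecialLinearGroup (Fin 2) F →* SpecialLinearGroup (Fin 2) F)
    (hθ : Function.Injective θ) (h1 : θ (up 1) = up 1) (c : F) (h2 : θ (lo (-1)) = lo c) :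
    ∃ τ : F ≃+* F, ∀ x, θ x = mapSL τ x := by
  have h2ne : (2 : F) ≠ 0 := by
    have := (CharP.cast_eq_zero_iff F p 2).not.2 (by
      intro hd
      exact hp2 ((Nat.prime_dvd_prime_iff_eq hp.out Nat.prime_two).1 hd))
    exact_mod_cast this
  -- `c = -1`
  have hc : c = -1 := by
    have hb := congrArg θ (braid_SL2 (F := F))
    simp only [map_mul, h1, h2] at hb
    have hb' : !![1, 1; 0, 1] * !![1, 0; c, 1] * !![1, 1; 0, 1] =
      !![1, 0; c, 1] * !![1, 1; 0, 1] * !![1, 0; c, (1 : F)] := congrArg Subtype.val hb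
    have := congrFun (congrFun hb' 0) 1
    simp at this
    linear_combination this
  subst hc
  -- images of `up a`
  set f : F → F := fun a => (θ (up a)).1 0 1 with hf
  have hup : ∀ a, θ (up a) = up (f a) := by
    intro a
    apply eq_up_of_commute p
    · rw [← map_pow, up_pow, CharP.cast_eq_zero, zero_mul, up_zero, map_one]
    · rw [← h1, ← map_mul, ← map_mul, ← up_add, ← up_add, add_comm]
  have hf1 : f 1 = 1 := by
    apply up_injective
    rw [← hup, h1]
  have hadd : ∀ a b, f (a + b) = f a + f b := by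
    intro a b
    apply up_injective
    rw [← hup, up_add, map_mul, hup, hup, ← up_add]
  have hf0 : f 0 = 0 := by
    have := hadd 0 0
    rw [add_zero] at this
    linear_combination -this
  have hneg : ∀ a, f (-a) = - f a := by
    intro a
    have := hadd a (-a)
    rw [add_neg_cancel, hf0] at this
    linear_combination -this
  have hsub : ∀ a b, f (a - b) = f a - f b := by
    intro a b
    rw [sub_eq_add_neg, hadd, hneg, sub_eq_add_neg]
  have hlo : ∀ a, θ (lo a) = lo (f a) := by
    intro a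
    have h3 := congrArg θ (braid_mul_up (-a))
    rw [neg_neg] at h3
    have hw : θ (up (1 : F) * lo (-1) * up 1) = up (1 : F) * lo (-1) * up 1 := by
      simp only [map_mul, h1, h2]
    rw [map_mul, map_mul θ (lo a), hw, hup, hneg, braid_mul_up, neg_neg] at h3
    exact (mul_right_cancel h3).symm
  have hsq : ∀ a b, f (a ^ 2 * b) = f (a ^ 2) * f b := by
    intro a b
    by_cases ha : a = 0
    · subst ha
      simp [hf0]
    · set D := θ (dg a ha) with hD
      have e1 : ∀ b, D * up (f b) = up (f (a ^ 2 * b)) * D := by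
        intro b
        rw [← hup, ← hup, hD, ← map_mul, ← map_mul, dg_mul_up]
      have e2 : D * lo 1 = lo (f ((a⁻¹) ^ 2 * 1)) * D := by
        rw [← hlo, hD, ← map_mul, ← dg_mul_lo, map_mul, hlo, hf1]
      have e1' : ∀ b, D.1 * !![1, f b; 0, 1] = !![1, f (a ^ 2 * b); 0, 1] * D.1 :=
        fun b => congrArg Subtype.val (e1 b)
      have e2' : D.1 * !![1, 0; 1, 1] = !![1, 0; f ((a⁻¹) ^ 2 * 1), 1] * D.1 :=
        congrArg Subtype.val e2
      have z1 : D.1 1 0 = 0 := by
        have := congrFun (congrFun (e1' 1) 1) 1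
        rw [hf1] at this
        simpa [Matrix.mul_apply, Fin.sum_univ_two] using this
      have y1 : D.1 0 1 = 0 := by
        have := congrFun (congrFun e2' 0) 0
        simpa [Matrix.mul_apply, Fin.sum_univ_two] using this
      have hdet : D.1 0 0 * D.1 1 1 = 1 := by
        have := D.2
        rw [Matrix.det_fin_two, z1, y1] at this
        linear_combination this
      have key : ∀ b, f (a ^ 2 * b) = D.1 0 0 ^ 2 * f b := by
        intro b
        have := congrFun (congrFun (e1' b) 0) 1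
        simp [Matrix.mul_apply, Fin.sum_univ_two, y1] at this
        have h5 : D.1 0 0 * (D.1 0 0 * f b) = D.1 0 0 * (f (a ^ 2 * b) * D.1 1 1) := by
          rw [this]
        calc f (a ^ 2 * b) = f (a ^ 2 * b) * (D.1 0 0 * D.1 1 1) := by rw [hdet, mul_one]
          _ = D.1 0 0 * (f (a ^ 2 * b) * D.1 1 1) := by ring
          _ = D.1 0 0 * (D.1 0 0 * f b) := h5.symm
          _ = D.1 0 0 ^ 2 * f b := by ring
      have h6 := key 1
      rw [mul_one, hf1, mul_one] at h6
      rw [key b, h6]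
  have hmul : ∀ y b, f (y * b) = f y * f b := by
    intro y b
    have hy : y = ((y + 1) / 2) ^ 2 - ((y - 1) / 2) ^ 2 := by
      field_simp
      ring
    have h3 : f (y * b) = f (((y + 1) / 2) ^ 2 * b) - f (((y - 1) / 2) ^ 2 * b) := by
      rw [← hsub, ← sub_mul, ← hy]
    have h4 : f y = f (((y + 1) / 2) ^ 2) - f (((y - 1) / 2) ^ 2) := by
      rw [← hsub, ← hy]
    rw [h3, h4, hsq, hsq]
    ring
  let g : F →+* F := ⟨⟨⟨f, hf1⟩, hmul⟩, hf0, hadd⟩
  have hg : Function.Bijective g := Finite.injective_iff_bijective.1 g.injective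
  refine ⟨RingEquiv.ofBijective g hg, ?_⟩
  refine SL2_induction _ ?_ ?_ ?_
  · intro a
    rw [hup]
    apply Subtype.ext
    rw [mapSL_val, up_val, up_val]
    refine Matrix.ext fun i j => ?_
    fin_cases i <;> fin_cases j <;> first | (simp; done) | (simp; rfl)
  · intro a
    rw [hlo]
    apply Subtype.ext
    rw [mapSL_val, lo_val, lo_val]
    refine Matrix.ext fun i j => ?_
    fin_cases i <;> fin_cases j <;> first | (simp; done) | (simp; rfl)
  · intro A B hA hB
    rw [map_mul, map_mul, hA, hB]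

/-- **Automorphisms of `SL(2, F)`**, `F` a finite field of odd characteristic: every injective
endomorphism is the composition of a conjugation by `GL(2, F)` and a field automorphism. -/
theorem autSL2 (p : ℕ) [hp : Fact p.Prime] [CharP F p] (hp2 : p ≠ 2) [Finite F]
    (θ : SpecialLinearGroup (Fin 2) F →* SpecialLinearGroup (Fin 2) F)
    (hθ : Function.Injective θ) :
    ∃ (g : GL (Fin 2) F) (τ : F ≃+* F), ∀ x, conjSL g (θ x) = mapSL τ x := by
  -- first conjugation
  have hA : θ (up 1) ^ p = 1 := by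
    rw [← map_pow, up_pow, CharP.cast_eq_zero, zero_mul, up_zero, map_one]
  have hA1 : θ (up 1) ≠ 1 := by
    intro h
    have := hθ (h.trans (map_one θ).symm)
    have := up_injective (this.trans up_zero.symm)
    exact one_ne_zero this
  obtain ⟨P, hP, hPe⟩ := exists_conj_up p hA hA1
  set g1 : GL (Fin 2) F := (toGL P hP)⁻¹ with hg1
  have hg1A : conjSL g1 (θ (up 1)) = up 1 := by
    have : conjSL (toGL P hP) (up 1) = θ (up 1) := by
      rw [conjSL_eq_iff]
      exact hPe.symm
    rw [← this, hg1, conjSL_inv_conjSL]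
  set θ1 : SpecialLinearGroup (Fin 2) F →* SpecialLinearGroup (Fin 2) F :=
    (conjSL g1).toMonoidHom.comp θ with hθ1
  have hθ1i : Function.Injective θ1 := (conjSL g1).injective.comp hθ
  have h11 : θ1 (up 1) = up 1 := hg1A
  -- the image of `lo (-1)`
  set B := θ1 (lo (-1)) with hB
  have hBp : B ^ p = 1 := by
    rw [hB, ← map_pow, lo_pow, CharP.cast_eq_zero, zero_mul, lo_zero, map_one]
  have hBn : IsNilpotent (B.1 - 1) := ⟨p, sub_one_pow_char p (congrArg Subtype.val hBp)⟩
  obtain ⟨e1, e2⟩ := sq_eq_zero_of_nilpotent hBn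
  simp only [Matrix.sub_apply, Matrix.one_apply_eq, Fin.isValue, ne_eq, zero_ne_one,
    not_false_eq_true, Matrix.one_apply_ne, sub_zero, one_ne_zero] at e1 e2
  have hc0 : B.1 1 0 ≠ 0 := by
    intro hc0
    rw [hc0, mul_zero, add_zero] at e2
    have ha0 : B.1 0 0 = 1 := sub_eq_zero.1 (mul_self_eq_zero.1 e2)
    have h11' : B.1 1 1 = 1 := by linear_combination e1 - ha0
    have hBe : B = up (B.1 0 1) := by
      apply Subtype.ext
      rw [up_val]
      refine Matrix.ext fun i j => ?_
      fin_cases i <;> fin_cases j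
      · simpa using ha0
      · simp
      · simpa using hc0
      · simpa using h11'
    have : θ1 (lo (-1) * up 1) = θ1 (up 1 * lo (-1)) := by
      rw [map_mul, map_mul, h11, ← hB, hBe, ← up_add, ← up_add, add_comm]
    exact lo_ne_commute (neg_ne_zero.2 one_ne_zero) (hθ1i this)
  set t : F := - (B.1 0 0 - 1) / B.1 1 0 with ht
  set θ2 : SpecialLinearGroup (Fin 2) F →* SpecialLinearGroup (Fin 2) F :=
    (conjSL (slGL (up t))).toMonoidHom.comp θ1 with hθ2
  have hθ2i : Function.Injective θ2 := (conjSL (slGL (up t))).injective.comp hθ1i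
  have h21 : θ2 (up 1) = up 1 := by
    show conjSL (slGL (up t)) (θ1 (up 1)) = up 1
    rw [h11, conjSL_slGL, ← up_add, add_comm, up_add, mul_inv_cancel_right]
  have h22 : θ2 (lo (-1)) = lo (B.1 1 0) := by
    show conjSL (slGL (up t)) B = _
    rw [conjSL_eq_iff]
    show !![1, t; 0, 1] * B.1 = !![1, 0; B.1 1 0, 1] * !![1, t; 0, 1]
    have e3 : B.1 0 0 - 1 = - (t * B.1 1 0) := by
      rw [ht]; field_simp
    have e4 : B.1 0 1 = - t ^ 2 * B.1 1 0 := by
      have : B.1 1 0 * (B.1 0 1 + t ^ 2 * B.1 1 0) = 0 := by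
        rw [e3] at e2
        linear_combination e2
      rcases mul_eq_zero.1 this with h | h
      · exact absurd h hc0
      · linear_combination h
    have e5 : B.1 0 0 = 1 - t * B.1 1 0 := by linear_combination e3
    have e6 : B.1 1 1 = 1 + t * B.1 1 0 := by
      rw [e3] at e1
      linear_combination e1
    refine Matrix.ext fun i j => ?_
    fin_cases i <;> fin_cases j
    · simp [Matrix.mul_apply, Fin.sum_univ_two, e5]
    · simp [Matrix.mul_apply, Fin.sum_univ_two, e4, e6]; ring
    · simp [Matrix.mul_apply, Fin.sum_univ_two]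
    · simp [Matrix.mul_apply, Fin.sum_univ_two, e6]; ring
  obtain ⟨τ, hτ⟩ := autSL2_aux p hp2 θ2 hθ2i h21 _ h22
  refine ⟨slGL (up t) * g1, τ, ?_⟩
  intro x
  rw [conjSL_mul_apply]
  exact hτ x

end Two

end Pool.Agent.Lib.MP_ca8614_al
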