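import Pool.Agent.Lib.MP_ca8614_al.NotIso

set_option autoImplicit false

open Matrix

namespace Pool.Agent.Lib.MP_ca8614_al

/-! ### Auxiliary facts -/

theorem bijective_of_injective_finite {G : Type} [Group G] [Finite G] (ψ : G →* G)
    (h : Function.Injective ψ) : Function.Bijective ψ :=
  ⟨h, Finite.surjective_of_injective h⟩

theorem injective_of_ne_one {H G : Type} [Group H] [Group G] [IsSimpleGroup H] (f : H →* G)
    (h : f ≠ 1) : Function.Injective f := by
  rcases IsSimpleGroup.eq_bot_or_eq_top_of_normal f.ker f.normal_ker with h1 | h1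
  · exact (MonoidHom.ker_eq_bot_iff f).1 h1
  · exfalso
    apply h
    ext x
    have : x ∈ f.ker := by rw [h1]; exact Subgroup.mem_top x
    exact MonoidHom.mem_ker.1 this

theorem isEnvelope_of_isLocalizationHom {H G : Type} [Group H] [Group G]
    (hH : IsNonabelianFiniteSimple H) (hG : IsNonabelianFiniteSimple G) (φ : H →* G)
    (hφ : IsLocalizationHom φ) : IsEnvelope φ := by
  obtain ⟨-, hHs, -⟩ := hH
  obtain ⟨hGf, hGs, -⟩ := hG
  have hne : φ ≠ 1 := by
    intro h1
    obtain ⟨ψ, -, hu⟩ := hφ φ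
    have e1 := hu (MonoidHom.id G) (MonoidHom.id_comp φ).symm
    have e2 := hu 1 (by
      show φ = MonoidHom.comp 1 φ
      rw [h1]
      rfl)
    have e3 : MonoidHom.id G = 1 := e1.trans e2.symm
    obtain ⟨x, hx⟩ := exists_ne (1 : G)
    exact hx (congrArg (fun f : G →* G => f x) e3)
  refine isEnvelope_of_rigid φ (injective_of_ne_one φ hne) ?_
  intro ψ hψ
  obtain ⟨θ, hθ, -⟩ := hφ ψ
  have hθ1 : θ ≠ 1 := by
    intro h1
    obtain ⟨x, hx⟩ := exists_ne (1 : H)
    apply hx
    apply hψ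
    rw [map_one]
    have hθ' : ψ = θ.comp φ := hθ
    rw [hθ', h1, MonoidHom.one_comp]
    rfl
  refine ⟨MulEquiv.ofBijective θ (bijective_of_injective_finite θ (injective_of_ne_one θ hθ1)), ?_⟩
  intro h
  have hθ' : ψ = θ.comp φ := hθ
  rw [hθ']
  rfl

theorem isEnvelope_equiv {H G : Type} [Group H] [Group G] [Finite G] (e : H ≃* G) :
    IsEnvelope e.toMonoidHom := by
  refine isEnvelope_of_rigid _ e.injective ?_
  intro ψ hψ
  refine ⟨MulEquiv.ofBijective (ψ.comp e.symm.toMonoidHom)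
    (bijective_of_injective_finite _ (hψ.comp e.symm.injective)), ?_⟩
  intro h
  show ψ h = ψ (e.symm (e h))
  rw [MulEquiv.symm_apply_apply]

theorem SameRigidComponent.weak {A B : NFSG} (h : SameRigidComponent A B) :
    SameWeakRigidComponent A B := by
  induction h with
  | refl => exact Relation.ReflTransGen.refl
  | @tail B C _ hbc ih =>
    refine Relation.ReflTransGen.tail ih ?_
    rcases hbc with ⟨φ, hφ⟩ | ⟨φ, hφ⟩
    · exact Or.inl ⟨φ, isEnvelope_of_isLocalizationHom B.isNFS C.isNFS φ hφ⟩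
    · exact Or.inr ⟨φ, isEnvelope_of_isLocalizationHom C.isNFS B.isNFS φ hφ⟩

theorem SameWeakRigidComponent.symm {A B : NFSG} (h : SameWeakRigidComponent A B) :
    SameWeakRigidComponent B A := by
  induction h with
  | refl => exact Relation.ReflTransGen.refl
  | tail _ hbc ih =>
    refine Relation.ReflTransGen.head ?_ ih
    rcases hbc with h | h
    · exact Or.inr h
    · exact Or.inl h

/-- `PSp(4, F)` and `PSL(4, F)` are non-abelian finite simple groups. -/
theorem nfs (p c : ℕ) (hp : p.Prime) (hp2 : p ≠ 2) (F : Type) [Field F] [Finite F]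
    (hc : 0 < c) (hF : Nat.card F = p ^ 2 ^ c) : IsNonabelianFiniteSimple (PSpFour F) ∧
      IsNonabelianFiniteSimple (PSLFour F) := by
  show IsNonabelianFiniteSimple (PSp4 F) ∧
      IsNonabelianFiniteSimple (ProjectiveSpecialLinearGroup Ix F)
  have _ : Fact p.Prime := ⟨hp⟩
  have hchar : CharP F p := charP_of_card p _ hp hF
  have h2 : (2 : F) ≠ 0 := two_ne_zero_of_char p hp2
  have h4 : 4 ≤ Nat.card F := by
    rw [hF]
    have h3 : 3 ≤ p := by
      have := hp.two_le
      omega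
    have h5 : 2 ≤ 2 ^ c := by
      calc 2 = 2 ^ 1 := by norm_num
        _ ≤ 2 ^ c := Nat.pow_le_pow_right (by norm_num) hc
    calc 4 ≤ 3 ^ 2 := by norm_num
      _ ≤ p ^ 2 := Nat.pow_le_pow_left h3 2
      _ ≤ p ^ 2 ^ c := Nat.pow_le_pow_right (by omega) h5
  obtain ⟨a, b, hab⟩ := PSp4_noncomm h2
  have hnt : Nontrivial Ix := ⟨Sum.inl 0, Sum.inl 1, by decide⟩
  have h3 : ∀ i j : Ix, ∃ k, i ≠ k ∧ k ≠ j := by decide
  refine ⟨⟨inferInstance, isSimpleGroup_PSp4 h2 (exists_sq_ne_one h4), a, b, hab⟩,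
    ⟨inferInstance, isSimpleGroup_PSL h3, pspMap p hp2 a, pspMap p hp2 b, ?_⟩⟩
  · intro h
    apply hab
    apply pspMap_injective p hp2
    rw [map_mul, map_mul, h]

theorem main_envelope (p c : ℕ) (hp : p.Prime) (hp2 : p ≠ 2) (hc : 0 < c) (F : Type) [Field F]
    [Finite F] (hF : Nat.card F = p ^ (2 ^ c)) :
    ∃ φ : PSpFour F →* PSLFour F, IsInducedByInclusion φ ∧ IsEnvelope φ :=
  envelope p c hp hp2 hc hF

end Pool.Agent.Lib.MP_ca8614_al
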