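import Mathlib

set_option autoImplicit false

open Matrix

namespace Pool.Agent.Lib.MP_ca8614_al

section

variable {n : Type*} [DecidableEq n] [Fintype n] {F : Type*} [Field F]

/-- Conjugation by an invertible matrix as an automorphism of the special linear group. -/
def conjSL (g : GL n F) : SpecialLinearGroup n F ≃* SpecialLinearGroup n F where
  toFun A := ⟨g.1 * A.1 * g⁻¹.1, by
    rw [det_mul, det_mul, A.2, mul_one, ← det_mul]
    have h : g.1 * g⁻¹.1 = 1 := by
      have := congrArg Units.val (mul_inv_cancel g)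
      simpa using this
    rw [h, det_one]⟩
  invFun A := ⟨g⁻¹.1 * A.1 * g.1, by
    rw [det_mul, det_mul, A.2, mul_one, ← det_mul]
    have h : g⁻¹.1 * g.1 = 1 := by
      have := congrArg Units.val (inv_mul_cancel g)
      simpa using this
    rw [h, det_one]⟩
  left_inv A := by
    apply Subtype.ext
    have h : g⁻¹.1 * g.1 = 1 := by
      have := congrArg Units.val (inv_mul_cancel g)
      simpa using this
    show g⁻¹.1 * (g.1 * A.1 * g⁻¹.1) * g.1 = A.1
    calc g⁻¹.1 * (g.1 * A.1 * g⁻¹.1) * g.1 = (g⁻¹.1 * g.1) * A.1 * (g⁻¹.1 * g.1) := by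
          simp only [Matrix.mul_assoc]
      _ = A.1 := by rw [h, Matrix.one_mul, Matrix.mul_one]
  right_inv A := by
    apply Subtype.ext
    have h : g.1 * g⁻¹.1 = 1 := by
      have := congrArg Units.val (mul_inv_cancel g)
      simpa using this
    show g.1 * (g⁻¹.1 * A.1 * g.1) * g⁻¹.1 = A.1
    calc g.1 * (g⁻¹.1 * A.1 * g.1) * g⁻¹.1 = (g.1 * g⁻¹.1) * A.1 * (g.1 * g⁻¹.1) := by
          simp only [Matrix.mul_assoc]
      _ = A.1 := by rw [h, Matrix.one_mul, Matrix.mul_one]
  map_mul' A B := by
    apply Subtype.ext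
    have h : g⁻¹.1 * g.1 = 1 := by
      have := congrArg Units.val (inv_mul_cancel g)
      simpa using this
    show g.1 * (A.1 * B.1) * g⁻¹.1 = (g.1 * A.1 * g⁻¹.1) * (g.1 * B.1 * g⁻¹.1)
    calc g.1 * (A.1 * B.1) * g⁻¹.1 = g.1 * A.1 * 1 * B.1 * g⁻¹.1 := by
          simp only [Matrix.mul_assoc, Matrix.one_mul]
      _ = (g.1 * A.1 * g⁻¹.1) * (g.1 * B.1 * g⁻¹.1) := by
          rw [← h]; simp only [Matrix.mul_assoc]

theorem conjSL_val (g : GL n F) (A : SpecialLinearGroup n F) :
    (conjSL g A).1 = g.1 * A.1 * g⁻¹.1 := rfl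

/-- The automorphism of the special linear group induced by a field automorphism. -/
def mapSL (τ : F ≃+* F) : SpecialLinearGroup n F ≃* SpecialLinearGroup n F where
  toFun := SpecialLinearGroup.map (τ : F →+* F)
  invFun := SpecialLinearGroup.map (τ.symm : F →+* F)
  left_inv A := by
    apply Subtype.ext
    refine Matrix.ext fun i j => ?_
    simp
  right_inv A := by
    apply Subtype.ext
    refine Matrix.ext fun i j => ?_
    simp
  map_mul' := map_mul _

theorem mapSL_val (τ : F ≃+* F) (A : SpecialLinearGroup n F) :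
    (mapSL τ A).1 = A.1.map τ := rfl

/-- An invertible matrix from a matrix with nonzero determinant. -/
noncomputable def toGL (P : Matrix n n F) (h : P.det ≠ 0) : GL n F :=
  GeneralLinearGroup.mkOfDetNeZero P h

theorem toGL_val (P : Matrix n n F) (h : P.det ≠ 0) : (toGL P h).1 = P := rfl

theorem conjSL_val_mul (g : GL n F) (A : SpecialLinearGroup n F) :
    (conjSL g A).1 * g.1 = g.1 * A.1 := by
  have h : g⁻¹.1 * g.1 = 1 := by
    have := congrArg Units.val (inv_mul_cancel g)
    simpa using this
  rw [conjSL_val, Matrix.mul_assoc, h, Matrix.mul_one]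

theorem conjSL_eq_iff (g : GL n F) (A B : SpecialLinearGroup n F) :
    conjSL g A = B ↔ g.1 * A.1 = B.1 * g.1 := by
  constructor
  · rintro rfl
    exact (conjSL_val_mul g A).symm
  · intro h
    apply Subtype.ext
    have h' : g.1 * g⁻¹.1 = 1 := by
      have := congrArg Units.val (mul_inv_cancel g)
      simpa using this
    rw [conjSL_val, h, Matrix.mul_assoc, h', Matrix.mul_one]

/-- The automorphism induced on the projective special linear group. -/
def projAut (β : SpecialLinearGroup n F ≃* SpecialLinearGroup n F) :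
    ProjectiveSpecialLinearGroup n F ≃* ProjectiveSpecialLinearGroup n F :=
  QuotientGroup.congr _ _ β (by
    ext x
    constructor
    · rintro ⟨y, hy, rfl⟩
      rw [SetLike.mem_coe, Subgroup.mem_center_iff] at hy
      rw [Subgroup.mem_center_iff]
      intro g
      have := congrArg β (hy (β.symm g))
      simpa using this
    · intro hx
      refine ⟨β.symm x, ?_, by simp⟩
      rw [SetLike.mem_coe, Subgroup.mem_center_iff]
      rw [Subgroup.mem_center_iff] at hx
      intro g
      have := congrArg β.symm (hx (β g))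
      simpa using this)

theorem projAut_mk (β : SpecialLinearGroup n F ≃* SpecialLinearGroup n F)
    (A : SpecialLinearGroup n F) :
    projAut β (QuotientGroup.mk A) = QuotientGroup.mk (β A) := rfl

end

end Pool.Agent.Lib.MP_ca8614_al
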