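import Mathlib

set_option autoImplicit false

open Matrix

namespace Pool.Agent.Lib.MP_ca8614_al

/-- **Envelope** (between non-abelian finite simple groups): an injective homomorphism
`φ : H → G` such that every automorphism of the image extends to an automorphism of `G`, and every
subgroup of `G` isomorphic to `H` is mapped onto the image by an automorphism of `G`. -/
def IsEnvelope {H G : Type*} [Group H] [Group G] (φ : H →* G) : Prop :=
  Function.Injective φ ∧
  (∀ α : φ.range ≃* φ.range, ∃ β : G ≃* G, ∀ x : φ.range, β x = α x) ∧
  (∀ K : Subgroup G, Nonempty (K ≃* H) → ∃ β : G ≃* G, K.map β.toMonoidHom = φ.range)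

/-- A non-abelian finite simple group. -/
def IsNonabelianFiniteSimple (G : Type) [Group G] : Prop :=
  Finite G ∧ IsSimpleGroup G ∧ ∃ a b : G, a * b ≠ b * a

/-- The collection of all non-abelian finite simple groups. -/
structure NFSG where
  /-- the underlying set -/
  carrier : Type
  /-- the group structure -/
  [grp : Group carrier]
  /-- the group is a non-abelian finite simple group -/
  isNFS : IsNonabelianFiniteSimple carrier

attribute [instance] NFSG.grp

/-- A **localization**: every homomorphism `H → G` factors as `ψ ∘ φ` for a unique endomorphism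
`ψ` of `G`. -/
def IsLocalizationHom {H G : Type} [Group H] [Group G] (φ : H →* G) : Prop :=
  ∀ f : H →* G, ∃! ψ : G →* G, f = ψ.comp φ

/-- `A` and `B` lie in the same **weak rigid component**: they are joined by a finite zig-zag of
envelopes between non-abelian finite simple groups. -/
def SameWeakRigidComponent : NFSG → NFSG → Prop :=
  Relation.ReflTransGen fun A B : NFSG =>
    (∃ φ : A.carrier →* B.carrier, IsEnvelope φ) ∨ (∃ φ : B.carrier →* A.carrier, IsEnvelope φ)

/-- `A` and `B` lie in the same **rigid component**: they are joined by a finite zig-zag of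
localizations between non-abelian finite simple groups. -/
def SameRigidComponent : NFSG → NFSG → Prop :=
  Relation.ReflTransGen fun A B : NFSG =>
    (∃ φ : A.carrier →* B.carrier, IsLocalizationHom φ) ∨
      (∃ φ : B.carrier →* A.carrier, IsLocalizationHom φ)

/-- `PSp(4, F)`: the symplectic group `Sp(4, F)` modulo its centre. -/
def PSpFour (F : Type) [Field F] : Type :=
  symplecticGroup (Fin 2) F ⧸ Subgroup.center (symplecticGroup (Fin 2) F)

instance PSpFour.instGroup (F : Type) [Field F] : Group (PSpFour F) :=
  QuotientGroup.Quotient.group (Subgroup.center (symplecticGroup (Fin 2) F))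

/-- `PSL(4, F)`: the group `SL(4, F)` modulo its centre (the four rows and columns are indexed by
`Fin 2 ⊕ Fin 2`, as those of the matrices in `Sp(4, F)`). -/
def PSLFour (F : Type) [Field F] : Type :=
  SpecialLinearGroup (Fin 2 ⊕ Fin 2) F ⧸ Subgroup.center (SpecialLinearGroup (Fin 2 ⊕ Fin 2) F)

instance PSLFour.instGroup (F : Type) [Field F] : Group (PSLFour F) :=
  QuotientGroup.Quotient.group (Subgroup.center (SpecialLinearGroup (Fin 2 ⊕ Fin 2) F))

/-- the class in `PSp(4, F)` of a symplectic matrix -/
def PSpFour.mk {F : Type} [Field F] (A : symplecticGroup (Fin 2) F) : PSpFour F :=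
  QuotientGroup.mk A

/-- the class in `PSL(4, F)` of a matrix of determinant one -/
def PSLFour.mk {F : Type} [Field F] (A : SpecialLinearGroup (Fin 2 ⊕ Fin 2) F) : PSLFour F :=
  QuotientGroup.mk A

/-- The homomorphism `φ : PSp(4, F) → PSL(4, F)` is induced by the inclusion of `Sp(4, F)` in
`SL(4, F)`: it maps the class of a symplectic matrix `A` to the class of `A`. -/
def IsInducedByInclusion {F : Type} [Field F] (φ : PSpFour F →* PSLFour F) : Prop :=
  ∀ A : symplecticGroup (Fin 2) F,
    φ (PSpFour.mk A) = PSLFour.mk ⟨A.1, SymplecticGroup.det_eq_one A.2⟩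

/-- The exceptional groups of the Parker–Saxl theorem: the group is isomorphic to
`PSp(4, K)` for a field `K` with `s ^ (2 ^ d)` elements, `s` an odd prime and `d > 0`. -/
def IsExceptional (G : Type) [Group G] : Prop :=
  ∃ (s d : ℕ) (K : Type) (_ : Field K), s.Prime ∧ s ≠ 2 ∧ 0 < d ∧ Nat.card K = s ^ 2 ^ d ∧
    Nonempty (G ≃* PSpFour K)

end Pool.Agent.Lib.MP_ca8614_al
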