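import Pool.Agent.Lib.MP_ca8614_al.Transfer
import Pool.Agent.Lib.MP_ca8614_al.Defs

set_option autoImplicit false

open Matrix

namespace Pool.Agent.Lib.MP_ca8614_al

/-- An injective homomorphism is an envelope if it is unique up to automorphisms of `G`. -/
theorem isEnvelope_of_rigid {H G : Type*} [Group H] [Group G] (φ : H →* G)
    (hφ : Function.Injective φ)
    (hr : ∀ ψ : H →* G, Function.Injective ψ → ∃ γ : G ≃* G, ∀ h, ψ h = γ (φ h)) :
    IsEnvelope φ := by
  refine ⟨hφ, ?_, ?_⟩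
  · intro α
    obtain ⟨γ, hγ⟩ := hr (φ.range.subtype.comp (α.toMonoidHom.comp φ.rangeRestrict))
      (φ.range.subtype_injective.comp (α.injective.comp
        ((MonoidHom.rangeRestrict_injective_iff).2 hφ)))
    refine ⟨γ, ?_⟩
    rintro ⟨_, h, rfl⟩
    exact (hγ h).symm
  · rintro K ⟨κ⟩
    obtain ⟨γ, hγ⟩ := hr (K.subtype.comp κ.symm.toMonoidHom)
      (K.subtype_injective.comp κ.symm.injective)
    refine ⟨γ.symm, ?_⟩
    ext x
    constructor
    · rintro ⟨k, hk, rfl⟩
      refine ⟨κ ⟨k, hk⟩, ?_⟩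
      have h := hγ (κ ⟨k, hk⟩)
      have h' : (K.subtype.comp κ.symm.toMonoidHom) (κ ⟨k, hk⟩) = k := by
        show ((κ.symm (κ ⟨k, hk⟩) : K) : G) = k
        rw [MulEquiv.symm_apply_apply]
      rw [h'] at h
      show φ (κ ⟨k, hk⟩) = γ.symm k
      have h2 := congrArg γ.symm h
      rw [MulEquiv.symm_apply_apply] at h2
      exact h2.symm
    · rintro ⟨h, rfl⟩
      refine ⟨(κ.symm h : K), (κ.symm h).2, ?_⟩
      show γ.symm ((κ.symm h : K) : G) = φ h
      have h1 : ((κ.symm h : K) : G) = γ (φ h) := hγ h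
      rw [h1, MulEquiv.symm_apply_apply]

variable {F : Type*} [Field F]

/-- The projective symplectic group `PSp(4, F)`: the symplectic group modulo its centre. -/
abbrev PSp4 (F : Type*) [Field F] : Type _ :=
  symplecticGroup (Fin 2) F ⧸ Subgroup.center (symplecticGroup (Fin 2) F)

theorem incl_center (p : ℕ) [Fact p.Prime] [CharP F p] (hp2 : p ≠ 2) :
    Subgroup.center (symplecticGroup (Fin 2) F) ≤
    (Subgroup.center (SpecialLinearGroup Ix F)).comap (incl F) := by
  have h2 : (2 : F) ≠ 0 := two_ne_zero_of_char p hp2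
  intro A hA
  rw [Subgroup.mem_comap, Subgroup.mem_center_iff]
  intro B
  obtain ⟨B', rfl⟩ := (rho F).symm.surjective B
  have h : rho F (incl F A) * B' = B' * rho F (incl F A) := by
    apply Subtype.ext
    show (rho F (incl F A)).1 * B'.1 = B'.1 * (rho F (incl F A)).1
    rcases central_Sp h2 A hA with h | h
    · rw [eSp_val] at h
      rw [h, Matrix.one_mul, Matrix.mul_one]
    · rw [eSp_val] at h
      rw [h, Matrix.neg_mul, Matrix.mul_neg, Matrix.one_mul, Matrix.mul_one]
  have h' := congrArg (rho F).symm h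
  rw [map_mul, map_mul, MulEquiv.symm_apply_apply] at h'
  exact h'.symm

/-- The homomorphism induced by the inclusion. -/
noncomputable def pspMap (p : ℕ) [Fact p.Prime] [CharP F p] (hp2 : p ≠ 2) :
    PSp4 F →* ProjectiveSpecialLinearGroup Ix F :=
  QuotientGroup.map _ _ (incl F) (incl_center p hp2)

theorem pspMap_mk (p : ℕ) [Fact p.Prime] [CharP F p] (hp2 : p ≠ 2)
    (A : symplecticGroup (Fin 2) F) :
    pspMap p hp2 (QuotientGroup.mk A) = mk4 (incl F A) := rfl

theorem pspMap_injective (p : ℕ) [Fact p.Prime] [CharP F p] (hp2 : p ≠ 2) :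
    Function.Injective (pspMap (F := F) p hp2) := by
  rw [injective_iff_map_eq_one]
  intro x hx
  obtain ⟨A, rfl⟩ := QuotientGroup.mk_surjective x
  rw [pspMap_mk, mk4_eq_one_iff] at hx
  obtain ⟨r, -, hr⟩ := hx
  rw [QuotientGroup.eq_one_iff, Subgroup.mem_center_iff]
  intro B
  apply Subtype.ext
  show B.1 * A.1 = A.1 * B.1
  have : A.1 = r • (1 : Matrix Ix Ix F) := hr
  rw [this, Matrix.mul_smul, Matrix.smul_mul, Matrix.mul_one, Matrix.one_mul]

/-- If fourth roots of unity are squares (for example if `8` divides `|F| - 1`), the inclusion of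
`PSp(4, F)` in `PSL(4, F)` is an envelope. -/
theorem envelope_of_sq (p : ℕ) [hp : Fact p.Prime] [CharP F p] (hp2 : p ≠ 2) [Finite F]
    (hq : ∀ r : F, r ^ 4 = 1 → ∃ ζ, ζ ^ 2 = r) : IsEnvelope (pspMap (F := F) p hp2) := by
  apply isEnvelope_of_rigid _ (pspMap_injective p hp2)
  intro ψ hψ
  have h2 : (2 : F) ≠ 0 := two_ne_zero_of_char p hp2
  set Ψ : SpB F →* ProjectiveSpecialLinearGroup Ix F :=
    (ψ.comp (QuotientGroup.mk' _)).comp (eSp F).symm.toMonoidHom with hΨ
  have hΨe : ∀ A, Ψ (eSp F A) = ψ (QuotientGroup.mk A) := by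
    intro A
    show ψ (QuotientGroup.mk ((eSp F).symm (eSp F A))) = _
    rw [MulEquiv.symm_apply_apply]
  obtain ⟨β, hβ⟩ := rigid p hp2 hq Ψ
    (by
      intro g hg
      obtain ⟨A, rfl⟩ := (eSp F).surjective g
      rw [hΨe] at hg
      have h3 : (QuotientGroup.mk A : PSp4 F) = 1 := hψ (hg.trans (map_one ψ).symm)
      rw [QuotientGroup.eq_one_iff] at h3
      exact central_Sp h2 A h3)
    (by
      obtain ⟨A, hA⟩ := (eSp F).surjective (B1 F negI * B2 F negI)
      rw [← hA, hΨe]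
      have h3 : (QuotientGroup.mk A : PSp4 F) = 1 := by
        rw [QuotientGroup.eq_one_iff, Subgroup.mem_center_iff]
        intro B
        apply (eSp F).injective
        rw [map_mul, map_mul, hA]
        apply Subtype.ext
        apply Subtype.ext
        have h4 : (B1 F negI * B2 F negI).1.1 = -1 := by
          show (blk1 negI).1 * (blk2 negI).1 = -1
          rw [blk1_val, blk2_val, negI_val, fromBlocks_multiply, ← fromBlocks_one,
            fromBlocks_neg]
          simp
        show (eSp F B).1.1 * (B1 F negI * B2 F negI).1.1 =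
          (B1 F negI * B2 F negI).1.1 * (eSp F B).1.1
        rw [h4, Matrix.mul_neg, Matrix.neg_mul, Matrix.mul_one, Matrix.one_mul]
      rw [h3, map_one])
  refine ⟨(projAut (rho F)).trans β.symm, ?_⟩
  intro x
  obtain ⟨A, rfl⟩ := QuotientGroup.mk_surjective x
  have h3 := hβ (eSp F A)
  rw [hΨe] at h3
  show ψ (QuotientGroup.mk A) = β.symm (projAut (rho F) (pspMap p hp2 (QuotientGroup.mk A)))
  rw [pspMap_mk]
  show ψ (QuotientGroup.mk A) = β.symm (mk4 (rho F (incl F A)))
  rw [← eSp_val, ← h3, MulEquiv.symm_apply_apply]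

/-- In a finite field whose order is `p ^ (2 ^ c)`, `p` an odd prime and `c > 0`, all fourth roots
of unity are squares. -/
theorem sq_of_card (p c : ℕ) (hp : p.Prime) (hp2 : p ≠ 2) (hc : 0 < c) [Finite F]
    (hF : Nat.card F = p ^ (2 ^ c)) (r : F) (hr : r ^ 4 = 1) : ∃ ζ, ζ ^ 2 = r := by
  classical
  have _ := Fintype.ofFinite F
  have hcard : Fintype.card F = p ^ (2 ^ c) := by rw [← hF, Nat.card_eq_fintype_card]
  have hr0 : r ≠ 0 := by
    intro h
    rw [h] at hr
    simp at hr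
  have hodd : Odd p := hp.odd_of_ne_two hp2
  -- `8` divides `|F| - 1`
  obtain ⟨d, rfl⟩ : ∃ d, c = d + 1 := ⟨c - 1, by omega⟩
  set m := p ^ (2 ^ d) with hm
  have hmodd : Odd m := hodd.pow
  have hq2 : Fintype.card F = m * m := by
    rw [hcard, hm, pow_succ, mul_comm (2 ^ d) 2, two_mul, pow_add]
  have h8 : ∃ k, m * m = 8 * k + 1 := by
    obtain ⟨j, hj⟩ := hmodd
    obtain ⟨i, hi⟩ := Nat.even_mul_succ_self j
    refine ⟨i, ?_⟩
    rw [hj]
    have : (2 * j + 1) * (2 * j + 1) = 4 * (j * (j + 1)) + 1 := by ring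
    rw [this, hi]
    ring
  obtain ⟨k, hk⟩ := h8
  have hchar : ringChar F ≠ 2 := by
    intro h2
    have := FiniteField.even_card_of_char_two h2
    rw [hq2, hk] at this
    omega
  have hsq : IsSquare r := by
    rw [FiniteField.isSquare_iff hchar hr0]
    have : Fintype.card F / 2 = 4 * k := by rw [hq2, hk]; omega
    rw [this, pow_mul, hr, one_pow]
  obtain ⟨z, hz⟩ := hsq
  exact ⟨z, by rw [hz, sq]⟩

theorem charP_of_card (p k : ℕ) (hp : p.Prime) [Finite F] (hF : Nat.card F = p ^ k) :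
    CharP F p := by
  have _ := Fintype.ofFinite F
  obtain ⟨p', hchar⟩ := CharP.exists F
  obtain ⟨n, hp', hn⟩ := FiniteField.card F p'
  rw [← Nat.card_eq_fintype_card, hF] at hn
  have h1 : p' ∣ p ^ k := by
    rw [hn]; exact dvd_pow_self _ n.ne_zero
  have h2 : p' = p := (Nat.prime_dvd_prime_iff_eq hp' hp).1 (hp'.dvd_of_dvd_pow h1)
  rwa [h2] at hchar

/-- **Theorem.** For `q = p ^ (2 ^ c)`, `p` an odd prime and `c > 0`, the inclusion of `PSp(4, q)`
in `PSL(4, q)` is an envelope. -/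
theorem envelope (p c : ℕ) (hp : p.Prime) (hp2 : p ≠ 2) (hc : 0 < c) [Finite F]
    (hF : Nat.card F = p ^ (2 ^ c)) :
    ∃ φ : PSp4 F →* ProjectiveSpecialLinearGroup Ix F,
      (∀ A : symplecticGroup (Fin 2) F, φ (QuotientGroup.mk A) =
        QuotientGroup.mk (α := SpecialLinearGroup Ix F) ⟨A.1, SymplecticGroup.det_eq_one A.2⟩) ∧
      IsEnvelope φ := by
  have _ : Fact p.Prime := ⟨hp⟩
  have hchar : CharP F p := charP_of_card p _ hp hF
  exact ⟨pspMap p hp2, fun A => rfl, envelope_of_sq p hp2 (sq_of_card p c hp hp2 hc hF)⟩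

end Pool.Agent.Lib.MP_ca8614_al
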