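import Pool.Agent.Lib.MP_ca8614_al.Lift

set_option autoImplicit false

open Matrix

namespace Pool.Agent.Lib.MP_ca8614_al

variable {F : Type*} [Field F]

theorem invol_structure (h2 : (2 : F) ≠ 0) (s : Matrix Ix Ix F) (hs : s * s = 1) :
    ∃ a b : ℕ, a + b = 4 ∧
      (∀ α β : F, ((α + β) • (1 : Matrix Ix Ix F) + (α - β) • s).det = (2 * α) ^ a * (2 * β) ^ b) ∧
      (a = 0 → s = -1) ∧ (b = 0 → s = 1) ∧
      (a = 2 → b = 2 → ∃ P : Matrix Ix Ix F, P.det ≠ 0 ∧ s * P = P * fromBlocks 1 0 0 (-1)) := by
  classical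
  set f : (Ix → F) →ₗ[F] (Ix → F) := Matrix.toLin' s with hf
  have hff : ∀ v, f (f v) = v := by
    intro v
    rw [hf, ← LinearMap.comp_apply, ← Matrix.toLin'_mul, hs, Matrix.toLin'_one]
    rfl
  set Vp : Submodule F (Ix → F) := LinearMap.ker (f - LinearMap.id) with hVp
  set Vm : Submodule F (Ix → F) := LinearMap.ker (f + LinearMap.id) with hVm
  have mp : ∀ v, v ∈ Vp ↔ f v = v := by
    intro v
    rw [hVp, LinearMap.mem_ker, LinearMap.sub_apply, LinearMap.id_apply, sub_eq_zero]
  have mm : ∀ v, v ∈ Vm ↔ f v = -v := by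
    intro v
    rw [hVm, LinearMap.mem_ker, LinearMap.add_apply, LinearMap.id_apply, add_eq_zero_iff_eq_neg]
  have hcompl : IsCompl Vp Vm := by
    constructor
    · rw [Submodule.disjoint_def]
      intro v hv hv'
      rw [mp] at hv
      rw [mm] at hv'
      have h3 : (2 : F) • v = 0 := by
        rw [two_smul]
        nth_rewrite 1 [← hv]
        rw [hv', neg_add_cancel]
      exact (smul_eq_zero.1 h3).resolve_left h2
    · rw [codisjoint_iff, eq_top_iff]
      intro v _
      rw [Submodule.mem_sup]
      refine ⟨(2 : F)⁻¹ • (v + f v), ?_, (2 : F)⁻¹ • (v - f v), ?_, ?_⟩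
      · rw [mp, map_smul, map_add, hff, add_comm]
      · rw [mm, map_smul, map_sub, hff, ← smul_neg, neg_sub]
      · rw [← smul_add, add_add_sub_cancel, ← two_smul F v, smul_smul, inv_mul_cancel₀ h2, one_smul]
  set E := Submodule.prodEquivOfIsCompl Vp Vm hcompl with hE
  have hEapp : ∀ x, E x = (x.1 : Ix → F) + x.2 := by
    intro x
    rw [hE, Submodule.coe_prodEquivOfIsCompl']
  refine ⟨Module.finrank F Vp, Module.finrank F Vm, ?_, ?_, ?_, ?_, ?_⟩
  · have := Submodule.finrank_add_eq_of_isCompl hcompl
    rw [this, Module.finrank_fintype_fun_eq_card]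
    rfl
  · intro α β
    set g : (Ix → F) →ₗ[F] (Ix → F) := (α + β) • LinearMap.id + (α - β) • f with hg
    have hdet : ((α + β) • (1 : Matrix Ix Ix F) + (α - β) • s).det = LinearMap.det g := by
      rw [← LinearMap.det_toLin', map_add, map_smul, map_smul, Matrix.toLin'_one]
    have hgE : g = (E : (Vp × Vm) →ₗ[F] (Ix → F)) ∘ₗ
        (LinearMap.prodMap ((2 * α) • LinearMap.id) ((2 * β) • LinearMap.id)) ∘ₗ
        (E.symm : (Ix → F) →ₗ[F] (Vp × Vm)) := by
      apply LinearMap.ext
      intro v
      obtain ⟨x, rfl⟩ := E.surjective v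
      simp only [LinearMap.comp_apply, LinearEquiv.coe_coe, LinearEquiv.symm_apply_apply]
      rw [hEapp, hEapp]
      have hx1 : f (x.1 : Ix → F) = x.1 := (mp _).1 x.1.2
      have hx2 : f (x.2 : Ix → F) = -x.2 := (mm _).1 x.2.2
      simp only [hg, LinearMap.add_apply, LinearMap.smul_apply, LinearMap.id_apply, map_add, hx1,
        hx2, LinearMap.prodMap_apply, Submodule.coe_smul]
      module
    rw [hdet, hgE, LinearMap.det_conj, LinearMap.det_prodMap, LinearMap.det_smul,
      LinearMap.det_smul, LinearMap.det_id, LinearMap.det_id, mul_one, mul_one]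
  · intro h0
    have hbot : Vp = ⊥ := Submodule.finrank_eq_zero.1 h0
    have htop : Vm = ⊤ := by
      have := hcompl.sup_eq_top
      rwa [hbot, bot_sup_eq] at this
    apply (Matrix.toLin' (R := F) (m := Ix) (n := Ix)).injective
    apply LinearMap.ext
    intro v
    have : v ∈ Vm := by rw [htop]; trivial
    rw [mm] at this
    rw [map_neg, Matrix.toLin'_one]
    exact this
  · intro h0
    have hbot : Vm = ⊥ := Submodule.finrank_eq_zero.1 h0
    have htop : Vp = ⊤ := by
      have := hcompl.sup_eq_top
      rwa [hbot, sup_bot_eq] at this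
    apply (Matrix.toLin' (R := F) (m := Ix) (n := Ix)).injective
    apply LinearMap.ext
    intro v
    have : v ∈ Vp := by rw [htop]; trivial
    rw [mp] at this
    rw [Matrix.toLin'_one]
    exact this
  · intro ha hb
    let bp := Module.finBasisOfFinrankEq F Vp ha
    let bm := Module.finBasisOfFinrankEq F Vm hb
    let B : Module.Basis Ix F (Ix → F) := (bp.prod bm).map E
    have hB1 : ∀ i, B (Sum.inl i) = (bp i : Ix → F) := by
      intro i
      show E ((bp.prod bm) (Sum.inl i)) = _
      rw [hEapp]
      simp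
    have hB2 : ∀ i, B (Sum.inr i) = (bm i : Ix → F) := by
      intro i
      show E ((bp.prod bm) (Sum.inr i)) = _
      rw [hEapp]
      simp
    refine ⟨(Pi.basisFun F Ix).toMatrix B, ?_, ?_⟩
    · rw [← Module.Basis.det_apply]
      exact ((Pi.basisFun F Ix).isUnit_det B).ne_zero
    · have hcol : ∀ i j, (Pi.basisFun F Ix).toMatrix B i j = B j i := by
        intro i j
        rw [Module.Basis.toMatrix_apply, Pi.basisFun_repr]
      refine Matrix.ext fun i j => ?_
      have hleft : (s * (Pi.basisFun F Ix).toMatrix B) i j = f (B j) i := by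
        rw [hf, Matrix.toLin'_apply, Matrix.mul_apply, Matrix.mulVec, dotProduct]
        apply Finset.sum_congr rfl
        intro k _
        rw [hcol]
      rw [hleft]
      rcases j with j | j
      · rw [hB1, (mp _).1 (bp j).2, Matrix.mul_apply, Fintype.sum_sum_type]
        simp only [fromBlocks_apply₁₁, fromBlocks_apply₂₁, Matrix.zero_apply, mul_zero,
          Finset.sum_const_zero, add_zero, hcol, hB1]
        rw [Finset.sum_eq_single j]
        · simp
        · intro k _ hk; simp [Matrix.one_apply_ne hk]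
        · intro h; exact absurd (Finset.mem_univ _) h
      · rw [hB2, (mm _).1 (bm j).2, Matrix.mul_apply, Fintype.sum_sum_type]
        simp only [fromBlocks_apply₁₂, fromBlocks_apply₂₂, Matrix.zero_apply, mul_zero,
          Finset.sum_const_zero, zero_add, hcol, hB2, Matrix.neg_apply]
        rw [Finset.sum_eq_single j]
        · simp
        · intro k _ hk; simp [Matrix.one_apply_ne hk]
        · intro h; exact absurd (Finset.mem_univ _) h

end Pool.Agent.Lib.MP_ca8614_al
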