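import Pool.Agent.Lib.MP_ca8614_al.AutSL2b

set_option autoImplicit false

open Matrix

namespace Pool.Agent.Lib.MP_ca8614_al

/-- the index type of the blocks -/
abbrev Ix := Fin 2 ⊕ Fin 2

variable {F : Type*} [Field F]

/-- The projection to the projective group. -/
abbrev mk4 (A : SpecialLinearGroup Ix F) : ProjectiveSpecialLinearGroup Ix F := QuotientGroup.mk A

theorem card_Ix : Fintype.card Ix = 4 := rfl

theorem mk4_eq_iff (A B : SpecialLinearGroup Ix F) :
    mk4 A = mk4 B ↔ ∃ r : F, r ^ 4 = 1 ∧ B.1 = r • A.1 := by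
  rw [QuotientGroup.eq, Matrix.SpecialLinearGroup.mem_center_iff]
  constructor
  · rintro ⟨r, hr, h⟩
    refine ⟨r, by rw [← card_Ix]; exact hr, ?_⟩
    have : B = A * (A⁻¹ * B) := by group
    have h2 : B.1 = A.1 * (A⁻¹ * B).1 := congrArg Subtype.val this
    rw [h2, ← h]
    refine Matrix.ext fun i j => ?_
    simp [Matrix.mul_apply, Matrix.scalar_apply, Matrix.diagonal_apply, mul_comm]
  · rintro ⟨r, hr, h⟩
    refine ⟨r, by rw [card_Ix]; exact hr, ?_⟩
    have h1 : (A⁻¹ * B).1 = (A⁻¹).1 * B.1 := rfl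
    have h3 : (A⁻¹).1 * A.1 = 1 := congrArg Subtype.val (inv_mul_cancel A)
    rw [h1, h, Matrix.mul_smul, h3]
    refine Matrix.ext fun i j => ?_
    simp [Matrix.scalar_apply, Matrix.diagonal_apply, Matrix.one_apply]

theorem mk4_eq_one_iff (A : SpecialLinearGroup Ix F) :
    mk4 A = 1 ↔ ∃ r : F, r ^ 4 = 1 ∧ A.1 = r • (1 : Matrix Ix Ix F) := by
  have h : (1 : ProjectiveSpecialLinearGroup Ix F) = mk4 1 := rfl
  rw [h, eq_comm, mk4_eq_iff]
  rfl

theorem mk4_pow (A : SpecialLinearGroup Ix F) (m : ℕ) : mk4 (A ^ m) = mk4 A ^ m := rfl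
theorem mk4_mul (A B : SpecialLinearGroup Ix F) : mk4 (A * B) = mk4 A * mk4 B := rfl
theorem mk4_inv (A : SpecialLinearGroup Ix F) : mk4 A⁻¹ = (mk4 A)⁻¹ := rfl

section CharP

variable (p : ℕ) [hp : Fact p.Prime] [CharP F p]

include hp in
/-- Elements of `PSL` of order dividing `p` (odd) lift to elements of order dividing `p`. -/
theorem exists_lift (hp2 : p ≠ 2) {y : ProjectiveSpecialLinearGroup Ix F} (hy : y ^ p = 1) :
    ∃ X : SpecialLinearGroup Ix F, mk4 X = y ∧ X ^ p = 1 := by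
  obtain ⟨X0, hX0⟩ := QuotientGroup.mk_surjective y
  have h1 : mk4 (X0 ^ p) = 1 := by rw [mk4_pow]; show (QuotientGroup.mk X0) ^ p = _; rw [hX0, hy]
  obtain ⟨r, hr, hXr⟩ := (mk4_eq_one_iff _).1 h1
  have h2 : (X0 ^ p) ^ 4 = 1 := by
    apply Subtype.ext
    show (X0 ^ p).1 ^ 4 = 1
    rw [hXr, smul_pow, one_pow, hr, one_smul]
  have hodd : Odd p := hp.out.odd_of_ne_two hp2
  have hcop : Nat.Coprime 4 p := by
    have : Nat.Coprime 2 p := (Nat.coprime_two_left).2 hodd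
    exact Nat.Coprime.pow_left 2 this
  obtain ⟨k, _, hk⟩ := Nat.exists_mul_mod_eq_one_of_coprime hcop hp.out.one_lt
  refine ⟨X0 ^ (4 * k), ?_, ?_⟩
  · rw [mk4_pow]
    show (QuotientGroup.mk X0 : ProjectiveSpecialLinearGroup Ix F) ^ (4 * k) = y
    rw [hX0, ← Nat.div_add_mod (4 * k) p, hk, pow_add, pow_mul, hy, one_pow, one_mul, pow_one]
  · rw [← pow_mul, mul_comm, pow_mul, pow_mul, h2, one_pow]

/-- Uniqueness of lifts of order dividing `p`. -/
theorem lift_unique {X Y : SpecialLinearGroup Ix F}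
    (h : mk4 X = mk4 Y) (hX : X ^ p = 1) (hY : Y ^ p = 1) : X = Y := by
  obtain ⟨r, hr, hYX⟩ := (mk4_eq_iff X Y).1 h
  have h1 : Y.1 ^ p = 1 := congrArg Subtype.val hY
  have h2 : X.1 ^ p = 1 := congrArg Subtype.val hX
  rw [hYX, smul_pow, h2] at h1
  have h3 : r ^ p = 1 := by
    have := congrFun (congrFun h1 (Sum.inl 0)) (Sum.inl 0)
    simpa using this
  have h4 : r = 1 := eq_one_of_pow_char p h3
  apply Subtype.ext
  rw [hYX, h4, one_smul]

theorem lift_conj {A X Y : SpecialLinearGroup Ix F}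
    (h : mk4 A * mk4 X = mk4 Y * mk4 A) (hX : X ^ p = 1) (hY : Y ^ p = 1) : A * X = Y * A := by
  have h1 : A * X * A⁻¹ = Y := by
    apply lift_unique p _ _ hY
    · rw [mk4_mul, mk4_mul, mk4_inv, h]; group
    · rw [conj_pow, hX]; group
  rw [← h1]; group

end CharP

end Pool.Agent.Lib.MP_ca8614_al
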