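import Pool.Agent.Lib.MP_ca8614_al.Swap

set_option autoImplicit false

open Matrix

namespace Pool.Agent.Lib.MP_ca8614_al

variable {F : Type*} [Field F]

section

variable (p : ℕ) [hp : Fact p.Prime] [CharP F p]

include hp in
theorem normal_form (hp2 : p ≠ 2) [Finite F] (hq : ∀ r : F, r ^ 4 = 1 → ∃ ζ, ζ ^ 2 = r)
    (Ψ1 Ψ2 : SpecialLinearGroup (Fin 2) F →* ProjectiveSpecialLinearGroup Ix F)
    (hi1 : Function.Injective Ψ1) (hi2 : Function.Injective Ψ2)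
    (hcomm : ∀ x y, Ψ1 x * Ψ2 y = Ψ2 y * Ψ1 x) (hneg : Ψ1 negI = Ψ2 negI)
    (σ : ProjectiveSpecialLinearGroup Ix F) (hσ1 : ∀ x, σ * Ψ1 x = Ψ2 x * σ)
    (hσ2 : ∀ x, σ * Ψ2 x = Ψ1 x * σ) (hσ : σ ^ 2 = 1) :
    ∃ β : ProjectiveSpecialLinearGroup Ix F ≃* ProjectiveSpecialLinearGroup Ix F,
      (∀ x, β (Ψ1 x) = mk4 (blk1 x)) ∧ (∀ x, β (Ψ2 x) = mk4 (blk2 x)) ∧ β σ = mk4 swp := by
  obtain ⟨g, θ1, θ2, hθ1, hθ2, e1, e2⟩ := split p hp2 hq Ψ1 Ψ2 hi1 hi2 hcomm hneg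
  set β1 := projAut (conjSL g) with hβ1
  obtain ⟨g', f1, f2, f3⟩ := normal_form1 p hp2 hq (β1.toMonoidHom.comp Ψ1)
    (β1.toMonoidHom.comp Ψ2) θ1 θ2 hθ1 hθ2 e1 e2 (β1 σ)
    (by
      intro x
      show β1 σ * β1 (Ψ1 x) = β1 (Ψ2 x) * β1 σ
      rw [← map_mul, hσ1, map_mul])
    (by
      intro x
      show β1 σ * β1 (Ψ2 x) = β1 (Ψ1 x) * β1 σ
      rw [← map_mul, hσ2, map_mul])
    (by rw [← map_pow, hσ, map_one])
  obtain ⟨g0, τ, hτ⟩ := autSL2 p hp2 θ1 hθ1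
  have hGdet : (fromBlocks g0.1 0 0 g0.1 : Matrix Ix Ix F).det ≠ 0 := by
    rw [det_fromBlocks_zero₁₂]
    exact mul_ne_zero (GeneralLinearGroup.det_ne_zero g0) (GeneralLinearGroup.det_ne_zero g0)
  set β2 := projAut (conjSL g') with hβ2
  set β3 := projAut (conjSL (toGL _ hGdet)) with hβ3
  set β4 := projAut (mapSL (n := Ix) τ.symm) with hβ4
  have k1 : ∀ A, conjSL (toGL _ hGdet) (blk1 A) = blk1 (conjSL g0 A) := by
    intro A
    rw [conjSL_eq_iff, toGL_val, blk1_val, blk1_val, fromBlocks_multiply, fromBlocks_multiply,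
      conjSL_val_mul]
    simp
  have k2 : ∀ A, conjSL (toGL _ hGdet) (blk2 A) = blk2 (conjSL g0 A) := by
    intro A
    rw [conjSL_eq_iff, toGL_val, blk2_val, blk2_val, fromBlocks_multiply, fromBlocks_multiply,
      conjSL_val_mul]
    simp
  have k3 : conjSL (toGL _ hGdet) swp = swp := by
    rw [conjSL_eq_iff, toGL_val, swp_val, fromBlocks_multiply, fromBlocks_multiply]
    simp
  have l1 : ∀ x, mapSL τ.symm (blk1 (mapSL τ x)) = blk1 x := by
    intro x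
    apply Subtype.ext
    rw [mapSL_val, blk1_val, blk1_val, mapSL_val, fromBlocks_map]
    congr 1
    · refine Matrix.ext fun i j => ?_
      simp
    · exact Matrix.map_zero _ (map_zero _)
    · exact Matrix.map_zero _ (map_zero _)
    · exact Matrix.map_one _ (map_zero _) (map_one _)
  have l2 : ∀ x, mapSL τ.symm (blk2 (mapSL τ x)) = blk2 x := by
    intro x
    apply Subtype.ext
    rw [mapSL_val, blk2_val, blk2_val, mapSL_val, fromBlocks_map]
    congr 1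
    · exact Matrix.map_one _ (map_zero _) (map_one _)
    · exact Matrix.map_zero _ (map_zero _)
    · exact Matrix.map_zero _ (map_zero _)
    · refine Matrix.ext fun i j => ?_
      simp
  have l3 : mapSL τ.symm swp = (swp : SpecialLinearGroup Ix F) := by
    apply Subtype.ext
    rw [mapSL_val, swp_val, fromBlocks_map]
    congr 1
    · exact Matrix.map_zero _ (map_zero _)
    · exact Matrix.map_one _ (map_zero _) (map_one _)
    · exact Matrix.map_one _ (map_zero _) (map_one _)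
    · exact Matrix.map_zero _ (map_zero _)
  refine ⟨((β1.trans β2).trans β3).trans β4, ?_, ?_, ?_⟩
  · intro x
    show β4 (β3 (β2 (β1 (Ψ1 x)))) = _
    have : β2 (β1 (Ψ1 x)) = mk4 (blk1 (θ1 x)) := f1 x
    rw [this]
    show mk4 (mapSL τ.symm (conjSL (toGL _ hGdet) (blk1 (θ1 x)))) = _
    rw [k1, hτ, l1]
  · intro x
    show β4 (β3 (β2 (β1 (Ψ2 x)))) = _
    have : β2 (β1 (Ψ2 x)) = mk4 (blk2 (θ1 x)) := f2 x
    rw [this]
    show mk4 (mapSL τ.symm (conjSL (toGL _ hGdet) (blk2 (θ1 x)))) = _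
    rw [k2, hτ, l2]
  · show β4 (β3 (β2 (β1 σ))) = _
    rw [f3]
    show mk4 (mapSL τ.symm (conjSL (toGL _ hGdet) swp)) = _
    rw [k3, l3]

end

end Pool.Agent.Lib.MP_ca8614_al
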