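import Pool.Agent.Lib.MP_ca8614_al.Order
import Pool.Agent.Lib.MP_ca8614_al.Arith

set_option autoImplicit false

open Matrix

namespace Pool.Agent.Lib.MP_ca8614_al

variable {F : Type*} [Field F]

theorem card_SL4 [Finite F] : Nat.card (SpecialLinearGroup Ix F) * (Nat.card F - 1) =
    (Nat.card F ^ 4 - 1) * (Nat.card F ^ 4 - Nat.card F) * (Nat.card F ^ 4 - Nat.card F ^ 2) *
      (Nat.card F ^ 4 - Nat.card F ^ 3) := by
  classical
  have _ := Fintype.ofFinite F
  have h1 : Nat.card (GL Ix F) = Nat.card (GL (Fin 4) F) :=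
    Nat.card_congr (Units.mapEquiv
      (Matrix.reindexAlgEquiv F F (finSumFinEquiv : Fin 2 ⊕ Fin 2 ≃ Fin 4)).toMulEquiv).toEquiv
  have h2 : Nat.card (GL (Fin 4) F) = ∏ i : Fin 4, (Fintype.card F ^ 4 - Fintype.card F ^ (i : ℕ)) :=
    Matrix.card_GL_field 4
  let d : GL Ix F →* Fˣ := GeneralLinearGroup.det
  have hd : Function.Surjective d := by
    intro a
    have hdet : (diagonal (fun i : Ix => if i = Sum.inl 0 then (a : F) else 1)).det = a := by
      rw [det_diagonal, Fintype.prod_sum_type]
      simp [Fin.prod_univ_two]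
    refine ⟨GeneralLinearGroup.mkOfDetNeZero
      (diagonal (fun i : Ix => if i = Sum.inl 0 then (a : F) else 1)) (by
        rw [hdet]; exact a.ne_zero), ?_⟩
    apply Units.ext
    show (diagonal (fun i : Ix => if i = Sum.inl 0 then (a : F) else 1)).det = a
    exact hdet
  have h3 := d.ker.card_eq_card_quotient_mul_card_subgroup
  have h4 : Nat.card (GL Ix F ⧸ d.ker) = Nat.card F - 1 := by
    rw [Nat.card_congr (QuotientGroup.quotientKerEquivOfSurjective d hd).toEquiv,
      Nat.card_eq_card_units_add_one F, Nat.add_sub_cancel]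
  have h5 : Nat.card d.ker = Nat.card (SpecialLinearGroup Ix F) := by
    apply Nat.card_congr
    exact
    { toFun := fun g => ⟨g.1.1, by
        have := congrArg Units.val (MonoidHom.mem_ker.1 g.2)
        exact this⟩
      invFun := fun g => ⟨GeneralLinearGroup.mkOfDetNeZero g.1 (by rw [g.2]; exact one_ne_zero),
        by
          rw [MonoidHom.mem_ker]
          apply Units.ext
          show g.1.det = 1
          exact g.2⟩
      left_inv := fun g => by
        apply Subtype.ext
        apply Units.ext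
        rfl
      right_inv := fun g => rfl }
  rw [h4, h5, h1, h2] at h3
  rw [mul_comm, ← h3, Nat.card_eq_fintype_card]
  simp [Fin.prod_univ_four]

theorem card_center_SL4 [Finite F] :
    Nat.card (Subgroup.center (SpecialLinearGroup Ix F)) ∣ 4 := by
  have e := (SpecialLinearGroup.center_equiv_rootsOfUnity' (R := F) (Sum.inl 0 : Ix))
  have h4 : Fintype.card Ix = 4 := rfl
  rw [Nat.card_congr e.toEquiv, h4]
  have h1 : Monoid.exponent (rootsOfUnity 4 F) ∣ 4 := by
    apply Monoid.exponent_dvd_of_forall_pow_eq_one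
    intro g
    apply Subtype.ext
    exact (mem_rootsOfUnity 4 g.1).1 g.2
  rwa [IsCyclic.exponent_eq_card] at h1

theorem card_center_Sp [Finite F] (h2 : (2 : F) ≠ 0) :
    Nat.card (Subgroup.center (symplecticGroup (Fin 2) F)) ∣ 2 := by
  classical
  let f : Subgroup.center (symplecticGroup (Fin 2) F) → Bool := fun A =>
    decide ((eSp F A.1).1.1 = 1)
  have hf : Function.Injective f := by
    intro A B h
    have h' : ((eSp F A.1).1.1 = 1) ↔ ((eSp F B.1).1.1 = 1) := by simpa [f] using h
    have e : (eSp F A.1).1.1 = (eSp F B.1).1.1 := by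
      by_cases hA : (eSp F A.1).1.1 = 1
      · rw [hA, h'.1 hA]
      · have hB : ¬ (eSp F B.1).1.1 = 1 := fun h0 => hA (h'.2 h0)
        rw [(central_Sp h2 A.1 A.2).resolve_left hA, (central_Sp h2 B.1 B.2).resolve_left hB]
    apply Subtype.ext
    apply (eSp F).injective
    exact Subtype.ext (Subtype.ext e)
  have h3 : Nat.card (Subgroup.center (symplecticGroup (Fin 2) F)) ≤ 2 := by
    have := Nat.card_le_card_of_injective f hf
    simpa using this
  have h4 : 0 < Nat.card (Subgroup.center (symplecticGroup (Fin 2) F)) := Nat.card_pos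
  interval_cases h : Nat.card (Subgroup.center (symplecticGroup (Fin 2) F))
  · exact one_dvd _
  · exact dvd_rfl

/-- No group `PSL(4, p^(2^c))` is isomorphic to a group `PSp(4, s^(2^d))`. -/
theorem not_iso (p c s d : ℕ) (hp : p.Prime) (hs : s.Prime) (hp2 : p ≠ 2) (hs2 : s ≠ 2)
    (F K : Type*) [Field F] [Finite F] [Field K] [Finite K]
    (hF : Nat.card F = p ^ 2 ^ c) (hK : Nat.card K = s ^ 2 ^ d)
    (e : ProjectiveSpecialLinearGroup Ix F ≃* PSp4 K) : False := by
  have _ : Fact s.Prime := ⟨hs⟩
  have hchar : CharP K s := charP_of_card s _ hs hK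
  have h2 : (2 : K) ≠ 0 := two_ne_zero_of_char s hs2
  have h3 : Nat.card (SpecialLinearGroup Ix F) =
      Nat.card (ProjectiveSpecialLinearGroup Ix F) *
        Nat.card (Subgroup.center (SpecialLinearGroup Ix F)) :=
    Subgroup.card_eq_card_quotient_mul_card_subgroup _
  have h4 : Nat.card (symplecticGroup (Fin 2) K) =
      Nat.card (PSp4 K) * Nat.card (Subgroup.center (symplecticGroup (Fin 2) K)) :=
    Subgroup.card_eq_card_quotient_mul_card_subgroup _
  have h5 : Nat.card (PSp4 K) = Nat.card (ProjectiveSpecialLinearGroup Ix F) :=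
    (Nat.card_congr e.toEquiv).symm
  have h6 := card_SL4 (F := F)
  rw [h3] at h6
  have h7 := card_SpB (F := K)
  rw [← Nat.card_congr (eSp K).toEquiv, h4, h5] at h7
  exact arith p s c d _ _ _ _ _ hp hs hp2 hs2 card_center_SL4 (card_center_Sp h2) hF hK h6 h7

end Pool.Agent.Lib.MP_ca8614_al
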