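import Pool.Agent.Lib.MP_ca8614_al.Simple

set_option autoImplicit false

open Matrix

namespace Pool.Agent.Lib.MP_ca8614_al

/-! ### Counting -/

theorem card_fiber_functional {K V : Type*} [Field K] [Finite K] [AddCommGroup V] [Module K V]
    [Finite V] (f : V →ₗ[K] K) (hf : f ≠ 0) (c : K) :
    Nat.card {v : V // f v = c} * Nat.card K = Nat.card V := by
  have hsurj : Function.Surjective f := LinearMap.surjective hf
  obtain ⟨v0, hv0⟩ := hsurj c
  have e : {v : V // f v = c} ≃ LinearMap.ker f :=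
    { toFun := fun v => ⟨v.1 - v0, by rw [LinearMap.mem_ker, map_sub, v.2, hv0, sub_self]⟩
      invFun := fun k => ⟨k.1 + v0, by rw [map_add, hv0, LinearMap.mem_ker.1 k.2, zero_add]⟩
      left_inv := fun v => by simp
      right_inv := fun k => by simp }
  rw [Nat.card_congr e, Submodule.card_eq_card_quotient_mul_card (LinearMap.ker f),
    Nat.card_congr (f.quotKerEquivOfSurjective hsurj).toEquiv]

theorem card_pairs {K V : Type*} [Field K] [Finite K] [AddCommGroup V] [Module K V]
    [Finite V] (B : V → V →ₗ[K] K) (hB : ∀ u, u ≠ 0 → B u ≠ 0) (hB0 : B 0 = 0) (c : K)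
    (hc : c ≠ 0) :
    Nat.card {p : V × V // B p.1 p.2 = c} * Nat.card K = (Nat.card V - 1) * Nat.card V := by
  classical
  have e : {p : V × V // B p.1 p.2 = c} ≃ Σ u : {u : V // u ≠ 0}, {v : V // B u.1 v = c} :=
    { toFun := fun p => ⟨⟨p.1.1, by
        intro h
        have := p.2
        rw [h, hB0, LinearMap.zero_apply] at this
        exact hc this.symm⟩, ⟨p.1.2, p.2⟩⟩
      invFun := fun q => ⟨(q.1.1, q.2.1), q.2.2⟩
      left_inv := fun p => rfl
      right_inv := fun q => rfl }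
  have _ := Fintype.ofFinite {u : V // u ≠ 0}
  rw [Nat.card_congr e, Nat.card_sigma, Finset.sum_mul,
    Finset.sum_congr rfl (fun u _ => card_fiber_functional (B u.1) (hB u.1 u.2) c),
    Finset.sum_const, Finset.card_univ, ← Nat.card_eq_fintype_card, smul_eq_mul]
  congr 1
  have e2 : Option {u : V // u ≠ 0} ≃ V := Equiv.optionSubtypeNe 0
  rw [← Nat.card_congr e2, Finite.card_option]
  rfl

variable {F : Type*} [Field F]

/-- the determinant of two vectors in the plane as a linear functional -/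
def detf (u : Fin 2 → F) : (Fin 2 → F) →ₗ[F] F where
  toFun v := u 0 * v 1 - u 1 * v 0
  map_add' a b := by simp only [Pi.add_apply]; ring
  map_smul' c a := by simp only [Pi.smul_apply, smul_eq_mul, RingHom.id_apply]; ring

theorem card_SL2 [Finite F] :
    Nat.card (SpecialLinearGroup (Fin 2) F) = (Nat.card F ^ 2 - 1) * Nat.card F := by
  have e : SpecialLinearGroup (Fin 2) F ≃ {p : (Fin 2 → F) × (Fin 2 → F) // detf p.1 p.2 = 1} :=
    { toFun := fun g => ⟨(g.1 0, g.1 1), by
        have := g.2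
        rw [Matrix.det_fin_two] at this
        show g.1 0 0 * g.1 1 1 - g.1 0 1 * g.1 1 0 = 1
        exact this⟩
      invFun := fun p => ⟨Matrix.of ![p.1.1, p.1.2], by
        rw [Matrix.det_fin_two]
        exact p.2⟩
      left_inv := fun g => by
        apply Subtype.ext
        refine Matrix.ext fun i j => ?_
        fin_cases i <;> rfl
      right_inv := fun p => rfl }
  have h := card_pairs (K := F) (V := Fin 2 → F) detf (by
    intro u hu h
    apply hu
    funext i
    fin_cases i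
    · have := LinearMap.congr_fun h ![0, 1]
      simpa [detf] using this
    · have := LinearMap.congr_fun h ![1, 0]
      simpa [detf] using this) (by
    ext v
    simp [detf]) 1 one_ne_zero
  rw [← Nat.card_congr e, Nat.card_fun, Nat.card_eq_fintype_card (α := Fin 2),
    Fintype.card_fin] at h
  have hpos : 0 < Nat.card F := Nat.card_pos
  have h2 : (Nat.card F ^ 2 - 1) * Nat.card F ^ 2 = ((Nat.card F ^ 2 - 1) * Nat.card F) * Nat.card F := by
    ring
  rw [h2] at h
  exact Nat.eq_of_mul_eq_mul_right hpos h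

/-- the alternating form as a linear functional -/
def Bl (u : Ix → F) : (Ix → F) →ₗ[F] F where
  toFun v := Bf u v
  map_add' a b := Bf_add_right u a b
  map_smul' c a := by rw [Bf_smul_right]; rfl

theorem exists_with_rows (u v : Ix → F) (h : Bf u v = -1) :
    ∃ g ∈ SpB F, g.1 (Sum.inl 0) = u ∧ g.1 (Sum.inl 1) = v := by
  have hu : u ≠ 0 := by
    intro h0
    rw [h0, Bf_eq] at h
    simp at h
  have h10 : (![1, 0] : Fin 2 → F) ≠ 0 := by
    intro h
    have := congrFun h 0
    simp at this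
  obtain ⟨γ, hγ, hγu⟩ := orb_of_ne_zero u hu ![1, 0] h10
  have hs1 : (v ᵥ* γ.1) (Sum.inl 1) = 1 := by
    have h1 : Bf (u ᵥ* γ.1) (v ᵥ* γ.1) = -1 := by rw [Bf_inv (Gam_le hγ), h]
    rw [hγu, Bf_eq] at h1
    simp at h1
    exact h1
  obtain ⟨γ2, hγ2, k1, k2⟩ := move_second _ hs1
  have hδ : γ * γ2 ∈ SpB F := Subgroup.mul_mem _ (Gam_le hγ) (Gam_le hγ2)
  set δ := γ * γ2 with hδe
  have e : δ.1 * (δ⁻¹).1 = 1 := congrArg Subtype.val (mul_inv_cancel δ)
  have hu' : u ᵥ* δ.1 = Sum.elim ![1, 0] 0 := by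
    show u ᵥ* (γ.1 * γ2.1) = _
    rw [← vecMul_vecMul, hγu, k1]
  have hv' : v ᵥ* δ.1 = Sum.elim ![0, 1] 0 := by
    show v ᵥ* (γ.1 * γ2.1) = _
    rw [← vecMul_vecMul, k2]
  refine ⟨δ⁻¹, Subgroup.inv_mem _ hδ, ?_, ?_⟩
  · have h1 : (δ⁻¹).1 (Sum.inl 0) = (Sum.elim ![1, 0] 0 : Ix → F) ᵥ* (δ⁻¹).1 := by
      have : (Sum.elim ![1, 0] 0 : Ix → F) = Pi.single (Sum.inl 0) 1 := by
        funext i
        rcases i with i | i <;> fin_cases i <;> simp
      rw [this, single_one_vecMul]
      rfl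
    rw [h1, ← hu', vecMul_vecMul, e, vecMul_one]
  · have h1 : (δ⁻¹).1 (Sum.inl 1) = (Sum.elim ![0, 1] 0 : Ix → F) ᵥ* (δ⁻¹).1 := by
      have : (Sum.elim ![0, 1] 0 : Ix → F) = Pi.single (Sum.inl 1) 1 := by
        funext i
        rcases i with i | i <;> fin_cases i <;> simp
      rw [this, single_one_vecMul]
      rfl
    rw [h1, ← hv', vecMul_vecMul, e, vecMul_one]

theorem blk2_row0 (x : SpecialLinearGroup (Fin 2) F) :
    (blk2 x).1 (Sum.inl 0) = Sum.elim ![1, 0] 0 := by
  rw [blk2_val]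
  funext j
  rcases j with j | j <;> fin_cases j <;> simp

theorem blk2_row1 (x : SpecialLinearGroup (Fin 2) F) :
    (blk2 x).1 (Sum.inl 1) = Sum.elim ![0, 1] 0 := by
  rw [blk2_val]
  funext j
  rcases j with j | j <;> fin_cases j <;> simp

theorem blk2_injective : Function.Injective (blk2 : SpecialLinearGroup (Fin 2) F →* _) := by
  intro x y h
  apply Subtype.ext
  have h1 : (blk2 x).1 = (blk2 y).1 := congrArg Subtype.val h
  rw [blk2_val, blk2_val, fromBlocks_inj] at h1
  exact h1.2.2.2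

theorem card_SpB [Finite F] :
    Nat.card (SpB F) = (Nat.card F ^ 4 - 1) * Nat.card F ^ 3 *
      ((Nat.card F ^ 2 - 1) * Nat.card F) := by
  classical
  have hp := card_pairs (K := F) (V := Ix → F) Bl (by
    intro u hu h
    apply hu
    apply Bf_nondeg
    intro v
    rw [Bf_anti]
    have := LinearMap.congr_fun h v
    have h2 : Bf u v = 0 := this
    rw [h2, neg_zero]) (by
    apply LinearMap.ext
    intro v
    show Bf 0 v = 0
    rw [Bf_eq]
    simp) (-1) (neg_ne_zero.2 one_ne_zero)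
  have hchoose : ∀ p : {p : (Ix → F) × (Ix → F) // Bl p.1 p.2 = -1},
      ∃ g ∈ SpB F, g.1 (Sum.inl 0) = p.1.1 ∧ g.1 (Sum.inl 1) = p.1.2 :=
    fun p => exists_with_rows p.1.1 p.1.2 p.2
  choose s hs1 hs2 hs3 using hchoose
  let Φ : {p : (Ix → F) × (Ix → F) // Bl p.1 p.2 = -1} × SpecialLinearGroup (Fin 2) F → SpB F :=
    fun q => ⟨blk2 q.2 * s q.1, Subgroup.mul_mem _ (blk2_mem _) (hs1 _)⟩
  have single0 : (Sum.elim ![1, 0] 0 : Ix → F) = Pi.single (Sum.inl 0) 1 := by
    funext i
    rcases i with i | i <;> fin_cases i <;> simp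
  have single1 : (Sum.elim ![0, 1] 0 : Ix → F) = Pi.single (Sum.inl 1) 1 := by
    funext i
    rcases i with i | i <;> fin_cases i <;> simp
  have row0 : ∀ q, (Φ q).1.1 (Sum.inl 0) = q.1.1.1 := by
    intro q
    show (blk2 q.2 * s q.1).1 (Sum.inl 0) = _
    rw [rowmul, blk2_row0, single0, single_one_vecMul]
    exact hs2 q.1
  have row1 : ∀ q, (Φ q).1.1 (Sum.inl 1) = q.1.1.2 := by
    intro q
    show (blk2 q.2 * s q.1).1 (Sum.inl 1) = _
    rw [rowmul, blk2_row1, single1, single_one_vecMul]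
    exact hs3 q.1
  have hbij : Function.Bijective Φ := by
    constructor
    · intro q q' h
      have h0 : q.1 = q'.1 := by
        apply Subtype.ext
        apply Prod.ext
        · rw [← row0 q, ← row0 q', h]
        · rw [← row1 q, ← row1 q', h]
      have h1 : blk2 q.2 * s q.1 = blk2 q'.2 * s q'.1 := congrArg Subtype.val h
      rw [h0] at h1
      exact Prod.ext h0 (blk2_injective (mul_right_cancel h1))
    · intro g
      have hg : Bl (g.1.1 (Sum.inl 0)) (g.1.1 (Sum.inl 1)) = -1 := by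
        have h := form_rows g.1 g.2 (Sum.inl 0) (Sum.inl 1)
        show (g.1.1 (Sum.inl 0) ᵥ* Om) ⬝ᵥ g.1.1 (Sum.inl 1) = -1
        rw [h, Om, om]
        simp
      set p : {p : (Ix → F) × (Ix → F) // Bl p.1 p.2 = -1} :=
        ⟨(g.1.1 (Sum.inl 0), g.1.1 (Sum.inl 1)), hg⟩ with hp'
      have e : (s p).1 * ((s p)⁻¹).1 = 1 := congrArg Subtype.val (mul_inv_cancel (s p))
      obtain ⟨x, hx⟩ := eq_blk2_of_rows (g.1 * (s p)⁻¹)
        (Subgroup.mul_mem _ g.2 (Subgroup.inv_mem _ (hs1 p))) (by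
          rw [rowmul]
          have : g.1.1 (Sum.inl 0) = (Sum.elim ![1, 0] 0 : Ix → F) ᵥ* (s p).1 := by
            rw [single0, single_one_vecMul]
            exact (hs2 p).symm
          rw [this, vecMul_vecMul, e, vecMul_one]) (by
          rw [rowmul]
          have : g.1.1 (Sum.inl 1) = (Sum.elim ![0, 1] 0 : Ix → F) ᵥ* (s p).1 := by
            rw [single1, single_one_vecMul]
            exact (hs3 p).symm
          rw [this, vecMul_vecMul, e, vecMul_one])
      refine ⟨(p, x), ?_⟩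
      apply Subtype.ext
      show blk2 x * s p = g.1
      rw [← hx, inv_mul_cancel_right]
  rw [← Nat.card_congr (Equiv.ofBijective Φ hbij), Nat.card_prod, card_SL2]
  congr 1
  have hcard : Nat.card (Ix → F) = Nat.card F ^ 4 := by
    rw [Nat.card_fun, Nat.card_eq_fintype_card (α := Ix)]
    rfl
  rw [hcard] at hp
  have hpos : 0 < Nat.card F := Nat.card_pos
  have h2 : (Nat.card F ^ 4 - 1) * Nat.card F ^ 4 =
      ((Nat.card F ^ 4 - 1) * Nat.card F ^ 3) * Nat.card F := by ring
  rw [h2] at hp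
  exact Nat.eq_of_mul_eq_mul_right hpos hp

end Pool.Agent.Lib.MP_ca8614_al
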