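import Pool.Agent.Lib.MP_ca8614_al.Normal

set_option autoImplicit false

open Matrix

namespace Pool.Agent.Lib.MP_ca8614_al

variable {F : Type*} [Field F]

/-- the matrix unit `E_{12}` -/
def nn : Matrix (Fin 2) (Fin 2) F := !![0, 1; 0, 0]
/-- the matrix unit `E_{21}` -/
def mm : Matrix (Fin 2) (Fin 2) F := !![0, 0; 1, 0]

/-- a family of unipotent matrices containing the symplectic transvection at `(e, e)` -/
def XX (α β : F) : Matrix Ix Ix F :=
  fromBlocks (1 + α • nn) (β • nn) (β • nn) (1 + α • nn)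

theorem nn_sq : (nn : Matrix (Fin 2) (Fin 2) F) * nn = 0 := by
  rw [nn]
  refine Matrix.ext fun i j => ?_
  fin_cases i <;> fin_cases j <;> simp

theorem trace_blocks (A B C D : Matrix (Fin 2) (Fin 2) F) :
    (fromBlocks A B C D : Matrix Ix Ix F).trace = A.trace + D.trace := by
  simp [Matrix.trace, Fintype.sum_sum_type, Matrix.diag]

theorem det_XX_one : (XX (1 : F) 1).det = 1 := by
  have h : XX (1 : F) 1 = fromBlocks 1 0 1 1 * fromBlocks (1 + (nn + nn)) nn 0 1 *
      fromBlocks 1 0 (-1) 1 := by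
    rw [XX, fromBlocks_multiply, fromBlocks_multiply, fromBlocks_inj]
    refine ⟨?_, ?_, ?_, ?_⟩ <;> simp <;> (try abel)
  rw [h, det_mul, det_mul, det_fromBlocks_zero₁₂, det_fromBlocks_zero₁₂, det_fromBlocks_zero₂₁]
  have h1 : (1 + (nn + nn) : Matrix (Fin 2) (Fin 2) F).det = 1 := by
    rw [nn, Matrix.det_fin_two]; simp
  rw [h1]; simp

/-- the transvection, as an element of `SL 4` -/
def tvM : SpecialLinearGroup Ix F := ⟨XX 1 1, det_XX_one⟩

theorem tvM_val : (tvM : SpecialLinearGroup Ix F).1 = XX 1 1 := rfl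

/-- the element `w` of `SL 2` -/
def ww : SpecialLinearGroup (Fin 2) F := ⟨!![0, -1; 1, 0], by simp [Matrix.det_fin_two]⟩

/-- the element `(w, -w)` -/
def WW : SpecialLinearGroup Ix F := blk1 ww * blk2 (ww * negI)

theorem WW_val : (WW : SpecialLinearGroup Ix F).1 =
    fromBlocks !![0, -1; 1, 0] 0 0 !![0, 1; -1, 0] := by
  show (blk1 ww).1 * (blk2 (ww * negI)).1 = _
  rw [blk1_val, blk2_val, fromBlocks_multiply]
  have : (ww * negI : SpecialLinearGroup (Fin 2) F).1 = !![0, 1; -1, 0] := by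
    show !![0, -1; 1, 0] * (-1 : Matrix (Fin 2) (Fin 2) F) = _
    refine Matrix.ext fun i j => ?_
    fin_cases i <;> fin_cases j <;> simp
  rw [this]
  simp [ww]

theorem conj_val_eq {W X : SpecialLinearGroup Ix F} {Y : Matrix Ix Ix F}
    (h : W.1 * X.1 = Y * W.1) : (W * X * W⁻¹).1 = Y := by
  have e : W.1 * (W⁻¹).1 = 1 := congrArg Subtype.val (mul_inv_cancel W)
  show (W.1 * X.1) * (W⁻¹).1 = Y
  rw [h, Matrix.mul_assoc, e, Matrix.mul_one]

theorem one_sub_mm (α : F) : (1 : Matrix (Fin 2) (Fin 2) F) - α • mm = !![1, 0; -α, 1] := by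
  rw [mm, Matrix.one_fin_two]
  refine Matrix.ext fun i j => ?_
  fin_cases i <;> fin_cases j <;> simp

theorem one_add_nn (α : F) : (1 : Matrix (Fin 2) (Fin 2) F) + α • nn = !![1, α; 0, 1] := by
  rw [nn, Matrix.one_fin_two]
  refine Matrix.ext fun i j => ?_
  fin_cases i <;> fin_cases j <;> simp

theorem smul_mm (β : F) : β • (mm : Matrix (Fin 2) (Fin 2) F) = !![0, 0; β, 0] := by
  rw [mm]
  refine Matrix.ext fun i j => ?_
  fin_cases i <;> fin_cases j <;> simp

theorem smul_nn (β : F) : β • (nn : Matrix (Fin 2) (Fin 2) F) = !![0, β; 0, 0] := by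
  rw [nn]
  refine Matrix.ext fun i j => ?_
  fin_cases i <;> fin_cases j <;> simp

section

variable (p : ℕ) [hp : Fact p.Prime] [CharP F p]

include hp in
theorem pin (hp2 : p ≠ 2) (τ : ProjectiveSpecialLinearGroup Ix F) (hτp : τ ^ p = 1)
    (h1 : τ * mk4 (blk1 (up 1)) = mk4 (blk1 (up 1)) * τ)
    (h2 : τ * mk4 (blk2 (up 1)) = mk4 (blk2 (up 1)) * τ)
    (h3 : τ * mk4 swp = mk4 swp * τ)
    (h4 : τ * (mk4 WW * τ * (mk4 WW)⁻¹) = (mk4 WW * τ * (mk4 WW)⁻¹) * τ)
    (h5 : τ * mk4 (blk1 (lo (-1))) * τ = mk4 (blk1 (lo (-1))) * τ * mk4 (blk1 (lo (-1)))) :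
    τ = mk4 tvM ∨ mk4 (blk1 negI) * τ * (mk4 (blk1 negI))⁻¹ = mk4 tvM := by
  have h2ne : (2 : F) ≠ 0 := two_ne_zero_of_char p hp2
  obtain ⟨X, hX, hXp⟩ := exists_lift p hp2 hτp
  have hupp : (blk1 (up 1) : SpecialLinearGroup Ix F) ^ p = 1 := by
    rw [← map_pow, up_pow_p, map_one]
  have hupp2 : (blk2 (up 1) : SpecialLinearGroup Ix F) ^ p = 1 := by
    rw [← map_pow, up_pow_p, map_one]
  have c1 : X * blk1 (up 1) = blk1 (up 1) * X := lift_conj p (by rw [hX, h1]) hupp hupp
  have c2 : X * blk2 (up 1) = blk2 (up 1) * X := lift_conj p (by rw [hX, h2]) hupp2 hupp2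
  have c3 : swp * X = X * swp := lift_conj p (by rw [hX, h3]) hXp hXp
  set A := X.1.toBlocks₁₁ with hA
  set B := X.1.toBlocks₁₂ with hB
  set C := X.1.toBlocks₂₁ with hC
  set D := X.1.toBlocks₂₂ with hD
  have hXe : X.1 = fromBlocks A B C D := (fromBlocks_toBlocks X.1).symm
  have hup1 : (up (1 : F)).1 = 1 + nn := by
    rw [up_val, nn, Matrix.one_fin_two]; simp
  have d1 : A * nn = nn * A ∧ nn * B = 0 ∧ C * nn = 0 := by
    have h : X.1 * (blk1 (up 1)).1 = (blk1 (up 1)).1 * X.1 := congrArg Subtype.val c1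
    rw [blk1_val, hXe, fromBlocks_multiply, fromBlocks_multiply, fromBlocks_inj, hup1] at h
    obtain ⟨e1, e2, e3, -⟩ := h
    simp only [mul_zero, add_zero, mul_one, zero_add, one_mul, zero_mul, mul_add, add_mul]
      at e1 e2 e3
    refine ⟨add_left_cancel e1, ?_, ?_⟩
    · exact (add_eq_left.1 e2.symm)
    · exact (add_eq_left.1 e3)
  have d2 : B * nn = 0 := by
    have h : X.1 * (blk2 (up 1)).1 = (blk2 (up 1)).1 * X.1 := congrArg Subtype.val c2
    rw [blk2_val, hXe, fromBlocks_multiply, fromBlocks_multiply, fromBlocks_inj, hup1] at h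
    obtain ⟨-, e2, -, -⟩ := h
    simp only [mul_zero, add_zero, mul_one, zero_add, one_mul, zero_mul, mul_add]
      at e2
    exact (add_eq_left.1 e2)
  have d3 : D = A ∧ C = B := by
    have h : (swp : SpecialLinearGroup Ix F).1 * X.1 = X.1 * swp.1 := congrArg Subtype.val c3
    rw [swp_val, hXe, fromBlocks_multiply, fromBlocks_multiply, fromBlocks_inj] at h
    obtain ⟨e1, e2, -, -⟩ := h
    simp only [mul_zero, add_zero, mul_one, zero_add, one_mul, zero_mul] at e1 e2
    exact ⟨e2, e1⟩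
  -- shape of the blocks
  have hBs : B = B 0 1 • nn := by
    have e1 := congrFun (congrFun d1.2.1 0) 0
    have e2 := congrFun (congrFun d1.2.1 0) 1
    have e3 := congrFun (congrFun d2 0) 1
    rw [nn] at e1 e2 e3
    simp [Matrix.mul_apply, Fin.sum_univ_two] at e1 e2 e3
    refine Matrix.ext fun i j => ?_
    rw [nn]
    fin_cases i <;> fin_cases j <;> simp [e1, e2, e3]
  have hAs : A = A 0 0 • (1 : Matrix (Fin 2) (Fin 2) F) + A 0 1 • nn := by
    have e1 := congrFun (congrFun d1.1 0) 0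
    have e2 := congrFun (congrFun d1.1 0) 1
    rw [nn] at e1 e2
    simp [Matrix.mul_apply, Fin.sum_univ_two] at e1 e2
    refine Matrix.ext fun i j => ?_
    rw [nn]
    fin_cases i <;> fin_cases j
    · simp
    · simp
    · simpa using e1.symm
    · simpa using e2.symm
  set α := A 0 1 with hα
  set β := B 0 1 with hβ
  have hA00 : A 0 0 = 1 := by
    have hnil : IsNilpotent (X.1 - 1) := ⟨p, sub_one_pow_char p (congrArg Subtype.val hXp)⟩
    have htr := (Matrix.isNilpotent_trace_of_isNilpotent hnil).eq_zero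
    have h11 : A 1 1 = A 0 0 := by
      have := congrFun (congrFun hAs 1) 1
      rw [nn] at this
      simpa using this
    rw [Matrix.trace_sub, Matrix.trace_one, hXe, d3.1, trace_blocks,
      Matrix.trace_fin_two, h11, card_Ix] at htr
    push_cast at htr
    have h6 : (4 : F) ≠ 0 := by
      have : (4 : F) = 2 * 2 := by norm_num
      rw [this]; exact mul_ne_zero h2ne h2ne
    have h7 : 4 * (A 0 0 - 1) = 0 := by linear_combination htr
    exact sub_eq_zero.1 ((mul_eq_zero.1 h7).resolve_left h6)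
  rw [hA00, one_smul] at hAs
  have hXX : X.1 = XX α β := by
    rw [hXe, d3.1, d3.2, XX, ← hAs, ← hBs]
  -- the relation with the conjugate under `WW`
  have f4 : (WW * X * WW⁻¹) * X = X * (WW * X * WW⁻¹) := by
    apply lift_conj p _ hXp hXp
    rw [mk4_mul, mk4_mul, mk4_inv, hX, h4]
  have f4' : (WW * X * WW⁻¹).1 = fromBlocks (1 - α • mm) (β • mm) (β • mm) (1 - α • mm) := by
    apply conj_val_eq
    rw [hXX, WW_val, XX, one_sub_mm, one_add_nn, smul_mm, smul_nn, fromBlocks_multiply,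
      fromBlocks_multiply, fromBlocks_inj]
    refine ⟨?_, ?_, ?_, ?_⟩
    all_goals
      refine Matrix.ext fun i j => ?_
      fin_cases i <;> fin_cases j <;> simp
  have g4 : β * β = α * α := by
    have h : (WW * X * WW⁻¹).1 * X.1 = X.1 * (WW * X * WW⁻¹).1 := congrArg Subtype.val f4
    rw [f4', hXX, XX, fromBlocks_multiply, fromBlocks_multiply, fromBlocks_inj] at h
    have e := congrFun (congrFun h.1 0) 0
    rw [mm, nn] at e
    simp [Matrix.mul_apply, Fin.sum_univ_two] at e
    linear_combination -e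
  -- the braid relation
  have f5 : (X * blk1 (lo (-1))) * X = blk1 (lo (-1)) * (X * blk1 (lo (-1))) := by
    apply lift_conj p _ hXp
    · rw [← map_pow, lo_pow_p, map_one]
    · rw [mk4_mul, hX, h5, mul_assoc]
  have g5 : α = 1 := by
    have h : (X.1 * (blk1 (lo (-1))).1) * X.1 = (blk1 (lo (-1))).1 * (X.1 * (blk1 (lo (-1))).1) :=
      congrArg Subtype.val f5
    rw [hXX, XX, blk1_val, fromBlocks_multiply, fromBlocks_multiply, fromBlocks_multiply,
      fromBlocks_inj] at h
    have e := congrFun (congrFun h.1 1) 0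
    rw [lo_val, one_add_nn, smul_nn] at e
    simp at e
    linear_combination e
  rw [g5] at g4 hXX
  rcases mul_self_eq_mul_self_iff.1 g4 with hb | hb
  · left
    rw [← hX]
    congr 1
    apply Subtype.ext
    rw [hXX, hb, tvM_val]
  · right
    rw [← hX, ← mk4_mul, ← mk4_inv, ← mk4_mul]
    congr 1
    have : blk1 negI * X = tvM * blk1 negI := by
      apply Subtype.ext
      show (blk1 negI).1 * X.1 = tvM.1 * (blk1 negI).1
      rw [hXX, hb, tvM_val, XX, XX, blk1_val, negI_val, fromBlocks_multiply, fromBlocks_multiply]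
      simp
    rw [this]; group

end

end Pool.Agent.Lib.MP_ca8614_al
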