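import Pool.Agent.Lib.MP_ca8614_al.SpGen2

set_option autoImplicit false

open Matrix

namespace Pool.Agent.Lib.MP_ca8614_al

variable {F : Type*} [Field F]

/-- first factor -/
def B1 (F : Type*) [Field F] : SpecialLinearGroup (Fin 2) F →* SpB F :=
  blk1.codRestrict (SpB F) blk1_mem
/-- second factor -/
def B2 (F : Type*) [Field F] : SpecialLinearGroup (Fin 2) F →* SpB F :=
  blk2.codRestrict (SpB F) blk2_mem
/-- interchange of the factors -/
def Sw (F : Type*) [Field F] : SpB F := ⟨swp, swp_mem⟩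
/-- the transvection -/
def Tw (F : Type*) [Field F] : SpB F := ⟨tvM, tvM_mem⟩

theorem swp_blk1 (x : SpecialLinearGroup (Fin 2) F) : swp * blk1 x = blk2 x * swp := by
  apply Subtype.ext
  show swp.1 * (blk1 x).1 = (blk2 x).1 * swp.1
  rw [swp_val, blk1_val, blk2_val, fromBlocks_multiply, fromBlocks_multiply]
  simp

theorem swp_blk2 (x : SpecialLinearGroup (Fin 2) F) : swp * blk2 x = blk1 x * swp := by
  apply Subtype.ext
  show swp.1 * (blk2 x).1 = (blk1 x).1 * swp.1
  rw [swp_val, blk1_val, blk2_val, fromBlocks_multiply, fromBlocks_multiply]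
  simp

theorem swp_sq : (swp : SpecialLinearGroup Ix F) ^ 2 = 1 := by
  rw [sq]
  apply Subtype.ext
  show swp.1 * swp.1 = (1 : Matrix Ix Ix F)
  rw [swp_val, fromBlocks_multiply, ← fromBlocks_one]
  simp

theorem tv_blk1 : (tvM : SpecialLinearGroup Ix F) * blk1 (up 1) = blk1 (up 1) * tvM := by
  apply Subtype.ext
  show tvM.1 * (blk1 (up 1)).1 = (blk1 (up 1)).1 * tvM.1
  rw [tvM_val, XX, blk1_val, up_val, one_add_nn, smul_nn, fromBlocks_multiply,
    fromBlocks_multiply, fromBlocks_inj]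
  refine ⟨?_, ?_, ?_, ?_⟩
  all_goals
    refine Matrix.ext fun i j => ?_
    fin_cases i <;> fin_cases j <;> simp

theorem tv_blk2 : (tvM : SpecialLinearGroup Ix F) * blk2 (up 1) = blk2 (up 1) * tvM := by
  apply Subtype.ext
  show tvM.1 * (blk2 (up 1)).1 = (blk2 (up 1)).1 * tvM.1
  rw [tvM_val, XX, blk2_val, up_val, one_add_nn, smul_nn, fromBlocks_multiply,
    fromBlocks_multiply, fromBlocks_inj]
  refine ⟨?_, ?_, ?_, ?_⟩
  all_goals
    refine Matrix.ext fun i j => ?_
    fin_cases i <;> fin_cases j <;> simp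

theorem tv_swp : (tvM : SpecialLinearGroup Ix F) * swp = swp * tvM := by
  apply Subtype.ext
  show tvM.1 * swp.1 = swp.1 * tvM.1
  rw [tvM_val, XX, swp_val, fromBlocks_multiply, fromBlocks_multiply]
  simp

theorem tv_WW : (tvM : SpecialLinearGroup Ix F) * (WW * tvM * WW⁻¹) = (WW * tvM * WW⁻¹) * tvM := by
  have h : ((WW : SpecialLinearGroup Ix F) * tvM * WW⁻¹).1 =
      fromBlocks !![1, 0; -1, 1] !![0, 0; 1, 0] !![0, 0; 1, 0] !![1, 0; -1, 1] := by
    apply conj_val_eq
    rw [tvM_val, WW_val, XX, one_add_nn, smul_nn, fromBlocks_multiply, fromBlocks_multiply,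
      fromBlocks_inj]
    refine ⟨?_, ?_, ?_, ?_⟩
    all_goals
      refine Matrix.ext fun i j => ?_
      fin_cases i <;> fin_cases j <;> simp
  apply Subtype.ext
  show tvM.1 * (WW * tvM * WW⁻¹).1 = (WW * tvM * WW⁻¹).1 * tvM.1
  rw [h, tvM_val, XX, one_add_nn, smul_nn, fromBlocks_multiply, fromBlocks_multiply,
    fromBlocks_inj]
  refine ⟨?_, ?_, ?_, ?_⟩
  all_goals
    refine Matrix.ext fun i j => ?_
    fin_cases i <;> fin_cases j <;> simp

theorem tv_braid : (tvM : SpecialLinearGroup Ix F) * blk1 (lo (-1)) * tvM =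
    blk1 (lo (-1)) * tvM * blk1 (lo (-1)) := by
  apply Subtype.ext
  show tvM.1 * (blk1 (lo (-1))).1 * tvM.1 = (blk1 (lo (-1))).1 * tvM.1 * (blk1 (lo (-1))).1
  rw [tvM_val, XX, blk1_val, lo_val, one_add_nn, smul_nn, fromBlocks_multiply,
    fromBlocks_multiply, fromBlocks_multiply, fromBlocks_multiply, fromBlocks_inj]
  refine ⟨?_, ?_, ?_, ?_⟩
  all_goals
    refine Matrix.ext fun i j => ?_
    fin_cases i <;> fin_cases j <;> simp

theorem tv_pow (p : ℕ) [hp : Fact p.Prime] [CharP F p] :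
    (tvM : SpecialLinearGroup Ix F) ^ p = 1 := by
  apply Subtype.ext
  show (tvM : SpecialLinearGroup Ix F).1 ^ p = 1
  set N : Matrix Ix Ix F := fromBlocks nn nn nn nn with hN
  have h1 : (tvM : SpecialLinearGroup Ix F).1 = 1 + N := by
    rw [tvM_val, XX, hN, ← fromBlocks_one, fromBlocks_add, one_smul, zero_add]
  have h2 : N ^ 2 = 0 := by
    rw [hN, sq, fromBlocks_multiply, nn_sq]
    simp
  rw [h1, add_pow_char_of_commute p (Commute.one_left N), one_pow]
  obtain ⟨k, hk⟩ := Nat.exists_eq_add_of_le hp.out.two_le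
  rw [hk, pow_add, h2, zero_mul, add_zero]

/-- **Rigidity.** Every homomorphism `SpB F → PSL 4` with kernel `{1, -1}` is, up to an
automorphism of `PSL 4`, the natural one. -/
theorem rigid (p : ℕ) [hp : Fact p.Prime] [CharP F p] (hp2 : p ≠ 2) [Finite F]
    (hq : ∀ r : F, r ^ 4 = 1 → ∃ ζ, ζ ^ 2 = r)
    (Ψ : SpB F →* ProjectiveSpecialLinearGroup Ix F)
    (hker : ∀ g : SpB F, Ψ g = 1 → g.1.1 = 1 ∨ g.1.1 = -1)
    (hneg : Ψ (B1 F negI * B2 F negI) = 1) :
    ∃ β : ProjectiveSpecialLinearGroup Ix F ≃* ProjectiveSpecialLinearGroup Ix F,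
      ∀ g : SpB F, β (Ψ g) = mk4 g.1 := by
  have h2ne : (2 : F) ≠ 0 := two_ne_zero_of_char p hp2
  have h11 : (1 : F) ≠ -1 := by
    intro h
    apply h2ne
    linear_combination h
  have hi1 : Function.Injective (Ψ.comp (B1 F)) := by
    rw [injective_iff_map_eq_one]
    intro x hx
    rcases hker _ hx with h | h
    · have h' : fromBlocks x.1 0 0 1 = (1 : Matrix Ix Ix F) := h
      rw [← fromBlocks_one, fromBlocks_inj] at h'
      exact Subtype.ext h'.1
    · exfalso
      have h' : fromBlocks x.1 0 0 1 = (-1 : Matrix Ix Ix F) := h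
      rw [← fromBlocks_one, fromBlocks_neg, fromBlocks_inj] at h'
      have := congrFun (congrFun h'.2.2.2 0) 0
      simp at this
      exact h11 this
  have hi2 : Function.Injective (Ψ.comp (B2 F)) := by
    rw [injective_iff_map_eq_one]
    intro x hx
    rcases hker _ hx with h | h
    · have h' : fromBlocks 1 0 0 x.1 = (1 : Matrix Ix Ix F) := h
      rw [← fromBlocks_one, fromBlocks_inj] at h'
      exact Subtype.ext h'.2.2.2
    · exfalso
      have h' : fromBlocks 1 0 0 x.1 = (-1 : Matrix Ix Ix F) := h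
      rw [← fromBlocks_one, fromBlocks_neg, fromBlocks_inj] at h'
      have := congrFun (congrFun h'.1 0) 0
      simp at this
      exact h11 this
  have hB12 : ∀ x y, B1 F x * B2 F y = B2 F y * B1 F x := by
    intro x y
    exact Subtype.ext (blk_comm x y)
  obtain ⟨β1, k1, k2, k3⟩ := normal_form p hp2 hq (Ψ.comp (B1 F)) (Ψ.comp (B2 F)) hi1 hi2
    (by
      intro x y
      show Ψ (B1 F x) * Ψ (B2 F y) = Ψ (B2 F y) * Ψ (B1 F x)
      rw [← map_mul, hB12, map_mul])
    (by
      show Ψ (B1 F negI) = Ψ (B2 F negI)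
      rw [map_mul] at hneg
      have h3 : Ψ (B2 F negI) * Ψ (B2 F negI) = 1 := by
        rw [← map_mul, ← map_mul, negI_sq, map_one, map_one]
      exact mul_right_cancel (hneg.trans h3.symm))
    (Ψ (Sw F))
    (by
      intro x
      show Ψ (Sw F) * Ψ (B1 F x) = Ψ (B2 F x) * Ψ (Sw F)
      rw [← map_mul, ← map_mul]
      congr 1
      exact Subtype.ext (swp_blk1 x))
    (by
      intro x
      show Ψ (Sw F) * Ψ (B2 F x) = Ψ (B1 F x) * Ψ (Sw F)
      rw [← map_mul, ← map_mul]
      congr 1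
      exact Subtype.ext (swp_blk2 x))
    (by
      rw [← map_pow]
      have : (Sw F) ^ 2 = 1 := Subtype.ext swp_sq
      rw [this, map_one])
  set Φ : SpB F →* ProjectiveSpecialLinearGroup Ix F := β1.toMonoidHom.comp Ψ with hΦ
  have m1 : ∀ x, Φ (B1 F x) = mk4 (blk1 x) := k1
  have m2 : ∀ x, Φ (B2 F x) = mk4 (blk2 x) := k2
  have m3 : Φ (Sw F) = mk4 swp := k3
  have mW : Φ (B1 F ww * B2 F (ww * negI)) = mk4 WW := by
    rw [map_mul, m1, m2, ← mk4_mul]; rfl
  have hpin := pin p hp2 (Φ (Tw F))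
    (by
      rw [← map_pow]
      have : (Tw F) ^ p = 1 := Subtype.ext (tv_pow p)
      rw [this, map_one])
    (by
      rw [← m1, ← map_mul, ← map_mul]
      congr 1
      exact Subtype.ext tv_blk1)
    (by
      rw [← m2, ← map_mul, ← map_mul]
      congr 1
      exact Subtype.ext tv_blk2)
    (by
      rw [← m3, ← map_mul, ← map_mul]
      congr 1
      exact Subtype.ext tv_swp)
    (by
      rw [← mW, ← map_inv, ← map_mul, ← map_mul, ← map_mul, ← map_mul]
      congr 1
      exact Subtype.ext tv_WW)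
    (by
      rw [← m1, ← map_mul, ← map_mul, ← map_mul, ← map_mul]
      congr 1
      exact Subtype.ext tv_braid)
  -- final automorphism
  have hfin : ∃ β2 : ProjectiveSpecialLinearGroup Ix F ≃* ProjectiveSpecialLinearGroup Ix F,
      (∀ x, β2 (mk4 (blk1 x)) = mk4 (blk1 x)) ∧ (∀ x, β2 (mk4 (blk2 x)) = mk4 (blk2 x)) ∧
      β2 (mk4 swp) = mk4 swp ∧ β2 (Φ (Tw F)) = mk4 tvM := by
    rcases hpin with h | h
    · exact ⟨MulEquiv.refl _, fun x => rfl, fun x => rfl, rfl, h⟩
    · refine ⟨MulAut.conj (mk4 (blk1 negI)), ?_, ?_, ?_, h⟩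
      · intro x
        rw [MulAut.conj_apply, ← mk4_mul, ← mk4_inv, ← mk4_mul]
        congr 1
        rw [← map_mul, negI_comm, map_mul, mul_inv_cancel_right]
      · intro x
        rw [MulAut.conj_apply, ← mk4_mul, ← mk4_inv, ← mk4_mul]
        congr 1
        rw [blk_comm, mul_inv_cancel_right]
      · rw [MulAut.conj_apply, mul_inv_eq_iff_eq_mul, ← mk4_mul, ← mk4_mul, mk4_eq_iff]
        refine ⟨-1, by norm_num, ?_⟩
        show swp.1 * (blk1 negI).1 = (-1 : F) • ((blk1 negI).1 * swp.1)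
        rw [swp_val, blk1_val, negI_val, fromBlocks_multiply, fromBlocks_multiply,
          fromBlocks_smul]
        simp
  obtain ⟨β2, n1, n2, n3, n4⟩ := hfin
  refine ⟨β1.trans β2, ?_⟩
  have key : ∀ g ∈ Gam F, ∀ h : g ∈ SpB F, β2 (Φ ⟨g, h⟩) = mk4 g := by
    intro g hg
    induction hg using Subgroup.closure_induction with
    | mem g hg =>
      intro h
      rcases hg with (⟨x, rfl⟩ | ⟨x, rfl⟩) | hg
      · exact (congrArg β2 (m1 x)).trans (n1 x)
      · exact (congrArg β2 (m2 x)).trans (n2 x)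
      · rcases hg with rfl | rfl
        · exact (congrArg β2 m3).trans n3
        · exact n4
    | one =>
      intro h
      have : (⟨1, h⟩ : SpB F) = 1 := rfl
      rw [this, map_one, map_one]; rfl
    | mul a b ha hb iha ihb =>
      intro h
      have ha' : a ∈ SpB F := Gam_le ha
      have hb' : b ∈ SpB F := Gam_le hb
      have : (⟨a * b, h⟩ : SpB F) = ⟨a, ha'⟩ * ⟨b, hb'⟩ := rfl
      rw [this, map_mul, map_mul, iha ha', ihb hb', mk4_mul]
    | inv a ha iha =>
      intro h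
      have ha' : a ∈ SpB F := Gam_le ha
      have : (⟨a⁻¹, h⟩ : SpB F) = ⟨a, ha'⟩⁻¹ := rfl
      rw [this, map_inv, map_inv, iha ha', mk4_inv]
  intro g
  exact key g.1 (SpB_le_Gam g.2) g.2

end Pool.Agent.Lib.MP_ca8614_al
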