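import Mathlib

set_option autoImplicit false

open Matrix Matrix.SpecialLinearGroup

namespace Pool.Agent.Lib.MP_ca8614_al

/-! # Simplicity of PSL(n, F), n at least 3 (Iwasawa criterion) -/

variable {ι F : Type*} [Fintype ι] [DecidableEq ι] [Field F]

theorem w_eq {i j : ι} (hij : i ≠ j) (a b : F) (hab : a * b = 1) :
    (1 + single i j a : Matrix ι ι F) * (1 + single j i (-b)) * (1 + single i j a) =
    1 + single i j a + single j i (-b) + single i i (-1) + single j j (-1) := by
  have hji := hij.symm
  have h1 : single i j a * single i j a = (0 : Matrix ι ι F) :=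
    single_mul_single_of_ne a i j i hji a
  have h2 : single i j a * single j i (-b) = (single i i (-1) : Matrix ι ι F) := by
    rw [single_mul_single_same]; congr 1; linear_combination -hab
  have h3 : single j i (-b) * single i j a = (single j j (-1) : Matrix ι ι F) := by
    rw [single_mul_single_same]; congr 1; linear_combination -hab
  have h4 : single i i (-1) * single i j a = (single i j (-a) : Matrix ι ι F) := by
    rw [single_mul_single_same]; congr 1; ring
  have h5 : (single i j (-a) : Matrix ι ι F) = - single i j a := by rw [← single_neg]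
  have e : (1 + single i j a : Matrix ι ι F) * (1 + single j i (-b)) * (1 + single i j a) =
    1 + single i j a + single j i (-b) + single i j a * single j i (-b) +
    (single i j a + single i j a * single i j a + single j i (-b) * single i j a +
    (single i j a * single j i (-b)) * single i j a) := by noncomm_ring
  rw [e, h2, h1, h3, h4, h5]
  abel

theorem w_mul {i j : ι} (hij : i ≠ j) (a b : F) :
    (1 + single i j a + single j i (-b) + single i i (-1) + single j j (-1) : Matrix ι ι F) *
    (1 + single i j (-1) + single j i 1 + single i i (-1) + single j j (-1)) =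
    1 + single i i (a - 1) + single j j (b - 1) := by
  have hji := hij.symm
  have n1 : ∀ c d : F, (single i j c * single i j d : Matrix ι ι F) = 0 :=
    fun c d => single_mul_single_of_ne c i j i hji d
  have n2 : ∀ c d : F, (single j i c * single j i d : Matrix ι ι F) = 0 :=
    fun c d => single_mul_single_of_ne c j i j hij d
  have n3 : ∀ c d : F, (single i j c * single i i d : Matrix ι ι F) = 0 :=
    fun c d => single_mul_single_of_ne c i j i hji d
  have n4 : ∀ c d : F, (single j i c * single j j d : Matrix ι ι F) = 0 :=
    fun c d => single_mul_single_of_ne c j i j hij d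
  have n5 : ∀ c d : F, (single i i c * single j i d : Matrix ι ι F) = 0 :=
    fun c d => single_mul_single_of_ne c i i j hij d
  have n6 : ∀ c d : F, (single i i c * single j j d : Matrix ι ι F) = 0 :=
    fun c d => single_mul_single_of_ne c i i j hij d
  have n7 : ∀ c d : F, (single j j c * single i j d : Matrix ι ι F) = 0 :=
    fun c d => single_mul_single_of_ne c j j i hji d
  have n8 : ∀ c d : F, (single j j c * single i i d : Matrix ι ι F) = 0 :=
    fun c d => single_mul_single_of_ne c j j i hji d
  have sneg : ∀ (k l : ι) (c : F), (single k l (-c) : Matrix ι ι F) = - single k l c := by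
    intro k l c
    exact (single_neg k l c).symm
  simp only [mul_add, add_mul, one_mul, mul_one, single_mul_single_same,
    n1, n2, n3, n4, n5, n6, n7, n8, add_zero, mul_neg, neg_neg, sub_eq_add_neg, single_add]
  simp only [sneg]
  abel

theorem diag2n_eq {i j : ι} (hij : i ≠ j) (a : F) (ha : a ≠ 0) :
    diag2n hij a ha = transvection hij a * transvection hij.symm (-a⁻¹) * transvection hij a *
      (transvection hij (-1) * transvection hij.symm 1 * transvection hij (-1)) := by
  have h1 := w_eq hij a a⁻¹ (mul_inv_cancel₀ ha)
  have h2 := w_eq hij (-1 : F) (-1) (by norm_num)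
  have h3 := w_mul hij a a⁻¹
  rw [neg_neg] at h2
  rw [← h1, ← h2] at h3
  refine Subtype.ext (Eq.trans ?_ h3.symm)
  rw [diag2n_coe]
  refine Matrix.ext fun k l => ?_
  rw [Matrix.add_apply, Matrix.add_apply, Matrix.single_apply, Matrix.single_apply,
    Matrix.diagonal_apply, Matrix.one_apply]
  by_cases hkl : k = l
  · subst hkl
    by_cases hki : k = i
    · subst hki
      simp [hij.symm]
    · by_cases hkj : k = j
      · subst hkj
        simp [hij, hki]
      · simp [hki, hkj, Ne.symm hki, Ne.symm hkj]
  · have h4 : ¬ (i = k ∧ i = l) := fun h => hkl (h.1.symm.trans h.2)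
    have h5 : ¬ (j = k ∧ j = l) := fun h => hkl (h.1.symm.trans h.2)
    simp [hkl, h4, h5]

theorem transvection_induction_SL [Nontrivial ι] (P : SpecialLinearGroup ι F → Prop)
    (htransvec : ∀ (i j : ι) (h : i ≠ j) c, P (transvection h c))
    (hmul : ∀ A B, P A → P B → P (A * B)) (A : SpecialLinearGroup ι F) : P A := by
  refine diagonal_transvection_induction' P _ (fun i j hij c hc ↦ ?_) htransvec hmul
  rw [diag2n_eq]
  exact hmul _ _ (hmul _ _ (hmul _ _ (htransvec _ _ _ _) (htransvec _ _ _ _)) (htransvec _ _ _ _))
    (hmul _ _ (hmul _ _ (htransvec _ _ _ _) (htransvec _ _ _ _)) (htransvec _ _ _ _))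

open scoped commutatorElement

theorem commutator_transvection {i j k : ι} (hij : i ≠ j) (hik : i ≠ k) (hkj : k ≠ j) (a : F) :
    ⁅transvection hik a, transvection hkj (1 : F)⁆ = transvection hij a := by
  rw [commutatorElement_def, SpecialLinearGroup.transvection_inv, SpecialLinearGroup.transvection_inv]
  have e : (1 + single i k a : Matrix ι ι F) * (1 + single k j 1) * (1 + single i k (-a)) *
      (1 + single k j (-1)) = 1 + single i j a := by
    have n1 : ∀ c d : F, (single i k c * single i k d : Matrix ι ι F) = 0 :=
      fun c d => single_mul_single_of_ne c i k i hik.symm d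
    have n2 : ∀ c d : F, (single k j c * single k j d : Matrix ι ι F) = 0 :=
      fun c d => single_mul_single_of_ne c k j k hkj.symm d
    have n3 : ∀ c d : F, (single k j c * single i k d : Matrix ι ι F) = 0 :=
      fun c d => single_mul_single_of_ne c k j i hij.symm d
    have n4 : ∀ c d : F, (single i j c * single i k d : Matrix ι ι F) = 0 :=
      fun c d => single_mul_single_of_ne c i j i hij.symm d
    have n5 : ∀ c d : F, (single i j c * single k j d : Matrix ι ι F) = 0 :=
      fun c d => single_mul_single_of_ne c i j k hkj.symm d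
    have sneg : ∀ (k l : ι) (c : F), (single k l (-c) : Matrix ι ι F) = - single k l c := by
      intro k l c
      exact (single_neg k l c).symm
    simp only [mul_add, add_mul, one_mul, mul_one, single_mul_single_same,
      n1, n2, n3, n4, n5, add_zero, zero_add, mul_neg, neg_neg]
    simp only [sneg]
    abel
  exact Subtype.ext e

theorem SL_commutator_eq_top [Nontrivial ι] (h3 : ∀ i j : ι, ∃ k, i ≠ k ∧ k ≠ j) :
    commutator (SpecialLinearGroup ι F) = ⊤ := by
  rw [eq_top_iff]
  intro A _
  refine transvection_induction_SL (fun A => A ∈ commutator (SpecialLinearGroup ι F)) ?_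
    (fun A B hA hB => mul_mem hA hB) A
  intro i j hij c
  obtain ⟨k, hik, hkj⟩ := h3 i j
  show transvection hij c ∈ _
  rw [← commutator_transvection hij hik hkj c]
  exact Subgroup.commutator_mem_commutator (Subgroup.mem_top _) (Subgroup.mem_top _)

open scoped LinearAlgebra.Projectivization

theorem iSup_lineStab_eq_top [Nontrivial ι] :
    (⨆ p : ℙ F (ι → F), lineStab p.submodule) = (⊤ : Subgroup (SpecialLinearGroup ι F)) := by
  rw [eq_top_iff]
  intro A _
  refine transvection_induction_SL (fun A => A ∈ ⨆ p : ℙ F (ι → F), lineStab p.submodule) ?_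
    (fun A B hA hB => mul_mem hA hB) A
  intro i j hij c
  have h := SL2Gen.transvection_mem_lineStab hij c
  rw [← Projectivization.submodule_mk (K := F) _ (Pi.single_ne_zero_iff.2 one_ne_zero)] at h
  exact (le_iSup (fun p : ℙ F (ι → F) => lineStab p.submodule) _) h

theorem iSup_iwasawaT_eq_top [Nontrivial ι] :
    iSup (PSL.iwasawaT (F := F) (ι := ι)) = ⊤ := by
  have step1 : iSup (PSL.iwasawaT (F := F) (ι := ι)) =
      Subgroup.map (QuotientGroup.mk' (Subgroup.center (Matrix.SpecialLinearGroup ι F)))
        (⨆ p : ℙ F (ι → F),
          Matrix.SpecialLinearGroup.lineStab (F := F) (ι := ι) p.submodule) := by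
    rw [Subgroup.map_iSup]
  rw [step1, iSup_lineStab_eq_top]
  exact Subgroup.map_top_of_surjective _ (QuotientGroup.mk'_surjective _)

open MulAction

/-- The Iwasawa structure on PSL(n, F). -/
noncomputable def PSLIwasawa [Nontrivial ι] :
    IwasawaStructure (Matrix.ProjectiveSpecialLinearGroup ι F) (ℙ F (ι → F)) where
  T := PSL.iwasawaT
  is_comm p := by
    have hSL : IsMulCommutative (lineStab (F := F) (ι := ι) p.submodule) := by
      rw [← Projectivization.mk_rep p, Projectivization.submodule_mk]
      exact lineStab_isMulCommutative_of_span p.rep p.rep_nonzero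
    exact Subgroup.map_isMulCommutative _ _
  is_conj g p := by
    obtain ⟨g_SL, rfl⟩ := QuotientGroup.mk_surjective g
    rw [Matrix.ProjectiveSpecialLinearGroup.smul_proj_mk]
    change Subgroup.map _ _ = _
    rw [PSL.smul_submodule, Matrix.SpecialLinearGroup.lineStab_smul,
      PSL.iwasawaT_map_conj]
  is_generator := iSup_iwasawaT_eq_top

theorem isSimpleGroup_PSL [Nontrivial ι] (h3 : ∀ i j : ι, ∃ k, i ≠ k ∧ k ≠ j) :
    IsSimpleGroup (Matrix.ProjectiveSpecialLinearGroup ι F) := by
  have : Group.IsPerfect (SpecialLinearGroup ι F) := ⟨SL_commutator_eq_top h3⟩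
  have h1 : Group.IsPerfect (Matrix.ProjectiveSpecialLinearGroup ι F) := inferInstance
  exact MulAction.IwasawaStructure.isSimpleGroup h1.commutator_eq_top PSLIwasawa inferInstance

end Pool.Agent.Lib.MP_ca8614_al
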