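import Pool.Agent.Lib.MP_ca8614_al.SimplePSp
import Pool.Agent.Lib.MP_ca8614_al.SimplePSL
import Pool.Agent.Lib.MP_ca8614_al.Envelope

set_option autoImplicit false

open Matrix

namespace Pool.Agent.Lib.MP_ca8614_al

variable {F : Type*} [Field F]

theorem mem_center_of_eSp (A : symplecticGroup (Fin 2) F)
    (h : (eSp F A).1.1 = 1 ∨ (eSp F A).1.1 = -1) :
    A ∈ Subgroup.center (symplecticGroup (Fin 2) F) := by
  rw [Subgroup.mem_center_iff]
  intro B
  apply (eSp F).injective
  rw [map_mul, map_mul]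
  apply Subtype.ext
  apply Subtype.ext
  show (eSp F B).1.1 * (eSp F A).1.1 = (eSp F A).1.1 * (eSp F B).1.1
  rcases h with h | h
  · rw [h, Matrix.mul_one, Matrix.one_mul]
  · rw [h, Matrix.mul_neg, Matrix.neg_mul, Matrix.mul_one, Matrix.one_mul]

/-- `PSp(4, F)` is not commutative. -/
theorem PSp4_noncomm (h2 : (2 : F) ≠ 0) : ∃ a b : PSp4 F, a * b ≠ b * a := by
  obtain ⟨A, hA⟩ := (eSp F).surjective (B1 F (up 1))
  obtain ⟨B, hB⟩ := (eSp F).surjective (B1 F (lo 1))
  refine ⟨QuotientGroup.mk A, QuotientGroup.mk B, ?_⟩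
  intro h
  have h1 : (QuotientGroup.mk (A * B) : PSp4 F) = QuotientGroup.mk (B * A) := h
  rw [QuotientGroup.eq] at h1
  have h3 := central_Sp h2 _ h1
  set C := (A * B)⁻¹ * (B * A) with hC
  have hC' : (A * B) * C = B * A := by rw [hC]; group
  have h4 : (eSp F A).1.1 * (eSp F B).1.1 * (eSp F C).1.1 =
      (eSp F B).1.1 * (eSp F A).1.1 := by
    have := congrArg (fun z => (eSp F z).1.1) hC'
    simp only [map_mul] at this
    exact this
  have e1 : (eSp F A).1.1 = fromBlocks !![1, 1; 0, 1] 0 0 1 := by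
    rw [hA]; show (blk1 (up 1)).1 = _; rw [blk1_val, up_val]
  have e2 : (eSp F B).1.1 = fromBlocks !![1, 0; 1, 1] 0 0 1 := by
    rw [hB]; show (blk1 (lo 1)).1 = _; rw [blk1_val, lo_val]
  rw [e1, e2] at h4
  rcases h3 with h3 | h3
  · rw [h3, Matrix.mul_one, fromBlocks_multiply, fromBlocks_multiply, fromBlocks_inj] at h4
    have := congrFun (congrFun h4.1 0) 0
    simp at this
  · rw [h3, Matrix.mul_neg, Matrix.mul_one, fromBlocks_multiply, fromBlocks_multiply,
      fromBlocks_neg, fromBlocks_inj] at h4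
    have := congrFun (congrFun h4.2.2.2 0) 0
    simp at this
    apply h2
    linear_combination -this

/-- **Simplicity of `PSp(4, F)`** in characteristic not two. -/
theorem isSimpleGroup_PSp4 (h2 : (2 : F) ≠ 0) (hF : ∃ a : F, a ≠ 0 ∧ a ^ 2 ≠ 1) :
    IsSimpleGroup (PSp4 F) := by
  obtain ⟨a, b, hab⟩ := PSp4_noncomm h2
  have hnt : Nontrivial (PSp4 F) := ⟨a, b, fun h => hab (by rw [h])⟩
  refine ⟨?_⟩
  intro N hN
  set N' := N.comap (QuotientGroup.mk' (Subgroup.center (symplecticGroup (Fin 2) F))) with hN'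
  have hN'n : N'.Normal := Subgroup.Normal.comap hN _
  by_cases hex : ∃ A ∈ N', (eSp F A).1.1 ≠ 1 ∧ (eSp F A).1.1 ≠ -1
  · right
    obtain ⟨A, hA, hA1, hA2⟩ := hex
    set H := (N'.map (eSp F).toMonoidHom).map (SpB F).subtype with hH
    have hmem : ∀ B ∈ N', (eSp F B).1 ∈ H := fun B hB =>
      Subgroup.mem_map_of_mem _ (Subgroup.mem_map_of_mem _ hB)
    have hmem' : ∀ x ∈ H, ∃ B ∈ N', (eSp F B).1 = x := by
      rintro _ ⟨_, ⟨B, hB, rfl⟩, rfl⟩
      exact ⟨B, hB, rfl⟩
    have hle : H ≤ SpB F := by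
      intro x hx
      obtain ⟨B, -, rfl⟩ := hmem' x hx
      exact (eSp F B).2
    have hn : NormBy H := by
      intro h hh g hg
      obtain ⟨B, hB, rfl⟩ := hmem' h hh
      obtain ⟨C, hC⟩ := (eSp F).surjective ⟨g, hg⟩
      have hC' : (eSp F C).1 = g := by rw [hC]
      have h3 := hmem _ (hN'n.conj_mem B hB C⁻¹)
      rw [map_mul, map_mul, inv_inv, map_inv] at h3
      rw [← hC']
      exact h3
    have h4 := SpB_le_of_normBy hF H hle hn _ (hmem A hA) hA1 hA2
    rw [eq_top_iff]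
    intro x _
    obtain ⟨B, rfl⟩ := QuotientGroup.mk_surjective x
    obtain ⟨C, hC, hCB⟩ := hmem' _ (h4 (eSp F B).2)
    have h5 : C = B := (eSp F).injective (Subtype.ext hCB)
    rw [← h5]
    exact hC
  · left
    push Not at hex
    rw [eq_bot_iff]
    intro x hx
    obtain ⟨B, rfl⟩ := QuotientGroup.mk_surjective x
    rw [Subgroup.mem_bot, QuotientGroup.eq_one_iff]
    apply mem_center_of_eSp
    by_cases h : (eSp F B).1.1 = 1
    · exact Or.inl h
    · exact Or.inr (hex B hx h)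

theorem exists_sq_ne_one (h4 : 4 ≤ Nat.card F) [Finite F] : ∃ a : F, a ≠ 0 ∧ a ^ 2 ≠ 1 := by
  by_contra h
  push Not at h
  have h1 : ∀ a : F, a = 0 ∨ a = 1 ∨ a = -1 := by
    intro a
    by_cases ha : a = 0
    · exact Or.inl ha
    · right
      have := h a ha
      rw [sq] at this
      exact mul_self_eq_one_iff.1 this
  classical
  have _ := Fintype.ofFinite F
  have h2 : (Finset.univ : Finset F) ⊆ {0, 1, -1} := by
    intro a _
    simp only [Finset.mem_insert, Finset.mem_singleton]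
    exact h1 a
  have h3 := Finset.card_le_card h2
  have h5 : ({0, 1, -1} : Finset F).card ≤ 3 := Finset.card_le_three
  rw [Nat.card_eq_fintype_card, ← Finset.card_univ] at h4
  omega

end Pool.Agent.Lib.MP_ca8614_al
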