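import Pool.Agent.Lib.MP_ca8614_al.SpGenH

set_option autoImplicit false

open Matrix

namespace Pool.Agent.Lib.MP_ca8614_al

variable {F : Type*} [Field F]

/-- the alternating form on row vectors -/
def Bf (u v : Ix → F) : F := (u ᵥ* Om) ⬝ᵥ v

theorem Bf_eq (u v : Ix → F) : Bf u v = u (Sum.inl 1) * v (Sum.inl 0) -
    u (Sum.inl 0) * v (Sum.inl 1) + (u (Sum.inr 1) * v (Sum.inr 0) -
    u (Sum.inr 0) * v (Sum.inr 1)) := by
  have hue : u = Sum.elim (u ∘ Sum.inl) (u ∘ Sum.inr) := (Sum.elim_comp_inl_inr u).symm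
  rw [Bf]
  conv_lhs => rw [hue]
  have t1 : vecHead (vecTail (u ∘ Sum.inl)) = u (Sum.inl 1) := rfl
  have t2 : vecHead (u ∘ Sum.inl) = u (Sum.inl 0) := rfl
  have t3 : vecHead (vecTail (u ∘ Sum.inr)) = u (Sum.inr 1) := rfl
  have t4 : vecHead (u ∘ Sum.inr) = u (Sum.inr 0) := rfl
  rw [Om, vecMul_fromBlocks, om, dotProduct, Fintype.sum_sum_type]
  simp [Fin.sum_univ_two, t1, t2, t3, t4]
  ring

theorem Bf_self (u : Ix → F) : Bf u u = 0 := by rw [Bf_eq]; ring

theorem Bf_anti (u v : Ix → F) : Bf u v = - Bf v u := by rw [Bf_eq, Bf_eq]; ring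

theorem Bf_add_left (u u' v : Ix → F) : Bf (u + u') v = Bf u v + Bf u' v := by
  simp only [Bf_eq, Pi.add_apply]; ring

theorem Bf_smul_left (c : F) (u v : Ix → F) : Bf (c • u) v = c * Bf u v := by
  simp only [Bf_eq, Pi.smul_apply, smul_eq_mul]; ring

theorem Bf_add_right (u v v' : Ix → F) : Bf u (v + v') = Bf u v + Bf u v' := by
  simp only [Bf_eq, Pi.add_apply]; ring

theorem Bf_smul_right (c : F) (u v : Ix → F) : Bf u (c • v) = c * Bf u v := by
  simp only [Bf_eq, Pi.smul_apply, smul_eq_mul]; ring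

theorem Bf_nondeg (z : Ix → F) (h : ∀ u, Bf u z = 0) : z = 0 := by
  have h1 := h (Pi.single (Sum.inl 0) 1)
  have h2 := h (Pi.single (Sum.inl 1) 1)
  have h3 := h (Pi.single (Sum.inr 0) 1)
  have h4 := h (Pi.single (Sum.inr 1) 1)
  rw [Bf_eq] at h1 h2 h3 h4
  simp at h1 h2 h3 h4
  funext i
  rcases i with i | i <;> fin_cases i
  · exact h2
  · exact h1
  · exact h4
  · exact h3

theorem Bf_inv {g : SpecialLinearGroup Ix F} (hg : g ∈ SpB F) (u v : Ix → F) :
    Bf (u ᵥ* g.1) (v ᵥ* g.1) = Bf u v := by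
  have h : g.1 * Om * g.1ᵀ = Om := hg
  rw [Bf, Bf, vecMul_vecMul]
  have h1 : v ᵥ* g.1 = g.1ᵀ *ᵥ v := (mulVec_transpose _ _).symm
  rw [h1, dotProduct_mulVec, vecMul_vecMul, h]

/-- two vectors that are not proportional can be separated by the form -/
theorem exists_sep (v w : Ix → F) (hw : w ≠ 0) (h : ∀ c : F, v ≠ c • w) :
    ∃ u, Bf u v ≠ 0 ∧ Bf u w = 0 := by
  by_contra hcon
  push Not at hcon
  have h1 : ∃ a, Bf a w ≠ 0 := by
    by_contra h2
    push Not at h2
    exact hw (Bf_nondeg w h2)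
  obtain ⟨a, ha⟩ := h1
  apply h (Bf a v * (Bf a w)⁻¹)
  have h3 : v + (-(Bf a v * (Bf a w)⁻¹)) • w = 0 := by
    apply Bf_nondeg
    intro u
    rw [Bf_add_right, Bf_smul_right]
    have h4 := hcon (u + (-(Bf u w * (Bf a w)⁻¹)) • a)
    rw [Bf_add_left, Bf_smul_left, Bf_add_left, Bf_smul_left] at h4
    by_cases h5 : Bf u v + -(Bf u w * (Bf a w)⁻¹) * Bf a v = 0
    · linear_combination h5
    · exfalso
      apply h4 h5
      field_simp
      ring
  rw [neg_smul] at h3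
  exact sub_eq_zero.1 (by rw [sub_eq_add_neg]; exact h3)

theorem ext_rows (A B : Matrix Ix Ix F) (h : ∀ u : Ix → F, u ᵥ* A = u ᵥ* B) : A = B := by
  funext i
  have := h (Pi.single i 1)
  rw [single_one_vecMul, single_one_vecMul] at this
  exact this

theorem vecMul_Tv' (l : F) (u v : Ix → F) : u ᵥ* Tv l v = u + (l * Bf u v) • v :=
  vecMul_Tv l u v

theorem Tv_mul (l m : F) (v : Ix → F) : Tv l v * Tv m v = Tv (l + m) v := by
  apply ext_rows
  intro u
  rw [← vecMul_vecMul, vecMul_Tv', vecMul_Tv', vecMul_Tv', Bf_add_left, Bf_smul_left, Bf_self,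
    mul_zero, add_zero, add_assoc, ← add_smul]
  congr 2
  ring

theorem Tv_zero (v : Ix → F) : Tv 0 v = 1 := by
  rw [Tv, zero_smul, add_zero]

/-- A matrix all of whose row vectors are eigenvectors is scalar. -/
theorem scalar_of_eigen (A : Matrix Ix Ix F) (h : ∀ v : Ix → F, v ≠ 0 → ∃ c : F, v ᵥ* A = c • v) :
    ∃ a : F, A = a • (1 : Matrix Ix Ix F) := by
  have hs : ∀ i : Ix, ∃ c : F, A i = c • (Pi.single i 1 : Ix → F) := by
    intro i
    obtain ⟨c, hc⟩ := h (Pi.single i 1) (by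
      intro h0
      have := congrFun h0 i
      simp at this)
    rw [single_one_vecMul] at hc
    exact ⟨c, hc⟩
  choose c hc using hs
  have hcc : ∀ i j : Ix, c i = c j := by
    intro i j
    by_cases hij : i = j
    · rw [hij]
    obtain ⟨d, hd⟩ := h (Pi.single i 1 + Pi.single j 1) (by
      intro h0
      have := congrFun h0 i
      simp [Pi.single_apply, hij] at this)
    rw [add_vecMul, single_one_vecMul, single_one_vecMul] at hd
    have hi : A.row i = c i • (Pi.single i 1 : Ix → F) := hc i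
    have hj : A.row j = c j • (Pi.single j 1 : Ix → F) := hc j
    rw [hi, hj] at hd
    have h1 := congrFun hd i
    have h2 := congrFun hd j
    simp [Pi.single_apply, hij, Ne.symm hij] at h1 h2
    rw [h1, h2]
  refine ⟨c (Sum.inl 0), ?_⟩
  funext i
  rw [hc i, hcc i (Sum.inl 0)]
  funext j
  by_cases hij : j = i
  · subst hij
    simp
  · simp [Pi.single_apply, hij, Matrix.one_apply, Ne.symm hij]

/-- for a subgroup normalised by the symplectic group -/
def NormBy (H : Subgroup (SpecialLinearGroup Ix F)) : Prop :=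
  ∀ h ∈ H, ∀ g ∈ SpB F, g⁻¹ * h * g ∈ H

/-- the symplectic transvection as a group element -/
theorem exists_Tv (l : F) (v : Ix → F) (hv : v ≠ 0) : ∃ γ ∈ SpB F, γ.1 = Tv l v := by
  obtain ⟨γ, hγ, h⟩ := Tv_mem l v hv
  exact ⟨γ, Gam_le hγ, h⟩

/-- the commutator with a transvection -/
theorem comm_mem (H : Subgroup (SpecialLinearGroup Ix F)) (hle : H ≤ SpB F) (hn : NormBy H)
    (g : SpecialLinearGroup Ix F) (hg : g ∈ H) (v : Ix → F) (hv : v ≠ 0) :
    ∃ x ∈ H, x.1 = Tv 1 (v ᵥ* g.1) * Tv (-1) v := by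
  obtain ⟨T, hT, hTv⟩ := exists_Tv 1 v hv
  obtain ⟨T', hT', hTv'⟩ := exists_Tv (-1) v hv
  have hTT' : T * T' = 1 := by
    apply Subtype.ext
    show T.1 * T'.1 = 1
    rw [hTv, hTv', Tv_mul, add_neg_cancel, Tv_zero]
  have hT'e : T' = T⁻¹ := eq_inv_of_mul_eq_one_right hTT'
  refine ⟨g⁻¹ * (T'⁻¹ * g * T'), Subgroup.mul_mem _ (Subgroup.inv_mem _ hg) (hn g hg T' hT'), ?_⟩
  have e : g⁻¹ * (T'⁻¹ * g * T') = (g⁻¹ * T * g) * T' := by rw [hT'e]; group
  rw [e]
  show ((g⁻¹).1 * T.1 * g.1) * T'.1 = _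
  rw [hTv, hTv', Tv_conj 1 v (hle hg)]

/-- there is an element of the normal subgroup moving some vector to a non-orthogonal one -/
theorem exists_hyp (H : Subgroup (SpecialLinearGroup Ix F)) (hle : H ≤ SpB F) (hn : NormBy H)
    (g : SpecialLinearGroup Ix F) (hg : g ∈ H) (h1 : g.1 ≠ 1) (h2 : g.1 ≠ -1) :
    ∃ g ∈ H, ∃ v, Bf v (v ᵥ* g.1) ≠ 0 := by
  by_contra hcon
  push Not at hcon
  -- a vector which is not an eigenvector
  have hex : ∃ v : Ix → F, v ≠ 0 ∧ ∀ c : F, v ᵥ* g.1 ≠ c • v := by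
    by_contra h3
    push Not at h3
    obtain ⟨a, ha⟩ := scalar_of_eigen g.1 h3
    have ha2 : a * a = 1 := by
      have h : g.1 * Om * g.1ᵀ = Om := hle hg
      rw [ha, transpose_smul, transpose_one, Matrix.mul_smul, Matrix.smul_mul, Matrix.one_mul,
        Matrix.mul_one, smul_smul] at h
      have := congrFun (congrFun h (Sum.inl 1)) (Sum.inl 0)
      rw [Om, om] at this
      simpa using this
    rcases mul_self_eq_one_iff.1 ha2 with h | h
    · apply h1; rw [ha, h, one_smul]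
    · apply h2; rw [ha, h, neg_smul, one_smul]
  obtain ⟨v, hv, hvg⟩ := hex
  set w := v ᵥ* g.1 with hw
  have hw0 : w ≠ 0 := by
    intro h0
    exact hvg 0 (by rw [h0, zero_smul])
  have hprop : ∀ c : F, v ≠ c • w := by
    intro c hc
    have hc0 : c ≠ 0 := by
      intro h0
      apply hv
      rw [hc, h0, zero_smul]
    apply hvg c⁻¹
    conv_rhs => rw [hc]
    rw [smul_smul, inv_mul_cancel₀ hc0, one_smul]
  obtain ⟨u, hu1, hu2⟩ := exists_sep v w hw0 hprop
  obtain ⟨x, hx, hxe⟩ := comm_mem H hle hn g hg v hv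
  have h4 := hcon x hx u
  rw [hxe, ← vecMul_vecMul, ← hw, vecMul_Tv' 1 u w, hu2, mul_zero, zero_smul, add_zero, vecMul_Tv',
    Bf_add_right, Bf_self, Bf_smul_right, zero_add] at h4
  have h5 : Bf u v * Bf u v = 0 := by linear_combination -h4
  exact hu1 (mul_self_eq_zero.1 h5)

theorem Tv_left (l : F) (a : Fin 2 → F) :
    Tv l (Sum.elim a (0 : Fin 2 → F)) = fromBlocks (1 + l • (om * vecMulVec a a)) 0 0 1 := by
  rw [Tv, Om]
  have h : vecMulVec (Sum.elim a (0 : Fin 2 → F) : Ix → F) (Sum.elim a (0 : Fin 2 → F)) =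
      (fromBlocks (vecMulVec a a) 0 0 0 : Matrix Ix Ix F) := by
    refine Matrix.ext fun i j => ?_
    rcases i with i | i <;> rcases j with j | j <;> simp [vecMulVec_apply]
  rw [h, fromBlocks_multiply, fromBlocks_smul, ← fromBlocks_one, fromBlocks_add, fromBlocks_inj]
  refine ⟨?_, ?_, ?_, ?_⟩ <;> simp

theorem vecMulVec_two (p q : F) : vecMulVec ![p, q] ![p, q] = !![p * p, p * q; q * p, q * q] := by
  refine Matrix.ext fun i j => ?_
  fin_cases i <;> fin_cases j <;> simp [vecMulVec_apply]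

/-- the normal subgroup meets the first block subgroup in a noncentral element -/
theorem exists_blk (H : Subgroup (SpecialLinearGroup Ix F)) (hle : H ≤ SpB F) (hn : NormBy H)
    (g : SpecialLinearGroup Ix F) (hg : g ∈ H) (v : Ix → F) (hv : Bf v (v ᵥ* g.1) ≠ 0) :
    ∃ x : SpecialLinearGroup (Fin 2) F, blk1 x ∈ H ∧ x.1 1 0 = -1 := by
  have hv0 : v ≠ 0 := by
    intro h0
    apply hv
    rw [h0, Bf_eq]
    simp
  have h10 : (![1, 0] : Fin 2 → F) ≠ 0 := by
    intro h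
    have := congrFun h 0
    simp at this
  set w := v ᵥ* g.1 with hw
  set c := Bf v w with hc
  obtain ⟨γ, hγ, hγv⟩ := orb_of_ne_zero v hv0 ![1, 0] h10
  set s := w ᵥ* γ.1 with hs
  have hs1 : s (Sum.inl 1) = -c := by
    have h : Bf (v ᵥ* γ.1) (w ᵥ* γ.1) = c := by rw [Bf_inv (Gam_le hγ)]
    rw [hγv, Bf_eq, ← hs] at h
    simp at h
    rw [← h, neg_neg]
  obtain ⟨γ2, hγ2, k1, k2⟩ := move_second ((-c)⁻¹ • s) (by
    rw [Pi.smul_apply, hs1, smul_eq_mul, inv_mul_cancel₀ (neg_ne_zero.2 hv)])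
  have k3 : s ᵥ* γ2.1 = Sum.elim ![0, -c] 0 := by
    rw [smul_vecMul] at k2
    have h := congrArg (fun z => (-c) • z) k2
    simp only [smul_smul, mul_inv_cancel₀ (neg_ne_zero.2 hv), one_smul] at h
    rw [h]
    funext i
    rcases i with i | i <;> fin_cases i <;> simp
  obtain ⟨x, hx, hxe⟩ := comm_mem H hle hn g hg v hv0
  rw [← hw] at hxe
  set δ := γ * γ2 with hδ
  have hδm : δ ∈ SpB F := Subgroup.mul_mem _ (Gam_le hγ) (Gam_le hγ2)
  have hvδ : v ᵥ* δ.1 = Sum.elim ![1, 0] 0 := by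
    show v ᵥ* (γ.1 * γ2.1) = _
    rw [← vecMul_vecMul, hγv, k1]
  have hwδ : w ᵥ* δ.1 = Sum.elim ![0, -c] 0 := by
    show w ᵥ* (γ.1 * γ2.1) = _
    rw [← vecMul_vecMul, ← hs, k3]
  have hy : (δ⁻¹ * x * δ).1 = Tv 1 (Sum.elim ![0, -c] 0) * Tv (-1) (Sum.elim ![1, 0] 0) := by
    have e : (δ⁻¹).1 * δ.1 = 1 := congrArg Subtype.val (inv_mul_cancel δ)
    have e' : δ.1 * (δ⁻¹).1 = 1 := congrArg Subtype.val (mul_inv_cancel δ)
    show (δ⁻¹).1 * x.1 * δ.1 = _
    rw [hxe, ← hwδ, ← hvδ, ← Tv_conj 1 w hδm, ← Tv_conj (-1) v hδm]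
    calc (δ⁻¹).1 * (Tv 1 w * Tv (-1) v) * δ.1 =
        (δ⁻¹).1 * Tv 1 w * 1 * Tv (-1) v * δ.1 := by
          simp only [Matrix.mul_assoc, Matrix.one_mul]
      _ = (δ⁻¹).1 * Tv 1 w * δ.1 * ((δ⁻¹).1 * Tv (-1) v * δ.1) := by
          rw [← e']; simp only [Matrix.mul_assoc]
  set x0 : SpecialLinearGroup (Fin 2) F := ⟨!![1 + c * c, -(c * c); -1, 1], by
    rw [Matrix.det_fin_two]; simp⟩ with hx0
  refine ⟨x0, ?_, ?_⟩
  · have : blk1 x0 = δ⁻¹ * x * δ := by
      apply Subtype.ext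
      rw [hy, Tv_left, Tv_left, fromBlocks_multiply, blk1_val, fromBlocks_inj]
      refine ⟨?_, ?_, ?_, ?_⟩
      · rw [hx0, om, Matrix.one_fin_two, vecMulVec_two, vecMulVec_two]
        refine Matrix.ext fun i j => ?_
        fin_cases i <;> fin_cases j <;>
          simp [Matrix.mul_apply, Fin.sum_univ_two]
      · simp
      · simp
      · simp
    rw [this]
    exact hn x hx δ hδm
  · rw [hx0]; simp

/-- A normal subgroup of `SL(2, F)` containing a noncentral element is everything. -/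
theorem SL2_normal_eq_top (hF : ∃ a : F, a ≠ 0 ∧ a ^ 2 ≠ 1)
    (N : Subgroup (SpecialLinearGroup (Fin 2) F)) [N.Normal]
    (x : SpecialLinearGroup (Fin 2) F) (hx : x ∈ N) (hx1 : x.1 1 0 = -1) : N = ⊤ := by
  have hsim := Matrix.ProjectiveSpecialLinearGroup.rank_two_simple' hF
  have hperf : commutator (SpecialLinearGroup (Fin 2) F) = ⊤ := by
    obtain ⟨a, ha, hasq⟩ := hF
    exact SL2.commutator_eq_top ha hasq
  set π := QuotientGroup.mk' (Subgroup.center (SpecialLinearGroup (Fin 2) F)) with hπ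
  have hsurj : Function.Surjective π := QuotientGroup.mk'_surjective _
  have hN : (N.map π).Normal := Subgroup.Normal.map inferInstance π hsurj
  rcases hsim.eq_bot_or_eq_top_of_normal (N.map π) hN with h | h
  · exfalso
    have h1 : π x ∈ N.map π := Subgroup.mem_map_of_mem _ hx
    rw [h, Subgroup.mem_bot] at h1
    have h2 : x ∈ Subgroup.center (SpecialLinearGroup (Fin 2) F) := by
      rw [← QuotientGroup.eq_one_iff]; exact h1
    have h3 := Subgroup.mem_center_iff.1 h2 (up 1)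
    have h4 := congrFun (congrFun (congrArg Subtype.val h3) 0) 0
    have h5 : ((up (1 : F)).1 * x.1 : Matrix (Fin 2) (Fin 2) F) 0 0 =
        (x.1 * (up (1 : F)).1 : Matrix (Fin 2) (Fin 2) F) 0 0 := h4
    rw [up_val] at h5
    simp [Matrix.mul_apply, Fin.sum_univ_two, hx1] at h5
  · have h1 : N ⊔ Subgroup.center (SpecialLinearGroup (Fin 2) F) = ⊤ := by
      have h2 := congrArg (Subgroup.comap π) h
      rw [Subgroup.comap_map_eq, Subgroup.comap_top, QuotientGroup.ker_mk'] at h2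
      exact h2
    have h2 := Subgroup.Normal.commutator_le_of_self_sup_commutative_eq_top h1
      (inferInstance : IsMulCommutative (Subgroup.center (SpecialLinearGroup (Fin 2) F)))
    rw [hperf] at h2
    exact top_le_iff.1 h2

theorem tvM_eq : (tvM : SpecialLinearGroup Ix F).1 = Tv (-1) (Sum.elim ![0, 1] ![0, 1]) := by
  apply ext_rows
  intro u
  have hue : u = Sum.elim (u ∘ Sum.inl) (u ∘ Sum.inr) := (Sum.elim_comp_inl_inr u).symm
  have t1 : vecHead (vecTail (u ∘ Sum.inl)) = u (Sum.inl 1) := rfl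
  have t2 : vecHead (u ∘ Sum.inl) = u (Sum.inl 0) := rfl
  have t3 : vecHead (vecTail (u ∘ Sum.inr)) = u (Sum.inr 1) := rfl
  have t4 : vecHead (u ∘ Sum.inr) = u (Sum.inr 0) := rfl
  rw [vecMul_Tv', Bf_eq, tvM_val, XX, one_add_nn, smul_nn]
  conv_lhs => rw [hue]
  rw [vecMul_fromBlocks]
  funext i
  rcases i with i | i <;> fin_cases i
  · simp [t1, t2, t3, t4]
  · simp [t1, t2, t3, t4]; ring
  · simp [t1, t2, t3, t4]
  · simp [t1, t2, t3, t4]; ring

/-- **Normal subgroups of the symplectic group.** -/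
theorem SpB_le_of_normBy (hF : ∃ a : F, a ≠ 0 ∧ a ^ 2 ≠ 1)
    (H : Subgroup (SpecialLinearGroup Ix F)) (hle : H ≤ SpB F) (hn : NormBy H)
    (g : SpecialLinearGroup Ix F) (hg : g ∈ H) (h1 : g.1 ≠ 1) (h2 : g.1 ≠ -1) : SpB F ≤ H := by
  obtain ⟨g, hg, v, hv⟩ := exists_hyp H hle hn g hg h1 h2
  obtain ⟨x, hx, hx1⟩ := exists_blk H hle hn g hg v hv
  have hnorm : (H.comap blk1).Normal := by
    constructor
    intro n hn' g'
    rw [Subgroup.mem_comap] at hn' ⊢
    have := hn _ hn' (blk1 g'⁻¹) (blk1_mem _)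
    rw [map_mul, map_mul]
    rwa [map_inv, inv_inv, ← map_inv] at this
  have htop := SL2_normal_eq_top hF (H.comap blk1) x hx hx1
  have hb1 : ∀ y, blk1 y ∈ H := by
    intro y
    have : y ∈ H.comap blk1 := by rw [htop]; exact Subgroup.mem_top y
    exact this
  have hb2 : ∀ y, blk2 y ∈ H := by
    intro y
    have h3 := hn _ (hb1 y) swp swp_mem
    have h4 : blk2 y = swp⁻¹ * blk1 y * swp := by
      rw [mul_assoc, eq_inv_mul_iff_mul_eq]
      apply Subtype.ext
      show (swp : SpecialLinearGroup Ix F).1 * (blk2 y).1 = (blk1 y).1 * swp.1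
      rw [swp_val, blk1_val, blk2_val, fromBlocks_multiply, fromBlocks_multiply]
      simp
    rw [h4]
    exact h3
  have htv : tvM ∈ H := by
    have h01 : (![0, 1] : Fin 2 → F) ≠ 0 := by
      intro h
      have := congrFun h 1
      simp at this
    have hne : (Sum.elim ![0, 1] ![0, 1] : Ix → F) ≠ 0 := by
      intro h
      have := congrFun h (Sum.inl 1)
      simp at this
    obtain ⟨γ, hγ, hv'⟩ := (orb_of_ne_zero (Sum.elim ![0, 1] ![0, 1]) hne ![0, 1] h01).symm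
    have h3 := hn _ (hb1 (up 1)) γ (Gam_le hγ)
    have h4 : tvM = γ⁻¹ * blk1 (up 1) * γ := by
      apply Subtype.ext
      rw [tvM_eq, ← hv', ← Tv_conj _ _ (Gam_le hγ), ← Tv_v0]
      show _ = (γ⁻¹).1 * (blk1 (up 1)).1 * γ.1
      rw [neg_neg]
    rw [h4]
    exact h3
  exact SpB_le_H hle hb1 hb2 htv

end Pool.Agent.Lib.MP_ca8614_al
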