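import Pool.Agent.Lib.MP_ca8614_al.Pin

set_option autoImplicit false

open Matrix

namespace Pool.Agent.Lib.MP_ca8614_al

variable {F : Type*} [Field F]

/-- the form on a hyperbolic plane -/
def om : Matrix (Fin 2) (Fin 2) F := !![0, -1; 1, 0]

/-- the symplectic form, adapted to the block decomposition -/
def Om : Matrix Ix Ix F := fromBlocks om 0 0 om

theorem om_transpose : (om : Matrix (Fin 2) (Fin 2) F)ᵀ = -om := by
  rw [om]
  refine Matrix.ext fun i j => ?_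
  fin_cases i <;> fin_cases j <;> simp

/-- The symplectic group with respect to `Om`, as a subgroup of `SL 4`. -/
def SpB (F : Type*) [Field F] : Subgroup (SpecialLinearGroup Ix F) where
  carrier := {A | A.1 * Om * A.1ᵀ = Om}
  mul_mem' := by
    intro a b ha hb
    show (a.1 * b.1) * Om * (a.1 * b.1)ᵀ = Om
    have ha' : a.1 * Om * a.1ᵀ = Om := ha
    have hb' : b.1 * Om * b.1ᵀ = Om := hb
    rw [transpose_mul]
    calc (a.1 * b.1) * Om * (b.1ᵀ * a.1ᵀ) = a.1 * (b.1 * Om * b.1ᵀ) * a.1ᵀ := by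
          simp only [Matrix.mul_assoc]
      _ = Om := by rw [hb', ha']
  one_mem' := by
    show (1 : Matrix Ix Ix F) * Om * (1 : Matrix Ix Ix F)ᵀ = Om
    simp
  inv_mem' := by
    intro a ha
    have ha' : a.1 * Om * a.1ᵀ = Om := ha
    show (a⁻¹).1 * Om * (a⁻¹).1ᵀ = Om
    have e : (a⁻¹).1 * a.1 = 1 := congrArg Subtype.val (inv_mul_cancel a)
    calc (a⁻¹).1 * Om * (a⁻¹).1ᵀ = (a⁻¹).1 * (a.1 * Om * a.1ᵀ) * (a⁻¹).1ᵀ := by rw [ha']
      _ = ((a⁻¹).1 * a.1) * Om * ((a⁻¹).1 * a.1)ᵀ := by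
          rw [transpose_mul]; simp only [Matrix.mul_assoc]
      _ = Om := by rw [e]; simp

theorem mem_SpB {A : SpecialLinearGroup Ix F} : A ∈ SpB F ↔ A.1 * Om * A.1ᵀ = Om := Iff.rfl

theorem SL2_om (x : SpecialLinearGroup (Fin 2) F) : x.1 * om * x.1ᵀ = om := by
  have hdet := x.2
  rw [Matrix.det_fin_two] at hdet
  rw [om]
  refine Matrix.ext fun i j => ?_
  fin_cases i <;> fin_cases j
  · simp [Matrix.mul_apply, Fin.sum_univ_two]; ring
  · simp [Matrix.mul_apply, Fin.sum_univ_two]; linear_combination -hdet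
  · simp [Matrix.mul_apply, Fin.sum_univ_two]; linear_combination hdet
  · simp [Matrix.mul_apply, Fin.sum_univ_two]; ring

theorem blk1_mem (x : SpecialLinearGroup (Fin 2) F) : blk1 x ∈ SpB F := by
  rw [mem_SpB, blk1_val, Om, fromBlocks_transpose, fromBlocks_multiply, fromBlocks_multiply]
  simp [SL2_om]

theorem blk2_mem (x : SpecialLinearGroup (Fin 2) F) : blk2 x ∈ SpB F := by
  rw [mem_SpB, blk2_val, Om, fromBlocks_transpose, fromBlocks_multiply, fromBlocks_multiply]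
  simp [SL2_om]

theorem swp_mem : (swp : SpecialLinearGroup Ix F) ∈ SpB F := by
  rw [mem_SpB, swp_val, Om, fromBlocks_transpose, fromBlocks_multiply, fromBlocks_multiply]
  simp

theorem transpose_two (a b c d : F) : (!![a, b; c, d])ᵀ = !![a, c; b, d] := by
  refine Matrix.ext fun i j => ?_
  fin_cases i <;> fin_cases j <;> simp

theorem tvM_mem : (tvM : SpecialLinearGroup Ix F) ∈ SpB F := by
  rw [mem_SpB, tvM_val, XX, Om, one_add_nn, smul_nn, fromBlocks_transpose, fromBlocks_multiply,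
    fromBlocks_multiply, fromBlocks_inj, om, transpose_two, transpose_two]
  refine ⟨?_, ?_, ?_, ?_⟩
  all_goals
    refine Matrix.ext fun i j => ?_
    fin_cases i <;> fin_cases j <;> simp

/-- the subgroup generated by the standard elements -/
def Gam (F : Type*) [Field F] : Subgroup (SpecialLinearGroup Ix F) :=
  Subgroup.closure (Set.range blk1 ∪ Set.range blk2 ∪ {swp, tvM})

theorem blk1_Gam (x : SpecialLinearGroup (Fin 2) F) : blk1 x ∈ Gam F :=
  Subgroup.subset_closure (Or.inl (Or.inl ⟨x, rfl⟩))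
theorem blk2_Gam (x : SpecialLinearGroup (Fin 2) F) : blk2 x ∈ Gam F :=
  Subgroup.subset_closure (Or.inl (Or.inr ⟨x, rfl⟩))
theorem swp_Gam : (swp : SpecialLinearGroup Ix F) ∈ Gam F :=
  Subgroup.subset_closure (Or.inr (Or.inl rfl))
theorem tvM_Gam : (tvM : SpecialLinearGroup Ix F) ∈ Gam F :=
  Subgroup.subset_closure (Or.inr (Or.inr rfl))

theorem Gam_le : Gam F ≤ SpB F := by
  rw [Gam, Subgroup.closure_le]
  rintro _ ((⟨x, rfl⟩ | ⟨x, rfl⟩) | h)
  · exact blk1_mem x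
  · exact blk2_mem x
  · rcases h with rfl | rfl
    · exact swp_mem
    · exact tvM_mem

/-! ### Orbits on row vectors -/

/-- row vectors in the same orbit -/
def Orb (u v : Ix → F) : Prop := ∃ γ ∈ Gam F, u ᵥ* γ.1 = v

theorem Orb.refl (u : Ix → F) : Orb u u := ⟨1, Subgroup.one_mem _, by
  show u ᵥ* (1 : Matrix Ix Ix F) = u
  rw [vecMul_one]⟩

theorem Orb.trans {u v w : Ix → F} (h1 : Orb u v) (h2 : Orb v w) : Orb u w := by
  obtain ⟨a, ha, rfl⟩ := h1
  obtain ⟨b, hb, rfl⟩ := h2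
  refine ⟨a * b, Subgroup.mul_mem _ ha hb, ?_⟩
  show u ᵥ* (a.1 * b.1) = _
  rw [vecMul_vecMul]

theorem Orb.symm {u v : Ix → F} (h : Orb u v) : Orb v u := by
  obtain ⟨a, ha, rfl⟩ := h
  refine ⟨a⁻¹, Subgroup.inv_mem _ ha, ?_⟩
  have e : a.1 * (a⁻¹).1 = 1 := congrArg Subtype.val (mul_inv_cancel a)
  rw [vecMul_vecMul, e, vecMul_one]

theorem exists_SL2_row (x : Fin 2 → F) (hx : x ≠ 0) :
    ∃ g : SpecialLinearGroup (Fin 2) F, ![1, 0] ᵥ* g.1 = x := by
  have hcop : IsCoprime (x 0) (x 1) := by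
    by_cases h0 : x 0 = 0
    · have h1 : x 1 ≠ 0 := by
        intro h1
        apply hx
        funext i
        fin_cases i
        · exact h0
        · exact h1
      exact ⟨0, (x 1)⁻¹, by rw [zero_mul, zero_add, inv_mul_cancel₀ h1]⟩
    · exact ⟨(x 0)⁻¹, 0, by rw [zero_mul, add_zero, inv_mul_cancel₀ h0]⟩
  obtain ⟨g, h1, h2⟩ := hcop.exists_SL2_row 0
  refine ⟨g, ?_⟩
  funext i
  rw [Matrix.vecMul, dotProduct, Fin.sum_univ_two]
  fin_cases i
  · simpa using h1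
  · simpa using h2

theorem exists_SL2_move (x y : Fin 2 → F) (hx : x ≠ 0) (hy : y ≠ 0) :
    ∃ g : SpecialLinearGroup (Fin 2) F, x ᵥ* g.1 = y := by
  obtain ⟨a, rfl⟩ := exists_SL2_row x hx
  obtain ⟨b, rfl⟩ := exists_SL2_row y hy
  refine ⟨a⁻¹ * b, ?_⟩
  have e : a.1 * (a⁻¹ * b).1 = b.1 := congrArg Subtype.val (mul_inv_cancel_left a b)
  rw [vecMul_vecMul, e]

theorem orb_blk (x y x' y' : Fin 2 → F) (hx : x ≠ 0) (hy : y ≠ 0) (hx' : x' ≠ 0) (hy' : y' ≠ 0) :
    Orb (Sum.elim x y) (Sum.elim x' y') := by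
  obtain ⟨a, ha⟩ := exists_SL2_move x x' hx hx'
  obtain ⟨b, hb⟩ := exists_SL2_move y y' hy hy'
  refine ⟨blk1 a * blk2 b, Subgroup.mul_mem _ (blk1_Gam a) (blk2_Gam b), ?_⟩
  show (Sum.elim x y) ᵥ* ((blk1 a).1 * (blk2 b).1) = _
  rw [blk1_val, blk2_val, fromBlocks_multiply, vecMul_fromBlocks]
  simp [ha, hb]

theorem orb_left (x x' : Fin 2 → F) (hx : x ≠ 0) (hx' : x' ≠ 0) :
    Orb (Sum.elim x 0) (Sum.elim x' 0) := by
  obtain ⟨a, ha⟩ := exists_SL2_move x x' hx hx'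
  refine ⟨blk1 a, blk1_Gam a, ?_⟩
  rw [blk1_val, vecMul_fromBlocks]
  simp [ha]

theorem orb_swp (x y : Fin 2 → F) : Orb (Sum.elim x y) (Sum.elim y x) := by
  refine ⟨swp, swp_Gam, ?_⟩
  rw [swp_val, vecMul_fromBlocks]
  simp

theorem orb_tv : Orb (Sum.elim ![0, 1] ![-1, 0] : Ix → F) (Sum.elim 0 ![-1, -1]) := by
  refine ⟨tvM, tvM_Gam, ?_⟩
  rw [tvM_val, XX, one_add_nn, smul_nn, vecMul_fromBlocks]
  congr 1
  · funext i
    fin_cases i <;> simp
  · funext i
    fin_cases i <;> simp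

/-- `Gam` is transitive on nonzero row vectors. -/
theorem orb_of_ne_zero (u : Ix → F) (hu : u ≠ 0) (x' : Fin 2 → F) (hx' : x' ≠ 0) :
    Orb u (Sum.elim x' 0) := by
  have hue : u = Sum.elim (u ∘ Sum.inl) (u ∘ Sum.inr) := (Sum.elim_comp_inl_inr u).symm
  set x := u ∘ Sum.inl with hx
  set y := u ∘ Sum.inr with hy
  rw [hue]
  have h11 : (![-1, -1] : Fin 2 → F) ≠ 0 := by
    intro h
    have := congrFun h 0
    simp at this
  have h01 : (![0, 1] : Fin 2 → F) ≠ 0 := by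
    intro h
    have := congrFun h 1
    simp at this
  have h10 : (![-1, 0] : Fin 2 → F) ≠ 0 := by
    intro h
    have := congrFun h 0
    simp at this
  by_cases hy0 : y = 0
  · have hx0 : x ≠ 0 := by
      intro hx0
      apply hu
      rw [hue, hx0, hy0]
      funext i
      rcases i with i | i <;> rfl
    rw [hy0]
    exact orb_left x x' hx0 hx'
  · by_cases hx0 : x = 0
    · rw [hx0]
      exact (orb_swp 0 y).trans (orb_left y x' hy0 hx')
    · refine (orb_blk x y ![0, 1] ![-1, 0] hx0 hy0 h01 h10).trans ?_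
      exact (orb_tv.trans (orb_swp _ _)).trans (orb_left _ _ h11 hx')

end Pool.Agent.Lib.MP_ca8614_al
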