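import Pool.Agent.Lib.MP_ca8614_al.SpGen

set_option autoImplicit false

open Matrix

namespace Pool.Agent.Lib.MP_ca8614_al

variable {F : Type*} [Field F]

/-- the matrix of a transvection acting on row vectors -/
def Tv (l : F) (v : Ix → F) : Matrix Ix Ix F := 1 + l • (Om * vecMulVec v v)

theorem vecMul_Tv (l : F) (u v : Ix → F) :
    u ᵥ* Tv l v = u + (l * ((u ᵥ* Om) ⬝ᵥ v)) • v := by
  rw [Tv, vecMul_add, vecMul_one, vecMul_smul, ← vecMul_vecMul, vecMul_vecMulVec]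
  congr 1
  rw [smul_smul]

theorem Tv_v0 (l : F) :
    (blk1 (up (-l))).1 = Tv l (Sum.elim ![0, 1] (0 : Fin 2 → F)) := by
  rw [blk1_val, up_val, Tv, Om]
  have h : vecMulVec (Sum.elim ![0, 1] (0 : Fin 2 → F) : Ix → F)
      (Sum.elim ![0, 1] (0 : Fin 2 → F)) =
      (fromBlocks !![0, 0; 0, 1] 0 0 0 : Matrix Ix Ix F) := by
    refine Matrix.ext fun i j => ?_
    rcases i with i | i <;> rcases j with j | j <;> fin_cases i <;> fin_cases j <;>
      simp [vecMulVec_apply]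
  rw [h, fromBlocks_multiply, fromBlocks_smul, ← fromBlocks_one, fromBlocks_add, fromBlocks_inj]
  refine ⟨?_, ?_, ?_, ?_⟩
  · rw [om, Matrix.one_fin_two]
    refine Matrix.ext fun i j => ?_
    fin_cases i <;> fin_cases j <;> simp
  · simp
  · simp
  · simp

theorem Tv_conj (l : F) (v : Ix → F) {γ : SpecialLinearGroup Ix F} (hγ : γ ∈ SpB F) :
    (γ⁻¹).1 * Tv l v * γ.1 = Tv l (v ᵥ* γ.1) := by
  have e : (γ⁻¹).1 * γ.1 = 1 := congrArg Subtype.val (inv_mul_cancel γ)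
  have h1 : (γ⁻¹).1 * Om = Om * γ.1ᵀ := by
    have h2 : γ.1 * Om * γ.1ᵀ = Om := hγ
    calc (γ⁻¹).1 * Om = (γ⁻¹).1 * (γ.1 * Om * γ.1ᵀ) := by rw [h2]
      _ = ((γ⁻¹).1 * γ.1) * Om * γ.1ᵀ := by simp only [Matrix.mul_assoc]
      _ = Om * γ.1ᵀ := by rw [e, Matrix.one_mul]
  have h3 : γ.1ᵀ * vecMulVec v v * γ.1 = vecMulVec (v ᵥ* γ.1) (v ᵥ* γ.1) := by
    rw [mul_vecMulVec, vecMulVec_mul, mulVec_transpose]
  rw [Tv, Tv, mul_add, add_mul, mul_one, e, Matrix.mul_smul, Matrix.smul_mul]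
  congr 2
  calc (γ⁻¹).1 * (Om * vecMulVec v v) * γ.1 = ((γ⁻¹).1 * Om) * vecMulVec v v * γ.1 := by
        simp only [Matrix.mul_assoc]
    _ = Om * (γ.1ᵀ * vecMulVec v v * γ.1) := by rw [h1]; simp only [Matrix.mul_assoc]
    _ = _ := by rw [h3]

theorem Tv_mem (l : F) (v : Ix → F) (hv : v ≠ 0) : ∃ γ ∈ Gam F, γ.1 = Tv l v := by
  have h01 : (![0, 1] : Fin 2 → F) ≠ 0 := by
    intro h
    have := congrFun h 1
    simp at this
  obtain ⟨γ, hγ, hv'⟩ := (orb_of_ne_zero v hv ![0, 1] h01).symm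
  refine ⟨γ⁻¹ * blk1 (up (-l)) * γ,
    Subgroup.mul_mem _ (Subgroup.mul_mem _ (Subgroup.inv_mem _ hγ) (blk1_Gam _)) hγ, ?_⟩
  show (γ⁻¹).1 * (blk1 (up (-l))).1 * γ.1 = _
  rw [Tv_v0, Tv_conj l _ (Gam_le hγ), hv']

/-- Second step of the reduction. -/
theorem move_second (s : Ix → F) (hs : s (Sum.inl 1) = 1) :
    ∃ γ ∈ Gam F, (Sum.elim ![1, 0] 0) ᵥ* γ.1 = Sum.elim ![1, 0] 0 ∧
      s ᵥ* γ.1 = Sum.elim ![0, 1] 0 := by
  have e0Om : (Sum.elim ![1, 0] 0 : Ix → F) ᵥ* Om = Sum.elim ![0, -1] 0 := by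
    rw [Om, vecMul_fromBlocks, om]
    congr 1
    · funext i; fin_cases i <;> simp
    · simp
  have main : ∀ s : Ix → F, s (Sum.inl 1) = 1 → s (Sum.inl 0) ≠ 0 →
      ∃ γ ∈ Gam F, (Sum.elim ![1, 0] 0) ᵥ* γ.1 = Sum.elim ![1, 0] 0 ∧
      s ᵥ* γ.1 = Sum.elim ![0, 1] 0 := by
    intro s hs ha
    set v : Ix → F := s - Sum.elim ![0, 1] 0 with hv
    have hv0 : v (Sum.inl 0) = s (Sum.inl 0) := by rw [hv]; simp
    have hv1 : v (Sum.inl 1) = 0 := by rw [hv]; simp [hs]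
    have hv2 : ∀ i, v (Sum.inr i) = s (Sum.inr i) := by intro i; rw [hv]; simp
    have hvne : v ≠ 0 := by
      intro h
      apply ha
      rw [← hv0, h]; rfl
    obtain ⟨γ, hγ, hγv⟩ := Tv_mem (-(s (Sum.inl 0))⁻¹) v hvne
    refine ⟨γ, hγ, ?_, ?_⟩
    · rw [hγv, vecMul_Tv, e0Om]
      have : (Sum.elim ![0, -1] 0 : Ix → F) ⬝ᵥ v = 0 := by
        rw [dotProduct, Fintype.sum_sum_type]
        simp [Fin.sum_univ_two, hv1]
      rw [this, mul_zero, zero_smul, add_zero]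
    · rw [hγv, vecMul_Tv]
      have hsOm : s ᵥ* Om = Sum.elim ![s (Sum.inl 1), -s (Sum.inl 0)]
          ![s (Sum.inr 1), -s (Sum.inr 0)] := by
        rw [Om, vecMul_fromBlocks, om]
        congr 1
        · funext i
          fin_cases i <;> first | (simp; done) | (simp; rfl)
        · funext i
          fin_cases i <;> first | (simp; done) | (simp; rfl)
      have : (s ᵥ* Om) ⬝ᵥ v = s (Sum.inl 0) := by
        rw [hsOm, dotProduct, Fintype.sum_sum_type]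
        simp [Fin.sum_univ_two, hv1, hv0, hv2, hs]
        ring
      rw [this, neg_mul, inv_mul_cancel₀ ha, neg_one_smul, hv]
      abel
  by_cases ha : s (Sum.inl 0) = 0
  · set s' : Ix → F := s ᵥ* (blk1 (lo 1)).1 with hs'
    have hs'e : s' = Sum.elim ![s (Sum.inl 0) + s (Sum.inl 1), s (Sum.inl 1)]
        (s ∘ Sum.inr) := by
      rw [hs', blk1_val, vecMul_fromBlocks, lo_val]
      congr 1
      · funext i
        fin_cases i <;> first | (simp; done) | (simp; rfl)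
      · simp
    obtain ⟨γ, hγ, h1, h2⟩ := main s' (by rw [hs'e]; simpa using hs)
      (by rw [hs'e]; simp [ha, hs])
    refine ⟨blk1 (lo 1) * γ, Subgroup.mul_mem _ (blk1_Gam _) hγ, ?_, ?_⟩
    · show _ ᵥ* ((blk1 (lo 1)).1 * γ.1) = _
      rw [← vecMul_vecMul]
      have : (Sum.elim ![1, 0] 0 : Ix → F) ᵥ* (blk1 (lo 1)).1 = Sum.elim ![1, 0] 0 := by
        rw [blk1_val, vecMul_fromBlocks, lo_val]
        congr 1
        · funext i
          fin_cases i <;> simp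
        · simp
      rw [this, h1]
    · show _ ᵥ* ((blk1 (lo 1)).1 * γ.1) = _
      rw [← vecMul_vecMul, ← hs', h2]
  · exact main s hs ha

/-- **Generation.** -/
theorem SpB_le_Gam : SpB F ≤ Gam F := by
  intro A hA
  have h10 : (![1, 0] : Fin 2 → F) ≠ 0 := by
    intro h
    have := congrFun h 0
    simp at this
  -- first row
  have hrow : A.1 (Sum.inl 0) ≠ 0 := A.row_ne_zero (Sum.inl 0)
  obtain ⟨γ, hγ, h1⟩ := orb_of_ne_zero (A.1 (Sum.inl 0)) hrow ![1, 0] h10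
  set A1 := A * γ with hA1
  have hA1Sp : A1 ∈ SpB F := Subgroup.mul_mem _ hA (Gam_le hγ)
  have hrowmul : ∀ (B C : SpecialLinearGroup Ix F) (i : Ix), (B * C).1 i = (B.1 i) ᵥ* C.1 := by
    intro B C i
    funext j
    rfl
  have r0 : A1.1 (Sum.inl 0) = Sum.elim ![1, 0] 0 := by rw [hA1, hrowmul, h1]
  have hform : ∀ (B : SpecialLinearGroup Ix F), B ∈ SpB F → ∀ i j,
      (B.1 i ᵥ* Om) ⬝ᵥ B.1 j = Om i j := by
    intro B hB i j
    have h : B.1 * Om * B.1ᵀ = Om := hB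
    rw [← congrFun (congrFun h i) j]
    rfl
  have e0Om : (Sum.elim ![1, 0] 0 : Ix → F) ᵥ* Om = Sum.elim ![0, -1] 0 := by
    rw [Om, vecMul_fromBlocks, om]
    congr 1
    · funext i; fin_cases i <;> simp
    · simp
  have e1Om : (Sum.elim ![0, 1] 0 : Ix → F) ᵥ* Om = Sum.elim ![1, 0] 0 := by
    rw [Om, vecMul_fromBlocks, om]
    congr 1
    · funext i; fin_cases i <;> simp
    · simp
  have r1 : A1.1 (Sum.inl 1) (Sum.inl 1) = 1 := by
    have h := hform A1 hA1Sp (Sum.inl 0) (Sum.inl 1)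
    rw [r0, e0Om, dotProduct, Fintype.sum_sum_type, Om, om] at h
    simp [Fin.sum_univ_two] at h
    exact h
  obtain ⟨γ2, hγ2, k1, k2⟩ := move_second (A1.1 (Sum.inl 1)) r1
  set A2 := A1 * γ2 with hA2
  have hA2Sp : A2 ∈ SpB F := Subgroup.mul_mem _ hA1Sp (Gam_le hγ2)
  have q0 : A2.1 (Sum.inl 0) = Sum.elim ![1, 0] 0 := by rw [hA2, hrowmul, r0, k1]
  have q1 : A2.1 (Sum.inl 1) = Sum.elim ![0, 1] 0 := by rw [hA2, hrowmul, k2]
  have q2 : ∀ k, A2.1 (Sum.inr k) (Sum.inl 1) = 0 := by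
    intro k
    have h := hform A2 hA2Sp (Sum.inl 0) (Sum.inr k)
    rw [q0, e0Om, dotProduct, Fintype.sum_sum_type, Om] at h
    simp [Fin.sum_univ_two] at h
    exact h
  have q3 : ∀ k, A2.1 (Sum.inr k) (Sum.inl 0) = 0 := by
    intro k
    have h := hform A2 hA2Sp (Sum.inl 1) (Sum.inr k)
    rw [q1, e1Om, dotProduct, Fintype.sum_sum_type, Om] at h
    simp [Fin.sum_univ_two] at h
    exact h
  have hA2e : A2.1 = fromBlocks 1 0 0 A2.1.toBlocks₂₂ := by
    refine Matrix.ext fun i j => ?_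
    rcases i with i | i
    · fin_cases i
      · show A2.1 (Sum.inl 0) j = _
        rw [q0]
        rcases j with j | j <;> fin_cases j <;> simp
      · show A2.1 (Sum.inl 1) j = _
        rw [q1]
        rcases j with j | j <;> fin_cases j <;> simp
    · rcases j with j | j
      · fin_cases j
        · show A2.1 (Sum.inr i) (Sum.inl 0) = _
          rw [q3]; simp
        · show A2.1 (Sum.inr i) (Sum.inl 1) = _
          rw [q2]; simp
      · simp [Matrix.toBlocks₂₂]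
  have hdet : A2.1.toBlocks₂₂.det = 1 := by
    have := A2.2
    rw [hA2e, det_fromBlocks_zero₁₂, det_one, one_mul] at this
    exact this
  have hA2G : A2 ∈ Gam F := by
    have : A2 = blk2 ⟨A2.1.toBlocks₂₂, hdet⟩ := Subtype.ext hA2e
    rw [this]
    exact blk2_Gam _
  have hA : A = A2 * γ2⁻¹ * γ⁻¹ := by rw [hA2, hA1]; group
  rw [hA]
  exact Subgroup.mul_mem _ (Subgroup.mul_mem _ hA2G (Subgroup.inv_mem _ hγ2))
    (Subgroup.inv_mem _ hγ)

end Pool.Agent.Lib.MP_ca8614_al
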