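import Pool.Agent.Lib.MP_ca8614_al.SpGen2

set_option autoImplicit false

open Matrix

namespace Pool.Agent.Lib.MP_ca8614_al

variable {F : Type*} [Field F]

/-! ### Generation of the symplectic group by the two block subgroups and one transvection -/

section
variable (H : Subgroup (SpecialLinearGroup Ix F))

/-- row vectors in the same orbit of `H` -/
def OrbH (u v : Ix → F) : Prop := ∃ γ ∈ H, u ᵥ* γ.1 = v

variable {H}

theorem OrbH.trans {u v w : Ix → F} (h1 : OrbH H u v) (h2 : OrbH H v w) : OrbH H u w := by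
  obtain ⟨a, ha, rfl⟩ := h1
  obtain ⟨b, hb, rfl⟩ := h2
  refine ⟨a * b, Subgroup.mul_mem _ ha hb, ?_⟩
  show u ᵥ* (a.1 * b.1) = _
  rw [vecMul_vecMul]

theorem OrbH.symm {u v : Ix → F} (h : OrbH H u v) : OrbH H v u := by
  obtain ⟨a, ha, rfl⟩ := h
  refine ⟨a⁻¹, Subgroup.inv_mem _ ha, ?_⟩
  have e : a.1 * (a⁻¹).1 = 1 := congrArg Subtype.val (mul_inv_cancel a)
  rw [vecMul_vecMul, e, vecMul_one]

theorem orbH_blk (h1 : ∀ x, blk1 x ∈ H) (h2 : ∀ x, blk2 x ∈ H) (x y x' y' : Fin 2 → F)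
    (hx : x ≠ 0) (hy : y ≠ 0) (hx' : x' ≠ 0) (hy' : y' ≠ 0) :
    OrbH H (Sum.elim x y) (Sum.elim x' y') := by
  obtain ⟨a, ha⟩ := exists_SL2_move x x' hx hx'
  obtain ⟨b, hb⟩ := exists_SL2_move y y' hy hy'
  refine ⟨blk1 a * blk2 b, Subgroup.mul_mem _ (h1 a) (h2 b), ?_⟩
  show (Sum.elim x y) ᵥ* ((blk1 a).1 * (blk2 b).1) = _
  rw [blk1_val, blk2_val, fromBlocks_multiply, vecMul_fromBlocks]
  simp [ha, hb]

theorem orbH_left (h1 : ∀ x, blk1 x ∈ H) (x x' : Fin 2 → F) (hx : x ≠ 0) (hx' : x' ≠ 0) :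
    OrbH H (Sum.elim x 0) (Sum.elim x' 0) := by
  obtain ⟨a, ha⟩ := exists_SL2_move x x' hx hx'
  refine ⟨blk1 a, h1 a, ?_⟩
  rw [blk1_val, vecMul_fromBlocks]
  simp [ha]

theorem orbH_right (h2 : ∀ x, blk2 x ∈ H) (x x' : Fin 2 → F) (hx : x ≠ 0) (hx' : x' ≠ 0) :
    OrbH H (Sum.elim 0 x) (Sum.elim 0 x') := by
  obtain ⟨a, ha⟩ := exists_SL2_move x x' hx hx'
  refine ⟨blk2 a, h2 a, ?_⟩
  rw [blk2_val, vecMul_fromBlocks]
  simp [ha]

theorem orbH_tv (h3 : tvM ∈ H) :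
    OrbH H (Sum.elim ![-1, 0] ![0, 1] : Ix → F) (Sum.elim ![-1, -1] 0) := by
  refine ⟨tvM, h3, ?_⟩
  rw [tvM_val, XX, one_add_nn, smul_nn, vecMul_fromBlocks]
  congr 1
  · funext i
    fin_cases i <;> simp
  · funext i
    fin_cases i <;> simp

theorem orbH_tv2 (h3 : tvM ∈ H) :
    OrbH H (Sum.elim 0 ![1, 0] : Ix → F) (Sum.elim ![0, 1] ![1, 1]) := by
  refine ⟨tvM, h3, ?_⟩
  rw [tvM_val, XX, one_add_nn, smul_nn, vecMul_fromBlocks]
  congr 1
  · funext i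
    fin_cases i <;> simp
  · funext i
    fin_cases i <;> simp

/-- `H` is transitive on nonzero row vectors. -/
theorem orbH_of_ne_zero (h1 : ∀ x, blk1 x ∈ H) (h2 : ∀ x, blk2 x ∈ H) (h3 : tvM ∈ H)
    (u : Ix → F) (hu : u ≠ 0) (x' : Fin 2 → F) (hx' : x' ≠ 0) :
    OrbH H u (Sum.elim x' 0) := by
  have hue : u = Sum.elim (u ∘ Sum.inl) (u ∘ Sum.inr) := (Sum.elim_comp_inl_inr u).symm
  set x := u ∘ Sum.inl with hx
  set y := u ∘ Sum.inr with hy
  rw [hue]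
  have h11 : (![-1, -1] : Fin 2 → F) ≠ 0 := by
    intro h
    have := congrFun h 0
    simp at this
  have h01 : (![0, 1] : Fin 2 → F) ≠ 0 := by
    intro h
    have := congrFun h 1
    simp at this
  have h10 : (![-1, 0] : Fin 2 → F) ≠ 0 := by
    intro h
    have := congrFun h 0
    simp at this
  have h10' : (![1, 0] : Fin 2 → F) ≠ 0 := by
    intro h
    have := congrFun h 0
    simp at this
  have h11' : (![1, 1] : Fin 2 → F) ≠ 0 := by
    intro h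
    have := congrFun h 0
    simp at this
  have both : ∀ x y : Fin 2 → F, x ≠ 0 → y ≠ 0 → OrbH H (Sum.elim x y) (Sum.elim x' 0) := by
    intro x y hx0 hy0
    refine (orbH_blk h1 h2 x y ![-1, 0] ![0, 1] hx0 hy0 h10 h01).trans ?_
    exact (orbH_tv h3).trans (orbH_left h1 _ _ h11 hx')
  by_cases hy0 : y = 0
  · have hx0 : x ≠ 0 := by
      intro hx0
      apply hu
      rw [hue, hx0, hy0]
      funext i
      rcases i with i | i <;> rfl
    rw [hy0]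
    exact orbH_left h1 x x' hx0 hx'
  · by_cases hx0 : x = 0
    · rw [hx0]
      exact ((orbH_right h2 y ![1, 0] hy0 h10').trans (orbH_tv2 h3)).trans (both _ _ h01 h11')
    · exact both x y hx0 hy0

theorem TvH_mem (hle : H ≤ SpB F) (h1 : ∀ x, blk1 x ∈ H) (h2 : ∀ x, blk2 x ∈ H) (h3 : tvM ∈ H)
    (l : F) (v : Ix → F) (hv : v ≠ 0) : ∃ γ ∈ H, γ.1 = Tv l v := by
  have h01 : (![0, 1] : Fin 2 → F) ≠ 0 := by
    intro h
    have := congrFun h 1
    simp at this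
  obtain ⟨γ, hγ, hv'⟩ := (orbH_of_ne_zero h1 h2 h3 v hv ![0, 1] h01).symm
  refine ⟨γ⁻¹ * blk1 (up (-l)) * γ,
    Subgroup.mul_mem _ (Subgroup.mul_mem _ (Subgroup.inv_mem _ hγ) (h1 _)) hγ, ?_⟩
  show (γ⁻¹).1 * (blk1 (up (-l))).1 * γ.1 = _
  rw [Tv_v0, Tv_conj l _ (hle hγ), hv']

/-- Second step of the reduction. -/
theorem move_secondH (hle : H ≤ SpB F) (h1 : ∀ x, blk1 x ∈ H) (h2 : ∀ x, blk2 x ∈ H)
    (h3 : tvM ∈ H) (s : Ix → F) (hs : s (Sum.inl 1) = 1) :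
    ∃ γ ∈ H, (Sum.elim ![1, 0] 0) ᵥ* γ.1 = Sum.elim ![1, 0] 0 ∧
      s ᵥ* γ.1 = Sum.elim ![0, 1] 0 := by
  have e0Om : (Sum.elim ![1, 0] 0 : Ix → F) ᵥ* Om = Sum.elim ![0, -1] 0 := by
    rw [Om, vecMul_fromBlocks, om]
    congr 1
    · funext i; fin_cases i <;> simp
    · simp
  have main : ∀ s : Ix → F, s (Sum.inl 1) = 1 → s (Sum.inl 0) ≠ 0 →
      ∃ γ ∈ H, (Sum.elim ![1, 0] 0) ᵥ* γ.1 = Sum.elim ![1, 0] 0 ∧
      s ᵥ* γ.1 = Sum.elim ![0, 1] 0 := by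
    intro s hs ha
    set v : Ix → F := s - Sum.elim ![0, 1] 0 with hv
    have hv0 : v (Sum.inl 0) = s (Sum.inl 0) := by rw [hv]; simp
    have hv1 : v (Sum.inl 1) = 0 := by rw [hv]; simp [hs]
    have hv2 : ∀ i, v (Sum.inr i) = s (Sum.inr i) := by intro i; rw [hv]; simp
    have hvne : v ≠ 0 := by
      intro h
      apply ha
      rw [← hv0, h]; rfl
    obtain ⟨γ, hγ, hγv⟩ := TvH_mem hle h1 h2 h3 (-(s (Sum.inl 0))⁻¹) v hvne
    refine ⟨γ, hγ, ?_, ?_⟩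
    · rw [hγv, vecMul_Tv, e0Om]
      have : (Sum.elim ![0, -1] 0 : Ix → F) ⬝ᵥ v = 0 := by
        rw [dotProduct, Fintype.sum_sum_type]
        simp [Fin.sum_univ_two, hv1]
      rw [this, mul_zero, zero_smul, add_zero]
    · rw [hγv, vecMul_Tv]
      have hsOm : s ᵥ* Om = Sum.elim ![s (Sum.inl 1), -s (Sum.inl 0)]
          ![s (Sum.inr 1), -s (Sum.inr 0)] := by
        rw [Om, vecMul_fromBlocks, om]
        congr 1
        · funext i
          fin_cases i <;> first | (simp; done) | (simp; rfl)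
        · funext i
          fin_cases i <;> first | (simp; done) | (simp; rfl)
      have : (s ᵥ* Om) ⬝ᵥ v = s (Sum.inl 0) := by
        rw [hsOm, dotProduct, Fintype.sum_sum_type]
        simp [Fin.sum_univ_two, hv1, hv0, hv2, hs]
        ring
      rw [this, neg_mul, inv_mul_cancel₀ ha, neg_one_smul, hv]
      abel
  by_cases ha : s (Sum.inl 0) = 0
  · set s' : Ix → F := s ᵥ* (blk1 (lo 1)).1 with hs'
    have hs'e : s' = Sum.elim ![s (Sum.inl 0) + s (Sum.inl 1), s (Sum.inl 1)]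
        (s ∘ Sum.inr) := by
      rw [hs', blk1_val, vecMul_fromBlocks, lo_val]
      congr 1
      · funext i
        fin_cases i <;> first | (simp; done) | (simp; rfl)
      · simp
    obtain ⟨γ, hγ, k1, k2⟩ := main s' (by rw [hs'e]; simpa using hs)
      (by rw [hs'e]; simp [ha, hs])
    refine ⟨blk1 (lo 1) * γ, Subgroup.mul_mem _ (h1 _) hγ, ?_, ?_⟩
    · show _ ᵥ* ((blk1 (lo 1)).1 * γ.1) = _
      rw [← vecMul_vecMul]
      have : (Sum.elim ![1, 0] 0 : Ix → F) ᵥ* (blk1 (lo 1)).1 = Sum.elim ![1, 0] 0 := by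
        rw [blk1_val, vecMul_fromBlocks, lo_val]
        congr 1
        · funext i
          fin_cases i <;> simp
        · simp
      rw [this, k1]
    · show _ ᵥ* ((blk1 (lo 1)).1 * γ.1) = _
      rw [← vecMul_vecMul, ← hs', k2]
  · exact main s hs ha

theorem rowmul (B C : SpecialLinearGroup Ix F) (i : Ix) : (B * C).1 i = (B.1 i) ᵥ* C.1 := by
  funext j
  rfl

theorem form_rows (B : SpecialLinearGroup Ix F) (hB : B ∈ SpB F) (i j : Ix) :
    (B.1 i ᵥ* Om) ⬝ᵥ B.1 j = Om i j := by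
  have h : B.1 * Om * B.1ᵀ = Om := hB
  rw [← congrFun (congrFun h i) j]
  rfl

theorem e0Om : (Sum.elim ![1, 0] 0 : Ix → F) ᵥ* Om = Sum.elim ![0, -1] 0 := by
  rw [Om, vecMul_fromBlocks, om]
  congr 1
  · funext i; fin_cases i <;> simp
  · simp

theorem e1Om : (Sum.elim ![0, 1] 0 : Ix → F) ᵥ* Om = Sum.elim ![1, 0] 0 := by
  rw [Om, vecMul_fromBlocks, om]
  congr 1
  · funext i; fin_cases i <;> simp
  · simp

/-- An element of the symplectic group whose first two rows are the standard ones lies in the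
second block subgroup. -/
theorem eq_blk2_of_rows (A2 : SpecialLinearGroup Ix F) (hA2Sp : A2 ∈ SpB F)
    (q0 : A2.1 (Sum.inl 0) = Sum.elim ![1, 0] 0) (q1 : A2.1 (Sum.inl 1) = Sum.elim ![0, 1] 0) :
    ∃ x, A2 = blk2 x := by
  have q2 : ∀ k, A2.1 (Sum.inr k) (Sum.inl 1) = 0 := by
    intro k
    have h := form_rows A2 hA2Sp (Sum.inl 0) (Sum.inr k)
    rw [q0, e0Om, dotProduct, Fintype.sum_sum_type, Om] at h
    simp [Fin.sum_univ_two] at h
    exact h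
  have q3 : ∀ k, A2.1 (Sum.inr k) (Sum.inl 0) = 0 := by
    intro k
    have h := form_rows A2 hA2Sp (Sum.inl 1) (Sum.inr k)
    rw [q1, e1Om, dotProduct, Fintype.sum_sum_type, Om] at h
    simp [Fin.sum_univ_two] at h
    exact h
  have hA2e : A2.1 = fromBlocks 1 0 0 A2.1.toBlocks₂₂ := by
    refine Matrix.ext fun i j => ?_
    rcases i with i | i
    · fin_cases i
      · show A2.1 (Sum.inl 0) j = _
        rw [q0]
        rcases j with j | j <;> fin_cases j <;> simp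
      · show A2.1 (Sum.inl 1) j = _
        rw [q1]
        rcases j with j | j <;> fin_cases j <;> simp
    · rcases j with j | j
      · fin_cases j
        · show A2.1 (Sum.inr i) (Sum.inl 0) = _
          rw [q3]; simp
        · show A2.1 (Sum.inr i) (Sum.inl 1) = _
          rw [q2]; simp
      · simp [Matrix.toBlocks₂₂]
  have hdet : A2.1.toBlocks₂₂.det = 1 := by
    have := A2.2
    rw [hA2e, det_fromBlocks_zero₁₂, det_one, one_mul] at this
    exact this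
  exact ⟨⟨A2.1.toBlocks₂₂, hdet⟩, Subtype.ext hA2e⟩

/-- **Generation.** -/
theorem SpB_le_H (hle : H ≤ SpB F) (h1 : ∀ x, blk1 x ∈ H) (h2 : ∀ x, blk2 x ∈ H)
    (h3 : tvM ∈ H) : SpB F ≤ H := by
  intro A hA
  have h10 : (![1, 0] : Fin 2 → F) ≠ 0 := by
    intro h
    have := congrFun h 0
    simp at this
  -- first row
  have hrow : A.1 (Sum.inl 0) ≠ 0 := A.row_ne_zero (Sum.inl 0)
  obtain ⟨γ, hγ, k0⟩ := orbH_of_ne_zero h1 h2 h3 (A.1 (Sum.inl 0)) hrow ![1, 0] h10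
  set A1 := A * γ with hA1
  have hA1Sp : A1 ∈ SpB F := Subgroup.mul_mem _ hA (hle hγ)
  have r0 : A1.1 (Sum.inl 0) = Sum.elim ![1, 0] 0 := by rw [hA1, rowmul, k0]
  have r1 : A1.1 (Sum.inl 1) (Sum.inl 1) = 1 := by
    have h := form_rows A1 hA1Sp (Sum.inl 0) (Sum.inl 1)
    rw [r0, e0Om, dotProduct, Fintype.sum_sum_type, Om, om] at h
    simp [Fin.sum_univ_two] at h
    exact h
  obtain ⟨γ2, hγ2, k1, k2⟩ := move_secondH hle h1 h2 h3 (A1.1 (Sum.inl 1)) r1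
  set A2 := A1 * γ2 with hA2
  have hA2Sp : A2 ∈ SpB F := Subgroup.mul_mem _ hA1Sp (hle hγ2)
  have q0 : A2.1 (Sum.inl 0) = Sum.elim ![1, 0] 0 := by rw [hA2, rowmul, r0, k1]
  have q1 : A2.1 (Sum.inl 1) = Sum.elim ![0, 1] 0 := by rw [hA2, rowmul, k2]
  obtain ⟨x, hx⟩ := eq_blk2_of_rows A2 hA2Sp q0 q1
  have hA2G : A2 ∈ H := by
    rw [hx]
    exact h2 _
  have hA : A = A2 * γ2⁻¹ * γ⁻¹ := by rw [hA2, hA1]; group
  rw [hA]
  exact Subgroup.mul_mem _ (Subgroup.mul_mem _ hA2G (Subgroup.inv_mem _ hγ2))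
    (Subgroup.inv_mem _ hγ)

end

end Pool.Agent.Lib.MP_ca8614_al
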