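import Pool.Agent.Lib.MP_ca8614_al.Invol

set_option autoImplicit false

open Matrix

namespace Pool.Agent.Lib.MP_ca8614_al

variable {F : Type*} [Field F]

/-- the embedding of `SL 2` as the first block -/
def blk1 : SpecialLinearGroup (Fin 2) F →* SpecialLinearGroup Ix F where
  toFun x := ⟨fromBlocks x.1 0 0 1, by rw [det_fromBlocks_zero₁₂, x.2, det_one, mul_one]⟩
  map_one' := by
    apply Subtype.ext
    show fromBlocks (1 : Matrix (Fin 2) (Fin 2) F) 0 0 1 = 1
    exact fromBlocks_one
  map_mul' x y := by
    apply Subtype.ext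
    show fromBlocks (x.1 * y.1) 0 0 1 = fromBlocks x.1 0 0 1 * fromBlocks y.1 0 0 1
    rw [fromBlocks_multiply]
    simp

/-- the embedding of `SL 2` as the second block -/
def blk2 : SpecialLinearGroup (Fin 2) F →* SpecialLinearGroup Ix F where
  toFun x := ⟨fromBlocks 1 0 0 x.1, by rw [det_fromBlocks_zero₁₂, x.2, det_one, one_mul]⟩
  map_one' := by
    apply Subtype.ext
    show fromBlocks (1 : Matrix (Fin 2) (Fin 2) F) 0 0 1 = 1
    exact fromBlocks_one
  map_mul' x y := by
    apply Subtype.ext
    show fromBlocks 1 0 0 (x.1 * y.1) = fromBlocks 1 0 0 x.1 * fromBlocks 1 0 0 y.1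
    rw [fromBlocks_multiply]
    simp

theorem blk1_val (x : SpecialLinearGroup (Fin 2) F) : (blk1 x).1 = fromBlocks x.1 0 0 1 := rfl
theorem blk2_val (x : SpecialLinearGroup (Fin 2) F) : (blk2 x).1 = fromBlocks 1 0 0 x.1 := rfl

/-- the generators: elements of order dividing `p` lying over the images of such elements -/
def gen (p : ℕ) (Ψ : SpecialLinearGroup (Fin 2) F →* ProjectiveSpecialLinearGroup Ix F) :
    Set (SpecialLinearGroup Ix F) :=
  {X | X ^ p = 1 ∧ ∃ x : SpecialLinearGroup (Fin 2) F, x ^ p = 1 ∧ mk4 X = Ψ x}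

/-- the submonoid generated by them -/
def Mon (p : ℕ) (Ψ : SpecialLinearGroup (Fin 2) F →* ProjectiveSpecialLinearGroup Ix F) :
    Submonoid (SpecialLinearGroup Ix F) := Submonoid.closure (gen p Ψ)

section

variable (p : ℕ) [hp : Fact p.Prime] [CharP F p]

theorem up_pow_p (a : F) : up a ^ p = 1 := by
  rw [up_pow, CharP.cast_eq_zero, zero_mul, up_zero]

theorem lo_pow_p (a : F) : lo a ^ p = 1 := by
  rw [lo_pow, CharP.cast_eq_zero, zero_mul, lo_zero]

include hp in
theorem Mon_surj (hp2 : p ≠ 2)
    (Ψ : SpecialLinearGroup (Fin 2) F →* ProjectiveSpecialLinearGroup Ix F)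
    (x : SpecialLinearGroup (Fin 2) F) : ∃ m ∈ Mon p Ψ, mk4 m = Ψ x := by
  refine SL2_induction (fun x => ∃ m ∈ Mon p Ψ, mk4 m = Ψ x) ?_ ?_ ?_ x
  · intro a
    obtain ⟨X, hX, hXp⟩ := exists_lift p hp2 (y := Ψ (up a)) (by
      rw [← map_pow, up_pow_p, map_one])
    exact ⟨X, Submonoid.subset_closure ⟨hXp, up a, up_pow_p p a, hX⟩, hX⟩
  · intro a
    obtain ⟨X, hX, hXp⟩ := exists_lift p hp2 (y := Ψ (lo a)) (by
      rw [← map_pow, lo_pow_p, map_one])
    exact ⟨X, Submonoid.subset_closure ⟨hXp, lo a, lo_pow_p p a, hX⟩, hX⟩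
  · rintro A B ⟨m, hm, h⟩ ⟨m', hm', h'⟩
    exact ⟨m * m', mul_mem hm hm', by rw [mk4_mul, h, h', map_mul]⟩

/-- If matrices of order dividing `p` generate `-1` and commute with a further such matrix `C`,
then `C = 1`. -/
theorem comm_block (hp2 : p ≠ 2) (S : Set (Matrix (Fin 2) (Fin 2) F)) (hS : ∀ A ∈ S, A ^ p = 1)
    (C : Matrix (Fin 2) (Fin 2) F) (hC : C ^ p = 1) (hcomm : ∀ A ∈ S, A * C = C * A)
    (hneg : (-1 : Matrix (Fin 2) (Fin 2) F) ∈ Submonoid.closure S) : C = 1 := by
  have h2ne : (2 : F) ≠ 0 := by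
    have := (CharP.cast_eq_zero_iff F p 2).not.2 (by
      intro hd
      exact hp2 ((Nat.prime_dvd_prime_iff_eq hp.out Nat.prime_two).1 hd))
    exact_mod_cast this
  by_contra hC1
  set N := C - 1 with hN
  have hN0 : N ≠ 0 := sub_ne_zero.2 hC1
  obtain ⟨n1, n2⟩ := sq_eq_zero_of_nilpotent (⟨p, sub_one_pow_char p hC⟩ : IsNilpotent N)
  set a := N 0 0 with ha
  set b := N 0 1 with hb
  set c := N 1 0 with hc
  have hNe : N = !![a, b; c, -a] := by
    refine Matrix.ext fun i j => ?_
    fin_cases i <;> fin_cases j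
    · simp [ha]
    · simp [hb]
    · simp [hc]
    · simpa using n1
  have hNN : N * N = 0 := by
    rw [hNe]
    refine Matrix.ext fun i j => ?_
    fin_cases i <;> fin_cases j
    · simp; linear_combination n2
    · simp; ring
    · simp; ring
    · simp; linear_combination n2
  have key : ∀ A ∈ S, ∃ y : F, A = 1 + y • N := by
    intro A hA
    obtain ⟨m1, m2⟩ := sq_eq_zero_of_nilpotent
      (⟨p, sub_one_pow_char p (hS A hA)⟩ : IsNilpotent (A - 1))
    set B := A - 1 with hB
    set b1 := B 0 0 with hb1
    set b2 := B 0 1 with hb2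
    set b3 := B 1 0 with hb3
    have hBe : B = !![b1, b2; b3, -b1] := by
      refine Matrix.ext fun i j => ?_
      fin_cases i <;> fin_cases j
      · simp [hb1]
      · simp [hb2]
      · simp [hb3]
      · simpa using m1
    have hBN : B * N = N * B := by
      have q1 : (A - 1) * (C - 1) = A * C - A - C + 1 := by noncomm_ring
      have q2 : (C - 1) * (A - 1) = C * A - A - C + 1 := by noncomm_ring
      rw [hB, hN, q1, q2, hcomm A hA]
    rw [hBe, hNe] at hBN
    have c00 := congrFun (congrFun hBN 0) 0
    have c01 := congrFun (congrFun hBN 0) 1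
    have c10 := congrFun (congrFun hBN 1) 0
    simp at c00 c01 c10
    have e1 : b2 * c = b * b3 := by linear_combination c00
    have e2 : b1 * b = b2 * a := by
      have : 2 * (b1 * b - b2 * a) = 0 := by linear_combination c01
      have := (mul_eq_zero.1 this).resolve_left h2ne
      linear_combination this
    have e3 : b3 * a = b1 * c := by
      have : 2 * (b3 * a - b1 * c) = 0 := by linear_combination c10
      have := (mul_eq_zero.1 this).resolve_left h2ne
      linear_combination this
    have hy : ∃ y : F, b1 = y * a ∧ b2 = y * b ∧ b3 = y * c := by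
      by_cases ha0 : a = 0
      · by_cases hb0 : b = 0
        · have hc0 : c ≠ 0 := by
            intro hc0
            apply hN0
            rw [hNe, ha0, hb0, hc0]
            refine Matrix.ext fun i j => ?_
            fin_cases i <;> fin_cases j <;> simp
          refine ⟨b3 / c, ?_, ?_, ?_⟩
          · rw [ha0, mul_zero]
            rw [ha0, mul_zero] at e3
            exact (mul_eq_zero.1 e3.symm).resolve_right hc0
          · rw [hb0, mul_zero]
            rw [hb0, zero_mul] at e1
            exact (mul_eq_zero.1 e1).resolve_right hc0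
          · field_simp
        · refine ⟨b2 / b, ?_, ?_, ?_⟩
          · rw [ha0, mul_zero]
            rw [ha0, mul_zero] at e2
            exact (mul_eq_zero.1 e2).resolve_right hb0
          · field_simp
          · field_simp
            linear_combination -e1
      · refine ⟨b1 / a, ?_, ?_, ?_⟩
        · field_simp
        · field_simp
          linear_combination -e2
        · field_simp
          linear_combination e3
    obtain ⟨y, y1, y2, y3⟩ := hy
    refine ⟨y, ?_⟩
    have : A = 1 + B := by rw [hB]; abel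
    rw [this, hBe, hNe, y1, y2, y3]
    congr 1
    refine Matrix.ext fun i j => ?_
    fin_cases i <;> fin_cases j <;> simp
  have key2 : ∀ A ∈ Submonoid.closure S, ∃ y : F, A = 1 + y • N := by
    intro A hA
    induction hA using Submonoid.closure_induction with
    | mem A hA => exact key A hA
    | one => exact ⟨0, by simp⟩
    | mul A B _ _ hA hB =>
      obtain ⟨y, rfl⟩ := hA
      obtain ⟨z, rfl⟩ := hB
      refine ⟨y + z, ?_⟩
      rw [add_mul, mul_add, mul_add, smul_mul_smul_comm, hNN, smul_zero, one_mul, one_mul, mul_one,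
        add_zero, add_smul]
      abel
  obtain ⟨y, hy⟩ := key2 _ hneg
  have h3 : y • N = -(2 : F) • (1 : Matrix (Fin 2) (Fin 2) F) := by
    have : y • N = -1 - 1 := by rw [hy]; abel
    rw [this, neg_smul, two_smul]; abel
  have h4 : (y • N) * (y • N) = 0 := by
    rw [smul_mul_smul_comm, hNN, smul_zero]
  rw [h3, smul_mul_smul_comm, mul_one] at h4
  have h5 := congrFun (congrFun h4 0) 0
  simp at h5
  exact h2ne h5

end

end Pool.Agent.Lib.MP_ca8614_al
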