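import Pool.Agent.Lib.MP_ca8614_al.Split

set_option autoImplicit false

open Matrix

namespace Pool.Agent.Lib.MP_ca8614_al

variable {F : Type*} [Field F]

/-- the element `-1` of `SL 2` -/
def negI : SpecialLinearGroup (Fin 2) F := ⟨-1, by simp [Matrix.det_fin_two]⟩

theorem negI_val : (negI : SpecialLinearGroup (Fin 2) F).1 = -1 := rfl

theorem negI_comm (x : SpecialLinearGroup (Fin 2) F) : negI * x = x * negI := by
  apply Subtype.ext
  show (-1) * x.1 = x.1 * (-1)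
  simp

theorem negI_sq : (negI : SpecialLinearGroup (Fin 2) F) * negI = 1 := by
  apply Subtype.ext
  show (-1 : Matrix (Fin 2) (Fin 2) F) * (-1) = 1
  simp

theorem negI_ne_one (h2 : (2 : F) ≠ 0) : (negI : SpecialLinearGroup (Fin 2) F) ≠ 1 := by
  intro h
  have h1 : (-1 : Matrix (Fin 2) (Fin 2) F) = 1 := congrArg Subtype.val h
  have := congrFun (congrFun h1 0) 0
  simp at this
  apply h2
  linear_combination -this

theorem blk_comm (x y : SpecialLinearGroup (Fin 2) F) : blk1 x * blk2 y = blk2 y * blk1 x := by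
  apply Subtype.ext
  show fromBlocks x.1 0 0 1 * fromBlocks 1 0 0 y.1 = fromBlocks 1 0 0 y.1 * fromBlocks x.1 0 0 1
  rw [fromBlocks_multiply, fromBlocks_multiply]
  simp

theorem blockdiag_of_commute (h2 : (2 : F) ≠ 0) (X : SpecialLinearGroup Ix F)
    (h : X * blk1 negI = blk1 negI * X) :
    X.1.toBlocks₁₂ = 0 ∧ X.1.toBlocks₂₁ = 0 := by
  have h1 : X.1 * fromBlocks (-1) 0 0 1 = fromBlocks (-1) 0 0 1 * X.1 := congrArg Subtype.val h
  rw [← fromBlocks_toBlocks X.1, fromBlocks_multiply, fromBlocks_multiply, fromBlocks_inj] at h1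
  obtain ⟨-, h12, h21, -⟩ := h1
  simp only [mul_zero, mul_one, zero_add, neg_mul, one_mul, zero_mul, add_zero, mul_neg] at h12 h21
  constructor
  · have : (2 : F) • X.1.toBlocks₁₂ = 0 := by
      rw [two_smul]; nth_rewrite 1 [h12]; exact neg_add_cancel _
    exact (smul_eq_zero.1 this).resolve_left h2
  · have : (2 : F) • X.1.toBlocks₂₁ = 0 := by
      rw [two_smul]; nth_rewrite 1 [← h21]; exact neg_add_cancel _
    exact (smul_eq_zero.1 this).resolve_left h2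

theorem blocks_mul {X Y : Matrix Ix Ix F} (h12 : X.toBlocks₁₂ = 0) (h21 : X.toBlocks₂₁ = 0)
    (k12 : Y.toBlocks₁₂ = 0) (k21 : Y.toBlocks₂₁ = 0) :
    (X * Y).toBlocks₁₂ = 0 ∧ (X * Y).toBlocks₂₁ = 0 ∧
    (X * Y).toBlocks₁₁ = X.toBlocks₁₁ * Y.toBlocks₁₁ ∧
    (X * Y).toBlocks₂₂ = X.toBlocks₂₂ * Y.toBlocks₂₂ := by
  have hX : X = fromBlocks X.toBlocks₁₁ 0 0 X.toBlocks₂₂ := by
    conv_lhs => rw [← fromBlocks_toBlocks X, h12, h21]
  have hY : Y = fromBlocks Y.toBlocks₁₁ 0 0 Y.toBlocks₂₂ := by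
    conv_lhs => rw [← fromBlocks_toBlocks Y, k12, k21]
  rw [hX, hY, fromBlocks_multiply]
  simp

theorem blocks_pow {X : Matrix Ix Ix F} (h12 : X.toBlocks₁₂ = 0) (h21 : X.toBlocks₂₁ = 0)
    (n : ℕ) : (X ^ n).toBlocks₁₂ = 0 ∧ (X ^ n).toBlocks₂₁ = 0 ∧
    (X ^ n).toBlocks₁₁ = X.toBlocks₁₁ ^ n ∧
    (X ^ n).toBlocks₂₂ = X.toBlocks₂₂ ^ n := by
  induction n with
  | zero =>
    rw [pow_zero, pow_zero, pow_zero]
    have e : (1 : Matrix Ix Ix F) = fromBlocks 1 0 0 1 := fromBlocks_one.symm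
    exact ⟨by rw [e, toBlocks_fromBlocks₁₂], by rw [e, toBlocks_fromBlocks₂₁],
      by rw [e, toBlocks_fromBlocks₁₁], by rw [e, toBlocks_fromBlocks₂₂]⟩
  | succ n ih =>
    obtain ⟨i1, i2, i3, i4⟩ := ih
    obtain ⟨j1, j2, j3, j4⟩ := blocks_mul i1 i2 h12 h21
    rw [pow_succ, pow_succ, pow_succ]
    exact ⟨j1, j2, by rw [j3, i3], by rw [j4, i4]⟩

section

variable (p : ℕ) [hp : Fact p.Prime] [CharP F p]

include hp in
theorem two_ne_zero_of_char (hp2 : p ≠ 2) : (2 : F) ≠ 0 := by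
  have := (CharP.cast_eq_zero_iff F p 2).not.2 (by
    intro hd
    exact hp2 ((Nat.prime_dvd_prime_iff_eq hp.out Nat.prime_two).1 hd))
  exact_mod_cast this

/-- elements of the two monoids commute -/
theorem gen_comm {Ψ1 Ψ2 : SpecialLinearGroup (Fin 2) F →* ProjectiveSpecialLinearGroup Ix F}
    (hcomm : ∀ x y, Ψ1 x * Ψ2 y = Ψ2 y * Ψ1 x) {X Y : SpecialLinearGroup Ix F}
    (hX : X ∈ gen p Ψ1) (hY : Y ∈ gen p Ψ2) : X * Y = Y * X := by
  obtain ⟨hXp, x, -, hx⟩ := hX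
  obtain ⟨hYp, y, -, hy⟩ := hY
  apply lift_conj p _ hYp hYp
  rw [hx, hy, hcomm]

theorem comm_of_mk {A : SpecialLinearGroup Ix F}
    {Ψ : SpecialLinearGroup (Fin 2) F →* ProjectiveSpecialLinearGroup Ix F}
    (hA : ∀ x, mk4 A * Ψ x = Ψ x * mk4 A) {X : SpecialLinearGroup Ix F}
    (hX : X ∈ gen p Ψ) : A * X = X * A := by
  obtain ⟨hXp, x, -, hx⟩ := hX
  apply lift_conj p _ hXp hXp
  rw [hx, hA]

/-- **Splitting.** -/
theorem split2 (hp2 : p ≠ 2)
    (Ψ1 Ψ2 : SpecialLinearGroup (Fin 2) F →* ProjectiveSpecialLinearGroup Ix F)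
    (hi1 : Function.Injective Ψ1) (hi2 : Function.Injective Ψ2)
    (hcomm : ∀ x y, Ψ1 x * Ψ2 y = Ψ2 y * Ψ1 x) (hneg : Ψ1 negI = Ψ2 negI)
    (hz : blk1 negI ∈ Mon p Ψ1) (hz' : mk4 (blk1 negI) = Ψ1 negI) :
    ∃ θ1 θ2 : SpecialLinearGroup (Fin 2) F →* SpecialLinearGroup (Fin 2) F,
      Function.Injective θ1 ∧ Function.Injective θ2 ∧
      (∀ x, Ψ1 x = mk4 (blk1 (θ1 x))) ∧ (∀ x, Ψ2 x = mk4 (blk2 (θ2 x))) := by
  have h2 : (2 : F) ≠ 0 := two_ne_zero_of_char p hp2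
  have hzc1 : ∀ x, mk4 (blk1 negI) * Ψ1 x = Ψ1 x * mk4 (blk1 negI) := by
    intro x
    rw [hz', ← map_mul, negI_comm, map_mul]
  have hzc2 : ∀ x, mk4 (blk1 negI) * Ψ2 x = Ψ2 x * mk4 (blk1 negI) := by
    intro x
    rw [hz', hneg, ← map_mul, negI_comm, map_mul]
  have bd1 : ∀ X ∈ gen p Ψ1, X.1.toBlocks₁₂ = 0 ∧ X.1.toBlocks₂₁ = 0 := fun X hX =>
    blockdiag_of_commute h2 X (comm_of_mk p hzc1 hX).symm
  have bd2 : ∀ X ∈ gen p Ψ2, X.1.toBlocks₁₂ = 0 ∧ X.1.toBlocks₂₁ = 0 := fun X hX =>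
    blockdiag_of_commute h2 X (comm_of_mk p hzc2 hX).symm
  -- the first block of the lifts of the second copy is trivial
  have step1 : ∀ Y ∈ gen p Ψ2, Y.1.toBlocks₁₁ = 1 := by
    intro Y hY
    have hYp : Y.1 ^ p = 1 := congrArg Subtype.val hY.1
    apply comm_block p hp2 {A | ∃ X ∈ gen p Ψ1, X.1.toBlocks₁₁ = A}
    · rintro _ ⟨X, hX, rfl⟩
      have hXp : X.1 ^ p = 1 := congrArg Subtype.val hX.1
      rw [← (blocks_pow (bd1 X hX).1 (bd1 X hX).2 p).2.2.1, hXp, ← fromBlocks_one,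
        toBlocks_fromBlocks₁₁]
    · rw [← (blocks_pow (bd2 Y hY).1 (bd2 Y hY).2 p).2.2.1, hYp, ← fromBlocks_one,
        toBlocks_fromBlocks₁₁]
    · rintro _ ⟨X, hX, rfl⟩
      have hXY : X.1 * Y.1 = Y.1 * X.1 := congrArg Subtype.val (gen_comm p hcomm hX hY)
      rw [← (blocks_mul (bd1 X hX).1 (bd1 X hX).2 (bd2 Y hY).1 (bd2 Y hY).2).2.2.1, hXY,
        (blocks_mul (bd2 Y hY).1 (bd2 Y hY).2 (bd1 X hX).1 (bd1 X hX).2).2.2.1]
    · have key : ∀ X ∈ Mon p Ψ1, X.1.toBlocks₁₂ = 0 ∧ X.1.toBlocks₂₁ = 0 ∧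
          X.1.toBlocks₁₁ ∈ Submonoid.closure {A | ∃ X ∈ gen p Ψ1, X.1.toBlocks₁₁ = A} := by
        intro X hX
        induction hX using Submonoid.closure_induction with
        | mem X hX => exact ⟨(bd1 X hX).1, (bd1 X hX).2, Submonoid.subset_closure ⟨X, hX, rfl⟩⟩
        | one =>
          have e : (1 : SpecialLinearGroup Ix F).1 = fromBlocks 1 0 0 1 := fromBlocks_one.symm
          rw [e]
          refine ⟨rfl, rfl, ?_⟩
          rw [toBlocks_fromBlocks₁₁]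
          exact Submonoid.one_mem _
        | mul X Y _ _ hX hY =>
          obtain ⟨x1, x2, x3⟩ := hX
          obtain ⟨y1, y2, y3⟩ := hY
          obtain ⟨j1, j2, j3, -⟩ := blocks_mul x1 x2 y1 y2
          exact ⟨j1, j2, by
            show (X.1 * Y.1).toBlocks₁₁ ∈ _
            rw [j3]; exact Submonoid.mul_mem _ x3 y3⟩
      have := (key _ hz).2.2
      rwa [blk1_val, toBlocks_fromBlocks₁₁, negI_val] at this
  have step1' : ∀ Y ∈ Mon p Ψ2, Y.1.toBlocks₁₂ = 0 ∧ Y.1.toBlocks₂₁ = 0 ∧ Y.1.toBlocks₁₁ = 1 ∧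
      Y.1.toBlocks₂₂ ∈ Submonoid.closure {A | ∃ X ∈ gen p Ψ2, X.1.toBlocks₂₂ = A} := by
    intro X hX
    induction hX using Submonoid.closure_induction with
    | mem X hX => exact ⟨(bd2 X hX).1, (bd2 X hX).2, step1 X hX,
        Submonoid.subset_closure ⟨X, hX, rfl⟩⟩
    | one =>
      have e : (1 : SpecialLinearGroup Ix F).1 = fromBlocks 1 0 0 1 := fromBlocks_one.symm
      rw [e]
      refine ⟨rfl, rfl, rfl, ?_⟩
      rw [toBlocks_fromBlocks₂₂]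
      exact Submonoid.one_mem _
    | mul X Y _ _ hX hY =>
      obtain ⟨x1, x2, x3, x4⟩ := hX
      obtain ⟨y1, y2, y3, y4⟩ := hY
      obtain ⟨j1, j2, j3, j4⟩ := blocks_mul x1 x2 y1 y2
      refine ⟨j1, j2, ?_, ?_⟩
      · show (X.1 * Y.1).toBlocks₁₁ = 1
        rw [j3, x3, y3, one_mul]
      · show (X.1 * Y.1).toBlocks₂₂ ∈ _
        rw [j4]; exact Submonoid.mul_mem _ x4 y4
  -- the element `-1` of the second copy
  have hneg2 : (-1 : Matrix (Fin 2) (Fin 2) F) ∈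
      Submonoid.closure {A | ∃ X ∈ gen p Ψ2, X.1.toBlocks₂₂ = A} := by
    obtain ⟨m, hm, hm'⟩ := Mon_surj p hp2 Ψ2 negI
    rw [← hneg, ← hz', eq_comm, mk4_eq_iff] at hm'
    obtain ⟨r, -, hr⟩ := hm'
    obtain ⟨-, -, h11, h22⟩ := step1' m hm
    rw [hr, blk1_val, fromBlocks_smul, toBlocks_fromBlocks₁₁, negI_val] at h11
    rw [hr, blk1_val, fromBlocks_smul, toBlocks_fromBlocks₂₂] at h22
    have hr1 : r = -1 := by
      have := congrFun (congrFun h11 0) 0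
      simp at this
      linear_combination -this
    rw [hr1, neg_smul, one_smul] at h22
    exact h22
  have step2 : ∀ X ∈ gen p Ψ1, X.1.toBlocks₂₂ = 1 := by
    intro X hX
    have hXp : X.1 ^ p = 1 := congrArg Subtype.val hX.1
    apply comm_block p hp2 {A | ∃ X ∈ gen p Ψ2, X.1.toBlocks₂₂ = A} _ _ _ _ hneg2
    · rintro _ ⟨Y, hY, rfl⟩
      have hYp : Y.1 ^ p = 1 := congrArg Subtype.val hY.1
      rw [← (blocks_pow (bd2 Y hY).1 (bd2 Y hY).2 p).2.2.2, hYp, ← fromBlocks_one,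
        toBlocks_fromBlocks₂₂]
    · rw [← (blocks_pow (bd1 X hX).1 (bd1 X hX).2 p).2.2.2, hXp, ← fromBlocks_one,
        toBlocks_fromBlocks₂₂]
    · rintro _ ⟨Y, hY, rfl⟩
      have hXY : X.1 * Y.1 = Y.1 * X.1 := congrArg Subtype.val (gen_comm p hcomm hX hY)
      rw [← (blocks_mul (bd2 Y hY).1 (bd2 Y hY).2 (bd1 X hX).1 (bd1 X hX).2).2.2.2, ← hXY,
        (blocks_mul (bd1 X hX).1 (bd1 X hX).2 (bd2 Y hY).1 (bd2 Y hY).2).2.2.2]
  -- existence of the values of `θ1`, `θ2`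
  have ex1 : ∀ x, ∃ A : SpecialLinearGroup (Fin 2) F, Ψ1 x = mk4 (blk1 A) := by
    have hgen : ∀ x : SpecialLinearGroup (Fin 2) F, x ^ p = 1 → ∃ A, Ψ1 x = mk4 (blk1 A) := by
      intro x hx
      obtain ⟨X, hX, hXp⟩ := exists_lift p hp2 (y := Ψ1 x) (by rw [← map_pow, hx, map_one])
      have hXg : X ∈ gen p Ψ1 := ⟨hXp, x, hx, hX⟩
      have hXe : X.1 = fromBlocks X.1.toBlocks₁₁ 0 0 1 := by
        conv_lhs => rw [← fromBlocks_toBlocks X.1, (bd1 X hXg).1, (bd1 X hXg).2, step2 X hXg]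
      have hdet : X.1.toBlocks₁₁.det = 1 := by
        have := X.2
        rw [hXe, det_fromBlocks_zero₁₂, det_one, mul_one] at this
        exact this
      refine ⟨⟨X.1.toBlocks₁₁, hdet⟩, ?_⟩
      rw [← hX]
      congr 1
      exact Subtype.ext hXe
    intro x
    refine SL2_induction (fun x => ∃ A : SpecialLinearGroup (Fin 2) F, Ψ1 x = mk4 (blk1 A))
      (fun a => hgen _ (up_pow_p p a)) (fun a => hgen _ (lo_pow_p p a)) ?_ x
    rintro A B ⟨A', hA⟩ ⟨B', hB⟩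
    exact ⟨A' * B', by rw [map_mul, map_mul, hA, hB, mk4_mul]⟩
  have ex2 : ∀ x, ∃ A : SpecialLinearGroup (Fin 2) F, Ψ2 x = mk4 (blk2 A) := by
    have hgen : ∀ x : SpecialLinearGroup (Fin 2) F, x ^ p = 1 → ∃ A, Ψ2 x = mk4 (blk2 A) := by
      intro x hx
      obtain ⟨X, hX, hXp⟩ := exists_lift p hp2 (y := Ψ2 x) (by rw [← map_pow, hx, map_one])
      have hXg : X ∈ gen p Ψ2 := ⟨hXp, x, hx, hX⟩
      have hXe : X.1 = fromBlocks 1 0 0 X.1.toBlocks₂₂ := by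
        conv_lhs => rw [← fromBlocks_toBlocks X.1, (bd2 X hXg).1, (bd2 X hXg).2, step1 X hXg]
      have hdet : X.1.toBlocks₂₂.det = 1 := by
        have := X.2
        rw [hXe, det_fromBlocks_zero₁₂, det_one, one_mul] at this
        exact this
      refine ⟨⟨X.1.toBlocks₂₂, hdet⟩, ?_⟩
      rw [← hX]
      congr 1
      exact Subtype.ext hXe
    intro x
    refine SL2_induction (fun x => ∃ A : SpecialLinearGroup (Fin 2) F, Ψ2 x = mk4 (blk2 A))
      (fun a => hgen _ (up_pow_p p a)) (fun a => hgen _ (lo_pow_p p a)) ?_ x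
    rintro A B ⟨A', hA⟩ ⟨B', hB⟩
    exact ⟨A' * B', by rw [map_mul, map_mul, hA, hB, mk4_mul]⟩
  have un1 : ∀ A B : SpecialLinearGroup (Fin 2) F, mk4 (blk1 A) = mk4 (blk1 B) → A = B := by
    intro A B h
    obtain ⟨r, -, hr⟩ := (mk4_eq_iff _ _).1 h
    rw [blk1_val, blk1_val, fromBlocks_smul, fromBlocks_inj] at hr
    obtain ⟨r1, -, -, r2⟩ := hr
    have hr1 : r = 1 := by
      have := congrFun (congrFun r2 0) 0
      simp at this
      exact this.symm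
    rw [hr1, one_smul] at r1
    exact Subtype.ext r1.symm
  have un2 : ∀ A B : SpecialLinearGroup (Fin 2) F, mk4 (blk2 A) = mk4 (blk2 B) → A = B := by
    intro A B h
    obtain ⟨r, -, hr⟩ := (mk4_eq_iff _ _).1 h
    rw [blk2_val, blk2_val, fromBlocks_smul, fromBlocks_inj] at hr
    obtain ⟨r1, -, -, r2⟩ := hr
    have hr1 : r = 1 := by
      have := congrFun (congrFun r1 0) 0
      simp at this
      exact this.symm
    rw [hr1, one_smul] at r2
    exact Subtype.ext r2.symm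
  choose t1 ht1 using ex1
  choose t2 ht2 using ex2
  refine ⟨MonoidHom.mk' t1 ?_, MonoidHom.mk' t2 ?_, ?_, ?_, ht1, ht2⟩
  · intro x y
    apply un1
    rw [← ht1, map_mul, ht1 x, ht1 y, map_mul, mk4_mul]
  · intro x y
    apply un2
    rw [← ht2, map_mul, ht2 x, ht2 y, map_mul, mk4_mul]
  · intro x y hxy
    apply hi1
    have hxy' : t1 x = t1 y := hxy
    rw [ht1 x, ht1 y, hxy']
  · intro x y hxy
    apply hi2
    have hxy' : t2 x = t2 y := hxy
    rw [ht2 x, ht2 y, hxy']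

end

end Pool.Agent.Lib.MP_ca8614_al
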