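import Pool.Agent.Lib.MP_ca8614_al.Split2

set_option autoImplicit false

open Matrix

namespace Pool.Agent.Lib.MP_ca8614_al

variable {F : Type*} [Field F]

section

variable (p : ℕ) [hp : Fact p.Prime] [CharP F p]

/-- determinant of the action on the `+1` eigenspace of `s` -/
theorem det_proj {s : Matrix Ix Ix F} (hs : s * s = 1) (h2 : (2 : F) ≠ 0)
    (S : Set (SpecialLinearGroup Ix F)) (hS : ∀ X ∈ S, X ^ p = 1) (hc : ∀ X ∈ S, X.1 * s = s * X.1)
    {m : SpecialLinearGroup Ix F} (hm : m ∈ Submonoid.closure S) :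
    (m.1 * ((2 : F)⁻¹ • (1 + s)) + (2 : F)⁻¹ • (1 - s)).det = 1 := by
  set e : Matrix Ix Ix F := (2 : F)⁻¹ • (1 + s) with he
  set f : Matrix Ix Ix F := (2 : F)⁻¹ • (1 - s) with hf
  have h4 : (2 : F)⁻¹ * (2 : F)⁻¹ * 2 = (2 : F)⁻¹ := by field_simp
  have hee : e * e = e := by
    have : (1 + s) * (1 + s) = (2 : F) • (1 + s) := by
      rw [two_smul]
      have : (1 + s) * (1 + s) = 1 + s + s + s * s := by noncomm_ring
      rw [this, hs]; abel
    rw [he, smul_mul_smul_comm, this, smul_smul, h4]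
  have hff : f * f = f := by
    have : (1 - s) * (1 - s) = (2 : F) • (1 - s) := by
      rw [two_smul]
      have : (1 - s) * (1 - s) = 1 - s - s + s * s := by noncomm_ring
      rw [this, hs]; abel
    rw [hf, smul_mul_smul_comm, this, smul_smul, h4]
  have hef : e * f = 0 := by
    have : (1 + s) * (1 - s) = 0 := by
      have : (1 + s) * (1 - s) = 1 - s * s := by noncomm_ring
      rw [this, hs, sub_self]
    rw [he, hf, smul_mul_smul_comm, this, smul_zero]
  have hfe : f * e = 0 := by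
    have : (1 - s) * (1 + s) = 0 := by
      have : (1 - s) * (1 + s) = 1 - s * s := by noncomm_ring
      rw [this, hs, sub_self]
    rw [he, hf, smul_mul_smul_comm, this, smul_zero]
  have hsum : e + f = 1 := by
    rw [he, hf, ← smul_add]
    have : (1 + s) + (1 - s) = (2 : F) • (1 : Matrix Ix Ix F) := by rw [two_smul]; abel
    rw [this, smul_smul, inv_mul_cancel₀ h2, one_smul]
  have hmul : ∀ X Y : Matrix Ix Ix F, Y * e = e * Y → Y * f = f * Y →
      (X * e + f) * (Y * e + f) = X * Y * e + f := by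
    intro X Y hY hY'
    have : (X * e + f) * (Y * e + f) = X * (e * Y) * e + X * (e * f) + (f * Y) * e + f * f := by
      noncomm_ring
    rw [this, hef, ← hY, ← hY', hff, mul_zero, add_zero]
    have h5 : Y * f * e = 0 := by rw [mul_assoc, hfe, mul_zero]
    have h6 : X * (Y * e) * e = X * Y * e := by rw [mul_assoc, mul_assoc, mul_assoc, hee]
    rw [h5, h6, add_zero]
  have hce : ∀ X : Matrix Ix Ix F, X * s = s * X → X * e = e * X ∧ X * f = f * X := by
    intro X hX
    constructor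
    · rw [he, Matrix.mul_smul, Matrix.smul_mul, mul_add, add_mul, hX, mul_one, one_mul]
    · rw [hf, Matrix.mul_smul, Matrix.smul_mul, mul_sub, sub_mul, hX, mul_one, one_mul]
  have key : m.1 * s = s * m.1 ∧ (m.1 * e + f).det = 1 := by
    induction hm using Submonoid.closure_induction with
    | mem X hX =>
      refine ⟨hc X hX, ?_⟩
      apply eq_one_of_pow_char p
      have hpow : ∀ k : ℕ, (X.1 * e + f) ^ k = X.1 ^ k * e + f := by
        intro k
        induction k with
        | zero => rw [pow_zero, pow_zero, one_mul, hsum]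
        | succ k ih =>
          rw [pow_succ, ih, hmul _ _ (hce _ (hc X hX)).1 (hce _ (hc X hX)).2, pow_succ]
      rw [← Matrix.det_pow, hpow, show X.1 ^ p = 1 from congrArg Subtype.val (hS X hX), one_mul,
        hsum, det_one]
    | one =>
      refine ⟨?_, ?_⟩
      · show (1 : Matrix Ix Ix F) * s = s * 1
        rw [one_mul, mul_one]
      · show ((1 : Matrix Ix Ix F) * e + f).det = 1
        rw [one_mul, hsum, det_one]
    | mul X Y _ _ hX hY =>
      refine ⟨?_, ?_⟩
      · show (X.1 * Y.1) * s = s * (X.1 * Y.1)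
        rw [mul_assoc, hY.1, ← mul_assoc, hX.1, mul_assoc]
      · show ((X.1 * Y.1) * e + f).det = 1
        rw [← hmul _ _ (hce _ hY.1).1 (hce _ hY.1).2, det_mul, hX.2, hY.2, one_mul]
  exact key.2

theorem Mon_conj (g : GL Ix F)
    (Ψ : SpecialLinearGroup (Fin 2) F →* ProjectiveSpecialLinearGroup Ix F)
    {m : SpecialLinearGroup Ix F} (hm : m ∈ Mon p Ψ) :
    conjSL g m ∈ Mon p ((projAut (conjSL g)).toMonoidHom.comp Ψ) := by
  induction hm using Submonoid.closure_induction with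
  | mem X hX =>
    obtain ⟨hXp, x, hx, hX⟩ := hX
    apply Submonoid.subset_closure
    refine ⟨by rw [← map_pow, hXp, map_one], x, hx, ?_⟩
    show mk4 (conjSL g X) = projAut (conjSL g) (Ψ x)
    rw [← hX]; rfl
  | one => rw [map_one]; exact Submonoid.one_mem _
  | mul X Y _ _ hX hY => rw [map_mul]; exact Submonoid.mul_mem _ hX hY

include hp in
theorem split (hp2 : p ≠ 2) (hq : ∀ r : F, r ^ 4 = 1 → ∃ ζ, ζ ^ 2 = r)
    (Ψ1 Ψ2 : SpecialLinearGroup (Fin 2) F →* ProjectiveSpecialLinearGroup Ix F)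
    (hi1 : Function.Injective Ψ1) (hi2 : Function.Injective Ψ2)
    (hcomm : ∀ x y, Ψ1 x * Ψ2 y = Ψ2 y * Ψ1 x) (hneg : Ψ1 negI = Ψ2 negI) :
    ∃ (g : GL Ix F) (θ1 θ2 : SpecialLinearGroup (Fin 2) F →* SpecialLinearGroup (Fin 2) F),
      Function.Injective θ1 ∧ Function.Injective θ2 ∧
      (∀ x, projAut (conjSL g) (Ψ1 x) = mk4 (blk1 (θ1 x))) ∧
      (∀ x, projAut (conjSL g) (Ψ2 x) = mk4 (blk2 (θ2 x))) := by
  have h2 : (2 : F) ≠ 0 := two_ne_zero_of_char p hp2
  obtain ⟨m, hm, hm'⟩ := Mon_surj p hp2 Ψ1 negI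
  have hmsq : mk4 (m ^ 2) = 1 := by
    rw [mk4_pow, hm', ← map_pow, sq, negI_sq, map_one]
  obtain ⟨r, hr4, hr⟩ := (mk4_eq_one_iff _).1 hmsq
  obtain ⟨ζ, hζ⟩ := hq r hr4
  have hζ8 : ζ ^ 8 = 1 := by
    have : ζ ^ 8 = (ζ ^ 2) ^ 4 := by ring
    rw [this, hζ, hr4]
  have hζ0 : ζ ≠ 0 := by
    intro h
    rw [h] at hζ8
    simp at hζ8
  have hmm : m.1 * m.1 = ζ ^ 2 • (1 : Matrix Ix Ix F) := by
    have : m.1 * m.1 = (m ^ 2).1 := by rw [sq]; rfl
    rw [this, hr, hζ]
  set s : Matrix Ix Ix F := ζ⁻¹ • m.1 with hs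
  have hms : m.1 = ζ • s := by rw [hs, smul_smul, mul_inv_cancel₀ hζ0, one_smul]
  have hss : s * s = 1 := by
    rw [hs, smul_mul_smul_comm, hmm, smul_smul]
    have : ζ⁻¹ * ζ⁻¹ * ζ ^ 2 = 1 := by field_simp
    rw [this, one_smul]
  have hmc : ∀ x, mk4 m * Ψ1 x = Ψ1 x * mk4 m := by
    intro x
    rw [hm', ← map_mul, negI_comm, map_mul]
  have hcs : ∀ X ∈ gen p Ψ1, X.1 * s = s * X.1 := by
    intro X hX
    have h1 : m.1 * X.1 = X.1 * m.1 := congrArg Subtype.val (comm_of_mk p hmc hX)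
    rw [hs, Matrix.mul_smul, Matrix.smul_mul, h1]
  have hss' : (-s) * (-s) = 1 := by rw [neg_mul_neg, hss]
  have hcs' : ∀ X ∈ gen p Ψ1, X.1 * (-s) = (-s) * X.1 := by
    intro X hX
    rw [mul_neg, neg_mul, hcs X hX]
  have hnots : s ≠ 1 := by
    intro h
    have h1 : mk4 m = 1 := by
      rw [mk4_eq_one_iff]
      refine ⟨ζ, ?_, by rw [hms, h]⟩
      have hd : (ζ • (1 : Matrix Ix Ix F)).det = 1 := by rw [← h, ← hms]; exact m.2
      rw [det_smul, det_one, mul_one, card_Ix] at hd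
      exact hd
    rw [hm'] at h1
    exact negI_ne_one h2 (hi1 (h1.trans (map_one Ψ1).symm))
  have hnots' : s ≠ -1 := by
    intro h
    have h1 : mk4 m = 1 := by
      rw [mk4_eq_one_iff]
      have hme : m.1 = (-ζ) • (1 : Matrix Ix Ix F) := by
        rw [hms, h, smul_neg, neg_smul]
      refine ⟨-ζ, ?_, hme⟩
      have hd : ((-ζ) • (1 : Matrix Ix Ix F)).det = 1 := by rw [← hme]; exact m.2
      rw [det_smul, det_one, mul_one, card_Ix] at hd
      exact hd
    rw [hm'] at h1
    exact negI_ne_one h2 (hi1 (h1.trans (map_one Ψ1).symm))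
  obtain ⟨a, b, hab, hdet, ha0, hb0, hP⟩ := invol_structure h2 s hss
  have e1 : ζ ^ a = 1 := by
    have h := det_proj p hss h2 (gen p Ψ1) (fun X hX => hX.1) hcs hm
    have h' : m.1 * ((2 : F)⁻¹ • (1 + s)) + (2 : F)⁻¹ • (1 - s) =
        ((ζ / 2) + (1 / 2)) • (1 : Matrix Ix Ix F) + ((ζ / 2) - (1 / 2)) • s := by
      have h3 : s * (1 + s) = 1 + s := by rw [mul_add, mul_one, hss, add_comm]
      rw [hms, smul_mul_smul_comm, h3, div_eq_mul_inv, one_div]
      module
    rw [h', hdet] at h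
    have h5 : 2 * (ζ / 2) = ζ := by field_simp
    have h6 : (2 : F) * (1 / 2) = 1 := by field_simp
    rw [h5, h6, one_pow, mul_one] at h
    exact h
  have e2 : (-ζ) ^ b = 1 := by
    have h := det_proj p hss' h2 (gen p Ψ1) (fun X hX => hX.1) hcs' hm
    have h' : m.1 * ((2 : F)⁻¹ • (1 + -s)) + (2 : F)⁻¹ • (1 - -s) =
        ((1 / 2) + (-ζ / 2)) • (1 : Matrix Ix Ix F) + ((1 / 2) - (-ζ / 2)) • s := by
      have h3 : s * (1 + -s) = s - 1 := by rw [mul_add, mul_one, mul_neg, hss, sub_eq_add_neg]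
      rw [hms, smul_mul_smul_comm, h3]
      simp only [div_eq_mul_inv]
      module
    rw [h', hdet] at h
    have h5 : 2 * (-ζ / 2) = -ζ := by field_simp
    have h6 : (2 : F) * (1 / 2) = 1 := by field_simp
    rw [h5, h6, one_pow, one_mul] at h
    exact h
  have h11 : (-1 : F) ≠ 1 := by
    intro h
    apply h2
    linear_combination -h
  have hab2 : a = 2 ∧ b = 2 := by
    have ha : a ≠ 0 := fun h => hnots' (ha0 h)
    have hb : b ≠ 0 := fun h => hnots (hb0 h)
    by_cases ha1 : a = 1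
    · exfalso
      have hb3 : b = 3 := by omega
      rw [ha1, pow_one] at e1
      rw [hb3, e1] at e2
      apply h11
      linear_combination e2
    · by_cases ha3 : a = 3
      · exfalso
        have hb1 : b = 1 := by omega
        rw [hb1, pow_one] at e2
        have : ζ = -1 := by linear_combination -e2
        rw [ha3, this] at e1
        apply h11
        linear_combination e1
      · omega
  obtain ⟨rfl, rfl⟩ := hab2
  obtain ⟨P, hPdet, hPs⟩ := hP rfl rfl
  -- a basis in which `m` is the standard involution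
  have hQ : ∃ Q : Matrix Ix Ix F, Q.det ≠ 0 ∧ m.1 * Q = Q * (blk1 negI).1 := by
    have hz : (blk1 negI : SpecialLinearGroup Ix F).1 = fromBlocks (-1) 0 0 1 := rfl
    have hζ1 : ζ = 1 ∨ ζ = -1 := mul_self_eq_one_iff.1 (by rw [← sq]; exact e1)
    rcases hζ1 with h | h
    · refine ⟨P * fromBlocks 0 1 1 0, ?_, ?_⟩
      · rw [det_mul]
        refine mul_ne_zero hPdet ?_
        intro h0
        have h1 : (fromBlocks 0 1 1 0 : Matrix Ix Ix F) * fromBlocks 0 1 1 0 = 1 := by
          rw [fromBlocks_multiply, ← fromBlocks_one]; simp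
        have h3 := congrArg Matrix.det h1
        rw [det_mul, h0, mul_zero, det_one] at h3
        exact zero_ne_one h3
      · rw [hms, h, one_smul, ← mul_assoc, hPs, mul_assoc, mul_assoc, hz, fromBlocks_multiply,
          fromBlocks_multiply]
        simp
    · refine ⟨P, hPdet, ?_⟩
      rw [hms, h, neg_smul, one_smul, neg_mul, hPs, hz, ← mul_neg, fromBlocks_neg]
      simp
  obtain ⟨Q, hQdet, hQm⟩ := hQ
  set g : GL Ix F := (toGL Q hQdet)⁻¹ with hg
  have hgm : conjSL g m = blk1 negI := by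
    have : conjSL (toGL Q hQdet) (blk1 negI) = m := by
      rw [conjSL_eq_iff]
      exact hQm.symm
    rw [← this, hg, conjSL_inv_conjSL]
  refine ⟨g, ?_⟩
  refine split2 p hp2 ((projAut (conjSL g)).toMonoidHom.comp Ψ1)
    ((projAut (conjSL g)).toMonoidHom.comp Ψ2) ?_ ?_ ?_ ?_ ?_ ?_
  · exact (projAut (conjSL g)).injective.comp hi1
  · exact (projAut (conjSL g)).injective.comp hi2
  · intro x y
    show projAut (conjSL g) (Ψ1 x) * projAut (conjSL g) (Ψ2 y) =
      projAut (conjSL g) (Ψ2 y) * projAut (conjSL g) (Ψ1 x)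
    rw [← map_mul, hcomm, map_mul]
  · show projAut (conjSL g) (Ψ1 negI) = projAut (conjSL g) (Ψ2 negI)
    rw [hneg]
  · rw [← hgm]
    exact Mon_conj p g Ψ1 hm
  · show mk4 (blk1 negI) = projAut (conjSL g) (Ψ1 negI)
    rw [← hgm, ← hm']
    rfl

end

end Pool.Agent.Lib.MP_ca8614_al
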