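import Pool.Agent.Lib.MP_ca8614_al.Split3

set_option autoImplicit false

open Matrix

namespace Pool.Agent.Lib.MP_ca8614_al

variable {F : Type*} [Field F]

theorem det_swap_blocks : (fromBlocks 0 1 1 0 : Matrix Ix Ix F).det = 1 := by
  have h : (fromBlocks 0 1 1 0 : Matrix Ix Ix F) =
      fromBlocks 1 1 0 1 * fromBlocks 1 0 (-1) 1 * fromBlocks 1 1 0 1 *
        fromBlocks (-1) 0 0 1 := by
    rw [fromBlocks_multiply, fromBlocks_multiply, fromBlocks_multiply]
    simp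
  rw [h, det_mul, det_mul, det_mul, det_fromBlocks_zero₂₁, det_fromBlocks_zero₁₂,
    det_fromBlocks_zero₁₂]
  simp [Matrix.det_fin_two]

/-- the element interchanging the two blocks -/
def swp : SpecialLinearGroup Ix F := ⟨fromBlocks 0 1 1 0, det_swap_blocks⟩

theorem swp_val : (swp : SpecialLinearGroup Ix F).1 = fromBlocks 0 1 1 0 := rfl

theorem det_antidiag (Q R : Matrix (Fin 2) (Fin 2) F) :
    (fromBlocks 0 Q R 0 : Matrix Ix Ix F).det = Q.det * R.det := by
  have h : (fromBlocks 0 Q R 0 : Matrix Ix Ix F) = fromBlocks Q 0 0 R * fromBlocks 0 1 1 0 := by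
    rw [fromBlocks_multiply]; simp
  rw [h, det_mul, det_swap_blocks, det_fromBlocks_zero₁₂, mul_one]

section

variable (p : ℕ) [hp : Fact p.Prime] [CharP F p]

include hp in
theorem normal_form1 (hp2 : p ≠ 2) [Finite F] (hq : ∀ r : F, r ^ 4 = 1 → ∃ ζ, ζ ^ 2 = r)
    (Ψ1 Ψ2 : SpecialLinearGroup (Fin 2) F →* ProjectiveSpecialLinearGroup Ix F)
    (θ1 θ2 : SpecialLinearGroup (Fin 2) F →* SpecialLinearGroup (Fin 2) F)
    (hθ1 : Function.Injective θ1) (hθ2 : Function.Injective θ2)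
    (h1 : ∀ x, Ψ1 x = mk4 (blk1 (θ1 x))) (h2 : ∀ x, Ψ2 x = mk4 (blk2 (θ2 x)))
    (σ : ProjectiveSpecialLinearGroup Ix F) (hσ1 : ∀ x, σ * Ψ1 x = Ψ2 x * σ)
    (hσ2 : ∀ x, σ * Ψ2 x = Ψ1 x * σ) (hσ : σ ^ 2 = 1) :
    ∃ g : GL Ix F, (∀ x, projAut (conjSL g) (Ψ1 x) = mk4 (blk1 (θ1 x))) ∧
      (∀ x, projAut (conjSL g) (Ψ2 x) = mk4 (blk2 (θ1 x))) ∧
      projAut (conjSL g) σ = mk4 swp := by
  have h2ne : (2 : F) ≠ 0 := two_ne_zero_of_char p hp2
  obtain ⟨S, hS⟩ := QuotientGroup.mk_surjective σ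
  have hS' : mk4 S = σ := hS
  have c1 : ∀ x, S * blk1 (θ1 x) = blk2 (θ2 x) * S := by
    have hgen : ∀ x : SpecialLinearGroup (Fin 2) F, x ^ p = 1 →
        S * blk1 (θ1 x) = blk2 (θ2 x) * S := by
      intro x hx
      apply lift_conj p
      · rw [hS', ← h1, ← h2, hσ1]
      · rw [← map_pow, ← map_pow, hx, map_one, map_one]
      · rw [← map_pow, ← map_pow, hx, map_one, map_one]
    refine SL2_induction _ (fun a => hgen _ (up_pow_p p a)) (fun a => hgen _ (lo_pow_p p a)) ?_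
    intro A B hA hB
    rw [map_mul, map_mul, map_mul, map_mul, ← mul_assoc, hA, mul_assoc, hB, mul_assoc]
  have c2 : ∀ x, S * blk2 (θ2 x) = blk1 (θ1 x) * S := by
    have hgen : ∀ x : SpecialLinearGroup (Fin 2) F, x ^ p = 1 →
        S * blk2 (θ2 x) = blk1 (θ1 x) * S := by
      intro x hx
      apply lift_conj p
      · rw [hS', ← h1, ← h2, hσ2]
      · rw [← map_pow, ← map_pow, hx, map_one, map_one]
      · rw [← map_pow, ← map_pow, hx, map_one, map_one]
    refine SL2_induction _ (fun a => hgen _ (up_pow_p p a)) (fun a => hgen _ (lo_pow_p p a)) ?_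
    intro A B hA hB
    rw [map_mul, map_mul, map_mul, map_mul, ← mul_assoc, hA, mul_assoc, hB, mul_assoc]
  set P := S.1.toBlocks₁₁ with hPd
  set Q := S.1.toBlocks₁₂ with hQd
  set R := S.1.toBlocks₂₁ with hRd
  set T := S.1.toBlocks₂₂ with hTd
  have hSe : S.1 = fromBlocks P Q R T := (fromBlocks_toBlocks S.1).symm
  have c1' : ∀ x, P * (θ1 x).1 = P ∧ R * (θ1 x).1 = (θ2 x).1 * R ∧ T = (θ2 x).1 * T := by
    intro x
    have h : S.1 * (blk1 (θ1 x)).1 = (blk2 (θ2 x)).1 * S.1 := congrArg Subtype.val (c1 x)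
    rw [blk1_val, blk2_val, hSe, fromBlocks_multiply, fromBlocks_multiply, fromBlocks_inj] at h
    obtain ⟨e1, e2, e3, e4⟩ := h
    simp only [mul_zero, add_zero, mul_one, zero_add, one_mul, zero_mul] at e1 e2 e3 e4
    exact ⟨e1, e3, e4⟩
  have c2' : ∀ x, Q * (θ2 x).1 = (θ1 x).1 * Q := by
    intro x
    have h : S.1 * (blk2 (θ2 x)).1 = (blk1 (θ1 x)).1 * S.1 := congrArg Subtype.val (c2 x)
    rw [blk1_val, blk2_val, hSe, fromBlocks_multiply, fromBlocks_multiply, fromBlocks_inj] at h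
    obtain ⟨e1, e2, e3, e4⟩ := h
    simp only [mul_zero, add_zero, mul_one, zero_add, one_mul, zero_mul] at e1 e2 e3 e4
    exact e2
  have hP0 : P = 0 := by
    obtain ⟨x, hx⟩ := (Finite.injective_iff_surjective.1 hθ1) negI
    have := (c1' x).1
    rw [hx, negI_val, mul_neg, mul_one] at this
    have h3 : (2 : F) • P = 0 := by rw [two_smul]; nth_rewrite 1 [← this]; exact neg_add_cancel _
    exact (smul_eq_zero.1 h3).resolve_left h2ne
  have hT0 : T = 0 := by
    obtain ⟨x, hx⟩ := (Finite.injective_iff_surjective.1 hθ2) negI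
    have := (c1' x).2.2
    rw [hx, negI_val, neg_mul, one_mul] at this
    have h3 : (2 : F) • T = 0 := by rw [two_smul]; nth_rewrite 1 [this]; exact neg_add_cancel _
    exact (smul_eq_zero.1 h3).resolve_left h2ne
  rw [hP0, hT0] at hSe
  have hdet : Q.det * R.det = 1 := by rw [← det_antidiag, ← hSe]; exact S.2
  have hSS : mk4 (S ^ 2) = 1 := by rw [mk4_pow, hS', hσ]
  obtain ⟨r, hr4, hr⟩ := (mk4_eq_one_iff _).1 hSS
  have hQR : Q * R = r • (1 : Matrix (Fin 2) (Fin 2) F) ∧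
      R * Q = r • (1 : Matrix (Fin 2) (Fin 2) F) := by
    have h : S.1 * S.1 = r • (1 : Matrix Ix Ix F) := by rw [← hr, sq]; rfl
    rw [hSe, fromBlocks_multiply, ← fromBlocks_one, fromBlocks_smul, fromBlocks_inj] at h
    obtain ⟨e1, -, -, e4⟩ := h
    simp only [mul_zero, zero_add, add_zero] at e1 e4
    exact ⟨e1, e4⟩
  have hr2 : r ^ 2 = 1 := by
    have h := congrArg Matrix.det hQR.1
    rw [det_mul, hdet, det_smul, det_one, mul_one] at h
    exact h.symm
  obtain ⟨d, hd⟩ := hq r hr4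
  have hd0 : d ≠ 0 := by
    intro h
    rw [h] at hd
    rw [← hd] at hr2
    simp at hr2
  have hr0 : r ≠ 0 := by
    intro h
    rw [h] at hr2
    simp at hr2
  have hRu : IsUnit R.det := by
    rw [isUnit_iff_ne_zero]
    intro h
    rw [h, mul_zero] at hdet
    exact zero_ne_one hdet
  have hGdet : (fromBlocks 1 0 0 (d • R⁻¹) : Matrix Ix Ix F).det ≠ 0 := by
    rw [det_fromBlocks_zero₁₂, det_one, one_mul, det_smul]
    refine mul_ne_zero (pow_ne_zero _ hd0) ?_
    rw [Matrix.det_nonsing_inv]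
    exact (hRu.ringInverse).ne_zero
  refine ⟨toGL _ hGdet, ?_, ?_, ?_⟩
  · intro x
    rw [h1]
    show mk4 (conjSL (toGL _ hGdet) (blk1 (θ1 x))) = _
    congr 1
    rw [conjSL_eq_iff, toGL_val, blk1_val, fromBlocks_multiply, fromBlocks_multiply]
    simp
  · intro x
    rw [h2]
    show mk4 (conjSL (toGL _ hGdet) (blk2 (θ2 x))) = _
    congr 1
    rw [conjSL_eq_iff, toGL_val, blk2_val, blk2_val, fromBlocks_multiply, fromBlocks_multiply]
    have h3 : R⁻¹ * (θ2 x).1 = (θ1 x).1 * R⁻¹ := by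
      calc R⁻¹ * (θ2 x).1 = R⁻¹ * ((θ2 x).1 * R) * R⁻¹ := by
            rw [mul_assoc, mul_assoc, mul_nonsing_inv _ hRu, mul_one]
        _ = R⁻¹ * (R * (θ1 x).1) * R⁻¹ := by rw [(c1' x).2.1]
        _ = (θ1 x).1 * R⁻¹ := by
            rw [← mul_assoc R⁻¹, nonsing_inv_mul _ hRu, one_mul]
    simp only [mul_zero, add_zero, mul_one, zero_add, one_mul, zero_mul, Matrix.smul_mul,
      Matrix.mul_smul, h3]
  · rw [← hS']
    show mk4 (conjSL (toGL _ hGdet) S) = mk4 swp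
    rw [eq_comm, mk4_eq_iff]
    refine ⟨d, ?_, ?_⟩
    · have : d ^ 4 = (d ^ 2) ^ 2 := by ring
      rw [this, hd, hr2]
    · have h3 : (toGL _ hGdet).1 * S.1 = (d • (fromBlocks 0 1 1 0 : Matrix Ix Ix F)) *
          (toGL _ hGdet).1 := by
        rw [toGL_val, hSe, fromBlocks_multiply, fromBlocks_smul, fromBlocks_multiply]
        have h4 : Q = r • R⁻¹ := by
          calc Q = Q * (R * R⁻¹) := by rw [mul_nonsing_inv _ hRu, mul_one]
            _ = r • R⁻¹ := by rw [← mul_assoc, hQR.1, Matrix.smul_mul, one_mul]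
        simp only [mul_zero, add_zero, zero_add, one_mul, zero_mul, Matrix.smul_mul,
          smul_zero, nonsing_inv_mul _ hRu, Matrix.mul_smul, smul_smul, mul_one]
        rw [h4, ← hd, sq]
      have h5 : (conjSL (toGL _ hGdet) S).1 * (toGL _ hGdet).1 =
          (d • (fromBlocks 0 1 1 0 : Matrix Ix Ix F)) * (toGL _ hGdet).1 := by
        rw [conjSL_val_mul]; exact h3
      have h6 : (toGL _ hGdet).1 * (toGL _ hGdet)⁻¹.1 = 1 := by simp
      calc (conjSL (toGL _ hGdet) S).1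
          = (conjSL (toGL _ hGdet) S).1 * ((toGL _ hGdet).1 * (toGL _ hGdet)⁻¹.1) := by
            rw [h6, mul_one]
        _ = (d • (fromBlocks 0 1 1 0 : Matrix Ix Ix F)) * (toGL _ hGdet).1 *
            (toGL _ hGdet)⁻¹.1 := by rw [← mul_assoc, h5]
        _ = d • swp.1 := by rw [mul_assoc, h6, mul_one, swp_val]

end

end Pool.Agent.Lib.MP_ca8614_al
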