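import Pool.Agent.Lib.MP_ca8614_al.Rigid

set_option autoImplicit false

open Matrix

namespace Pool.Agent.Lib.MP_ca8614_al

variable {F : Type*} [Field F]

/-- the inclusion of the symplectic group in the special linear group -/
def incl (F : Type*) [Field F] : symplecticGroup (Fin 2) F →* SpecialLinearGroup Ix F where
  toFun A := ⟨A.1, SymplecticGroup.det_eq_one A.2⟩
  map_one' := rfl
  map_mul' _ _ := rfl

/-- the permutation of coordinates -/
def sg : Ix ≃ Ix := Equiv.swap (Sum.inr 0) (Sum.inl 1)

theorem sg_sg (i : Ix) : sg (sg i) = i := by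
  rw [sg, Equiv.swap_apply_def, Equiv.swap_apply_def]
  revert i
  decide

/-- permuting the coordinates is an automorphism of `SL` -/
def rho (F : Type*) [Field F] : SpecialLinearGroup Ix F ≃* SpecialLinearGroup Ix F where
  toFun A := ⟨A.1.submatrix sg sg, by rw [det_submatrix_equiv_self, A.2]⟩
  invFun A := ⟨A.1.submatrix sg sg, by rw [det_submatrix_equiv_self, A.2]⟩
  left_inv A := by
    apply Subtype.ext
    refine Matrix.ext fun i j => ?_
    show A.1 (sg (sg i)) (sg (sg j)) = _
    rw [sg_sg, sg_sg]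
  right_inv A := by
    apply Subtype.ext
    refine Matrix.ext fun i j => ?_
    show A.1 (sg (sg i)) (sg (sg j)) = _
    rw [sg_sg, sg_sg]
  map_mul' A B := by
    apply Subtype.ext
    show (A.1 * B.1).submatrix sg sg = A.1.submatrix sg sg * B.1.submatrix sg sg
    rw [submatrix_mul_equiv]

theorem J_submatrix : (J (Fin 2) F).submatrix sg sg = Om := by
  have h1 : sg (Sum.inl 0) = Sum.inl 0 := by decide
  have h2 : sg (Sum.inl 1) = Sum.inr 0 := by decide
  have h3 : sg (Sum.inr 0) = Sum.inl 1 := by decide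
  have h4 : sg (Sum.inr 1) = Sum.inr 1 := by decide
  refine Matrix.ext fun i j => ?_
  rw [submatrix_apply, J, Om, om]
  rcases i with i | i <;> rcases j with j | j <;> fin_cases i <;> fin_cases j <;>
    simp [h1, h2, h3, h4]

theorem rho_mem_iff (A : SpecialLinearGroup Ix F) :
    rho F A ∈ SpB F ↔ A.1 ∈ symplecticGroup (Fin 2) F := by
  rw [mem_SpB, SymplecticGroup.mem_iff]
  have h1 : (rho F A).1 * Om * (rho F A).1ᵀ = (A.1 * J (Fin 2) F * A.1ᵀ).submatrix sg sg := by
    show A.1.submatrix sg sg * Om * (A.1.submatrix sg sg)ᵀ = _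
    rw [← J_submatrix, transpose_submatrix, submatrix_mul_equiv, submatrix_mul_equiv]
  rw [h1, ← J_submatrix]
  constructor
  · intro h
    refine Matrix.ext fun i j => ?_
    have := congrFun (congrFun h (sg i)) (sg j)
    rw [submatrix_apply, submatrix_apply, sg_sg, sg_sg] at this
    exact this
  · intro h
    rw [h]

/-- the symplectic groups in the two coordinate systems are isomorphic -/
def eSp (F : Type*) [Field F] : symplecticGroup (Fin 2) F ≃* SpB F where
  toFun A := ⟨rho F (incl F A), (rho_mem_iff _).2 A.2⟩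
  invFun g := ⟨((rho F).symm g.1).1, by
    rw [← rho_mem_iff, MulEquiv.apply_symm_apply]; exact g.2⟩
  left_inv A := by
    apply Subtype.ext
    show ((rho F).symm (rho F (incl F A))).1 = A.1
    rw [MulEquiv.symm_apply_apply]; rfl
  right_inv g := by
    apply Subtype.ext
    show rho F ((rho F).symm g.1) = g.1
    rw [MulEquiv.apply_symm_apply]
  map_mul' A B := by
    apply Subtype.ext
    show rho F (incl F (A * B)) = rho F (incl F A) * rho F (incl F B)
    rw [map_mul, map_mul]

theorem eSp_val (A : symplecticGroup (Fin 2) F) : (eSp F A).1 = rho F (incl F A) := rfl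

theorem central_SpB (h2 : (2 : F) ≠ 0) (g : SpB F) (hg : ∀ h : SpB F, g * h = h * g) :
    g.1.1 = 1 ∨ g.1.1 = -1 := by
  have hc : ∀ h : SpB F, g.1 * h.1 = h.1 * g.1 := fun h => congrArg Subtype.val (hg h)
  obtain ⟨q1, q2⟩ := blockdiag_of_commute h2 g.1 (hc (B1 F negI))
  set P := g.1.1.toBlocks₁₁ with hP
  set T := g.1.1.toBlocks₂₂ with hT
  have hge : g.1.1 = fromBlocks P 0 0 T := by
    conv_lhs => rw [← fromBlocks_toBlocks g.1.1, q1, q2]
  have hTP : T = P := by
    have h : g.1.1 * swp.1 = swp.1 * g.1.1 := congrArg Subtype.val (hc (Sw F))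
    rw [hge, swp_val, fromBlocks_multiply, fromBlocks_multiply, fromBlocks_inj] at h
    obtain ⟨-, h, -, -⟩ := h
    simpa using h.symm
  have c1 : P * !![1, 1; 0, 1] = !![1, 1; 0, 1] * P := by
    have h : g.1.1 * (blk1 (up 1)).1 = (blk1 (up 1)).1 * g.1.1 :=
      congrArg Subtype.val (hc (B1 F (up 1)))
    rw [hge, blk1_val, up_val, fromBlocks_multiply, fromBlocks_multiply, fromBlocks_inj] at h
    simpa using h.1
  have c2 : P * !![1, 0; 1, 1] = !![1, 0; 1, 1] * P := by
    have h : g.1.1 * (blk1 (lo 1)).1 = (blk1 (lo 1)).1 * g.1.1 :=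
      congrArg Subtype.val (hc (B1 F (lo 1)))
    rw [hge, blk1_val, lo_val, fromBlocks_multiply, fromBlocks_multiply, fromBlocks_inj] at h
    simpa using h.1
  have e1 := congrFun (congrFun c1 0) 0
  have e2 := congrFun (congrFun c1 0) 1
  have e3 := congrFun (congrFun c2 0) 0
  simp [Matrix.mul_apply, Fin.sum_univ_two] at e1 e2 e3
  have hPe : P = P 0 0 • (1 : Matrix (Fin 2) (Fin 2) F) := by
    refine Matrix.ext fun i j => ?_
    fin_cases i <;> fin_cases j
    · simp
    · simpa using e3
    · simpa using e1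
    · have : P 1 1 = P 0 0 := by linear_combination -e2
      simpa using this
  set a := P 0 0 with ha
  have hg1 : g.1.1 = a • (1 : Matrix Ix Ix F) := by
    rw [hge, hTP, hPe, ← fromBlocks_one, fromBlocks_smul]
    simp
  have ha2 : a * a = 1 := by
    have h : g.1.1 * Om * g.1.1ᵀ = Om := g.2
    rw [hg1, transpose_smul, transpose_one, Matrix.mul_smul, Matrix.smul_mul, Matrix.one_mul,
      Matrix.mul_one, smul_smul] at h
    have := congrFun (congrFun h (Sum.inl 1)) (Sum.inl 0)
    rw [Om, om] at this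
    simpa using this
  rcases mul_self_eq_one_iff.1 ha2 with h | h
  · left; rw [hg1, h, one_smul]
  · right; rw [hg1, h, neg_smul, one_smul]

theorem central_Sp (h2 : (2 : F) ≠ 0) (A : symplecticGroup (Fin 2) F)
    (hA : A ∈ Subgroup.center (symplecticGroup (Fin 2) F)) :
    (eSp F A).1.1 = 1 ∨ (eSp F A).1.1 = -1 := by
  apply central_SpB h2
  intro h
  obtain ⟨B, rfl⟩ := (eSp F).surjective h
  rw [← map_mul, ← map_mul]
  congr 1
  exact (Subgroup.mem_center_iff.1 hA B).symm

end Pool.Agent.Lib.MP_ca8614_al
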